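import Mathlib
import Pool.Prelude.Def_H_3587d628

/-!
Quantum Turing machines in the sense of Bernstein and Vazirani (single two-way infinite tape),
and error-free decision in polynomial time.
-/

namespace Pool.Agent.H543R2

/-- Head movement: left, stay, right. -/
inductive Dir
  | left | stay | right
  deriving DecidableEq, Fintype

/-- The displacement of the head. -/
def Dir.shift : Dir → ℤ
  | .left => -1
  | .stay => 0
  | .right => 1

/-- A quantum Turing machine: finite state set, finite tape alphabet with a blank, input symbols
for `false` and `true`, complex transition amplitudes `δ q σ p τ d` (in state `q` reading `σ`: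
go to state `p`, write `τ`, move the head by `d`), a set of halting states, and an acceptance
predicate depending on the state and the scanned symbol. -/
structure QTM where
  Q : Type
  Γ : Type
  [finQ : Fintype Q]
  [decQ : DecidableEq Q]
  [finΓ : Fintype Γ]
  [decΓ : DecidableEq Γ]
  start : Q
  blank : Γ
  inp : Bool → Γ
  inp_injective : Function.Injective inp
  inp_ne_blank : ∀ b, inp b ≠ blank
  halting : Q → Bool
  accept : Q → Γ → Bool
  δ : Q → Γ → Q → Γ → Dir → ℂ

attribute [instance] QTM.finQ QTM.decQ QTM.finΓ QTM.decΓ

namespace QTM

/-- A configuration: state, absolute head position, and tape contents, all but finitely many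
cells being blank. -/
@[ext]
structure Config (M : QTM) where
  state : M.Q
  pos : ℤ
  tape : ℤ → M.Γ
  finite_nonblank : {i | tape i ≠ M.blank}.Finite

variable (M : QTM)

/-- The configuration reached from `c` by writing `τ`, entering `p` and moving by `d`. -/
def Config.move {M : QTM} (c : M.Config) (p : M.Q) (τ : M.Γ) (d : Dir) : M.Config where
  state := p
  pos := c.pos + d.shift
  tape := Function.update c.tape c.pos τ
  finite_nonblank := by
    refine (c.finite_nonblank.union (Set.finite_singleton c.pos)).subset ?_
    intro i hi
    by_cases h : i = c.pos
    · right; exact h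
    · left
      simpa [Function.update_of_ne h] using hi

/-- The superposition reached in one step from a configuration. -/
noncomputable def stepVec (c : M.Config) : M.Config →₀ ℂ :=
  ∑ p : M.Q, ∑ τ : M.Γ, ∑ d : Dir,
    Finsupp.single (c.move p τ d) (M.δ c.state (c.tape c.pos) p τ d)

/-- The time evolution operator on finite superpositions of configurations. -/
noncomputable def evolve : (M.Config →₀ ℂ) →ₗ[ℂ] (M.Config →₀ ℂ) :=
  Finsupp.linearCombination ℂ M.stepVec

/-- The squared Euclidean length of a superposition. -/
noncomputable def normSq (ψ : M.Config →₀ ℂ) : ℝ := ∑ c ∈ ψ.support, ‖ψ c‖ ^ 2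

/-- A quantum Turing machine is well-formed if its time evolution preserves Euclidean length. -/
def WellFormed : Prop := ∀ ψ : M.Config →₀ ℂ, M.normSq (M.evolve ψ) = M.normSq ψ

/-- The initial configuration on input `x`: head on cell `0`, the input in the cells
`0, 1, ..., |x| - 1`, all other cells blank. -/
def init (x : List Bool) : M.Config where
  state := M.start
  pos := 0
  tape := fun i => if 0 ≤ i then ((x[i.toNat]?).map M.inp).getD M.blank else M.blank
  finite_nonblank := by
    refine (Set.finite_Ico (0 : ℤ) x.length).subset ?_
    intro i hi
    simp only [Set.mem_ofPred_eq] at hi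
    by_cases h0 : 0 ≤ i
    · simp only [h0, if_true] at hi
      refine ⟨h0, ?_⟩
      by_contra hlt
      push Not at hlt
      have : x.length ≤ i.toNat := by omega
      rw [List.getElem?_eq_none this] at hi
      exact hi rfl
    · simp only [h0, if_false] at hi
      exact absurd rfl hi

/-- The superposition after `t` steps on input `x`. -/
noncomputable def superposition (x : List Bool) (t : ℕ) : M.Config →₀ ℂ :=
  (M.evolve)^[t] (Finsupp.single (M.init x) 1)

/-- `M` halts on `x` at time `T`: at time `T` every configuration in the superposition is in a
halting state, and at earlier times none is. -/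
def HaltsAt (x : List Bool) (T : ℕ) : Prop :=
  (∀ c ∈ (M.superposition x T).support, M.halting c.state = true) ∧
    ∀ t < T, ∀ c ∈ (M.superposition x t).support, M.halting c.state = false

/-- The probability that observing the superposition at time `T` gives an accepting
configuration. -/
noncomputable def acceptProb (x : List Bool) (T : ℕ) : ℝ :=
  ∑ c ∈ (M.superposition x T).support with M.accept c.state (c.tape c.pos) = true,
    ‖M.superposition x T c‖ ^ 2

/-- `M` decides `L` without error in polynomial time: for some polynomial `p`, on every input
`x` the machine halts at some time at most `p(|x|)`, and then accepts with probability `1` if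
`x` is in `L` and with probability `0` otherwise. -/
def DecidesExactly (L : List Bool → Bool) : Prop :=
  ∃ p : Polynomial ℕ, ∀ x : List Bool, ∃ T : ℕ, T ≤ p.eval x.length ∧ M.HaltsAt x T ∧
    M.acceptProb x T = if L x = true then 1 else 0

end QTM

/-- A Gaussian rational number `(a + b i) / d` with `a`, `b` integers and `d` an odd integer. -/
def GaussOdd (z : ℂ) : Prop :=
  ∃ a b d : ℤ, Odd d ∧ z = ((a : ℂ) + (b : ℂ) * Complex.I) / (d : ℂ)

/-- All transition amplitudes are Gaussian rationals with odd denominator, and from each state
and scanned symbol at most two transitions have nonzero amplitude, or else all the amplitudes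
from there are real and at most four of them are nonzero. This holds for instance for every
well-formed machine all of whose amplitudes belong to `{0, ±3/5, ±4/5, ±1}`. -/
def QTM.OddAmplitudes (M : QTM) : Prop :=
  (∀ q σ p τ d, GaussOdd (M.δ q σ p τ d)) ∧
    ∀ q σ,
      (Finset.univ.filter fun t : M.Q × M.Γ × Dir => M.δ q σ t.1 t.2.1 t.2.2 ≠ 0).card ≤ 2 ∨
      ((∀ p τ d, (M.δ q σ p τ d).im = 0) ∧
        (Finset.univ.filter fun t : M.Q × M.Γ × Dir => M.δ q σ t.1 t.2.1 t.2.2 ≠ 0).card ≤ 4)

end Pool.Agent.H543R2
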