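import Mathlib
import Pool.Agent.H543R2.QTMDefs

/-! Parity of rational numbers with odd denominator, viewed inside `ℂ`. -/

namespace Pool.Agent.H543R2

open scoped BigOperators

/-- `z` is a Gaussian rational `(a + b i) / d` with odd denominator `d`, and `b'` is the parity
of `a + b`. -/
def Cong (z : ℂ) (b' : ZMod 2) : Prop :=
  ∃ a b d : ℤ, Odd d ∧ z * (d : ℂ) = (a : ℂ) + (b : ℂ) * Complex.I ∧ ((a + b : ℤ) : ZMod 2) = b'

theorem odd_cast_zmod {d : ℤ} (h : Odd d) : (d : ZMod 2) = 1 := by
  obtain ⟨k, rfl⟩ := h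
  push_cast
  have : (2 : ZMod 2) = 0 := by decide
  rw [this]; ring

theorem even_cast_zmod {d : ℤ} (h : ¬ Odd d) : (d : ZMod 2) = 0 := by
  rw [Int.not_odd_iff_even] at h
  obtain ⟨t, rfl⟩ := h
  push_cast
  have : ∀ r : ZMod 2, r + r = 0 := by decide
  exact this _

theorem Odd.ne_zero_int {d : ℤ} (h : Odd d) : d ≠ 0 := by
  rintro rfl
  simp at h

theorem Cong.add {z w : ℂ} {a b : ZMod 2} (hz : Cong z a) (hw : Cong w b) : Cong (z + w) (a + b) := by
  obtain ⟨n, n', d, hd, h1, h2⟩ := hz
  obtain ⟨m, m', e, he, h3, h4⟩ := hw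
  refine ⟨n * e + m * d, n' * e + m' * d, d * e, hd.mul he, ?_, ?_⟩
  · push_cast
    have : (z + w) * (d * e) = (z * d) * e + (w * e) * d := by ring
    rw [this, h1, h3]; ring
  · rw [← h2, ← h4]
    push_cast
    rw [odd_cast_zmod hd, odd_cast_zmod he]; ring

theorem Cong.mul {z w : ℂ} {a b : ZMod 2} (hz : Cong z a) (hw : Cong w b) : Cong (z * w) (a * b) := by
  obtain ⟨n, n', d, hd, h1, h2⟩ := hz
  obtain ⟨m, m', e, he, h3, h4⟩ := hw
  refine ⟨n * m - n' * m', n * m' + n' * m, d * e, hd.mul he, ?_, ?_⟩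
  · push_cast
    have : (z * w) * (d * e) = (z * d) * (w * e) := by ring
    rw [this, h1, h3]
    linear_combination ((n' : ℂ) * m') * Complex.I_mul_I
  · rw [← h2, ← h4]
    push_cast
    generalize (n : ZMod 2) = n₁
    generalize (n' : ZMod 2) = n₂
    generalize (m : ZMod 2) = m₁
    generalize (m' : ZMod 2) = m₂
    revert n₁ n₂ m₁ m₂
    decide

theorem cong_zero : Cong 0 0 := ⟨0, 0, 1, odd_one, by simp, by simp⟩

theorem cong_one : Cong 1 1 := ⟨1, 0, 1, odd_one, by simp, by simp⟩

theorem Cong.sum {ι : Type*} (s : Finset ι) (f : ι → ℂ) (g : ι → ZMod 2)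
    (h : ∀ i ∈ s, Cong (f i) (g i)) : Cong (∑ i ∈ s, f i) (∑ i ∈ s, g i) := by
  classical
  induction s using Finset.induction_on with
  | empty => simpa using cong_zero
  | insert a s ha ih =>
    rw [Finset.sum_insert ha, Finset.sum_insert ha]
    exact (h a (Finset.mem_insert_self _ _)).add
      (ih fun i hi => h i (Finset.mem_insert_of_mem hi))

theorem Cong.unique {z : ℂ} {a b : ZMod 2} (h : Cong z a) (h' : Cong z b) : a = b := by
  obtain ⟨n, n', d, hd, h1, h2⟩ := h
  obtain ⟨m, m', e, he, h3, h4⟩ := h'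
  have hC : ((n : ℂ) + n' * Complex.I) * e = ((m : ℂ) + m' * Complex.I) * d := by
    rw [← h1, ← h3]; ring
  have hre := congrArg Complex.re hC
  have him := congrArg Complex.im hC
  simp at hre him
  have hZ : n * e = m * d := by exact_mod_cast hre
  have hZ' : n' * e = m' * d := by exact_mod_cast him
  have e1 := congrArg (fun t : ℤ => (t : ZMod 2)) hZ
  have e2 := congrArg (fun t : ℤ => (t : ZMod 2)) hZ'
  simp only [Int.cast_mul] at e1 e2
  rw [odd_cast_zmod hd, odd_cast_zmod he, mul_one, mul_one] at e1 e2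
  rw [← h2, ← h4]
  push_cast
  rw [e1, e2]

theorem Cong.conj {z : ℂ} {a : ZMod 2} (h : Cong z a) : Cong ((starRingEnd ℂ) z) a := by
  obtain ⟨n, n', d, hd, h1, h2⟩ := h
  refine ⟨n, -n', d, hd, ?_, ?_⟩
  · have := congrArg (starRingEnd ℂ) h1
    simpa using this
  · rw [← h2]
    push_cast
    generalize (n : ZMod 2) = n₁
    generalize (n' : ZMod 2) = n₂
    revert n₁ n₂
    decide

theorem Cong.normSq {z : ℂ} {a : ZMod 2} (h : Cong z a) : Cong ((‖z‖ ^ 2 : ℝ) : ℂ) a := by
  have h1 : ((‖z‖ ^ 2 : ℝ) : ℂ) = z * (starRingEnd ℂ) z := by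
    rw [Complex.mul_conj, Complex.normSq_eq_norm_sq]
  rw [h1]
  have h2 := h.mul h.conj
  have h3 : ∀ x : ZMod 2, x * x = x := by decide
  rwa [h3 a] at h2

theorem Cong.ne_zero {z : ℂ} (h : Cong z 1) : z ≠ 0 := by
  rintro rfl
  have := h.unique cong_zero
  exact absurd this (by decide)

/-- A unit vector of Gaussian rational numbers with odd denominators which has at most two nonzero
entries, or is real with at most four nonzero entries, has exactly one odd entry. -/
theorem exists_unique_odd {ι : Type*} [Fintype ι] [DecidableEq ι] (a : ι → ℂ)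
    (hodd : ∀ i, GaussOdd (a i)) (hunit : ∑ i, ‖a i‖ ^ 2 = 1)
    (hcard : (Finset.univ.filter fun i => a i ≠ 0).card ≤ 2 ∨
      ((∀ i, (a i).im = 0) ∧ (Finset.univ.filter fun i => a i ≠ 0).card ≤ 4)) :
    ∃ i₀, ∀ i, Cong (a i) (if i = i₀ then 1 else 0) := by
  classical
  choose n n' d hd hnd using hodd
  have hd0 : ∀ i, (d i : ℂ) ≠ 0 := fun i => by exact_mod_cast Odd.ne_zero_int (hd i)
  set D : ℤ := ∏ i, d i with hD
  have hDodd : Odd D := by
    rw [hD]
    exact Finset.prod_induction _ Odd (fun _ _ => Odd.mul) odd_one (fun i _ => hd i)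
  set m : ι → ℤ := fun i => n i * ∏ j ∈ Finset.univ.erase i, d j with hm
  set k : ι → ℤ := fun i => n' i * ∏ j ∈ Finset.univ.erase i, d j with hk
  have hmD : ∀ i, a i * (D : ℂ) = (m i : ℂ) + (k i : ℂ) * Complex.I := by
    intro i
    have h1 : D = d i * ∏ j ∈ Finset.univ.erase i, d j := by
      rw [hD, Finset.mul_prod_erase _ _ (Finset.mem_univ i)]
    rw [hnd i, h1, hm, hk]
    push_cast
    field_simp [hd0 i]
  have hD0 : (D : ℂ) ≠ 0 := by exact_mod_cast Odd.ne_zero_int hDodd
  have hsum : ∑ i, ((m i) ^ 2 + (k i) ^ 2) = D ^ 2 := by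
    have h1 : ∀ i, ‖a i‖ ^ 2 * (D : ℝ) ^ 2 = (m i : ℝ) ^ 2 + (k i : ℝ) ^ 2 := by
      intro i
      have h := congrArg (fun z : ℂ => ‖z‖ ^ 2) (hmD i)
      simp only [norm_mul, mul_pow, Complex.norm_intCast, sq_abs] at h
      rw [h, ← Complex.normSq_eq_norm_sq, Complex.normSq_apply]
      simp
      ring
    have h2 : ∑ i, ((m i : ℝ) ^ 2 + (k i : ℝ) ^ 2) = (D : ℝ) ^ 2 := by
      rw [← one_mul ((D : ℝ) ^ 2), ← hunit, Finset.sum_mul]
      exact Finset.sum_congr rfl fun i _ => (h1 i).symm
    exact_mod_cast h2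
  have hzero : ∀ i, a i = 0 → m i = 0 ∧ k i = 0 := by
    intro i h0
    have h := hmD i
    rw [h0, zero_mul] at h
    have hre := congrArg Complex.re h
    have him := congrArg Complex.im h
    simp at hre him
    exact ⟨by exact_mod_cast hre.symm, by exact_mod_cast him.symm⟩
  have hsub : (Finset.univ.filter fun i => Odd (m i + k i)).card ≤
      (Finset.univ.filter fun i => a i ≠ 0).card := by
    refine Finset.card_le_card ?_
    intro i hi
    simp only [Finset.mem_filter, Finset.mem_univ, true_and] at hi ⊢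
    intro h0
    rw [(hzero i h0).1, (hzero i h0).2] at hi
    simp at hi
  have hcard1 : (Finset.univ.filter fun i => Odd (m i + k i)).card = 1 := by
    rcases hcard with hc | ⟨hreal, hc⟩
    · -- reduce modulo 2
      have hsq : ∀ u v : ℤ, ((u ^ 2 + v ^ 2 : ℤ) : ZMod 2) = if Odd (u + v) then 1 else 0 := by
        intro u v
        have h1 : ((u ^ 2 + v ^ 2 : ℤ) : ZMod 2) = ((u + v : ℤ) : ZMod 2) := by
          push_cast
          generalize (u : ZMod 2) = u₁
          generalize (v : ZMod 2) = v₁
          revert u₁ v₁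
          decide
        rw [h1]
        by_cases h : Odd (u + v)
        · rw [if_pos h, odd_cast_zmod h]
        · rw [if_neg h, even_cast_zmod h]
      have hmod : (((Finset.univ.filter fun i => Odd (m i + k i)).card : ℕ) : ZMod 2) = 1 := by
        have h1 := congrArg (fun t : ℤ => (t : ZMod 2)) hsum
        simp only [Int.cast_sum] at h1
        have h2 : ((D ^ 2 : ℤ) : ZMod 2) = 1 := by
          push_cast; rw [odd_cast_zmod hDodd]; ring
        rw [h2] at h1
        rw [← h1]
        simp only [hsq]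
        rw [Finset.sum_ite]
        simp
      have hle := hsub.trans hc
      generalize (Finset.univ.filter fun i => Odd (m i + k i)).card = c at hmod hle
      interval_cases c
      · exact absurd hmod (by decide)
      · rfl
      · exact absurd hmod (by decide)
    · -- reduce modulo 4
      have hk0 : ∀ i, k i = 0 := by
        intro i
        have h := congrArg Complex.im (hmD i)
        simp [hreal i] at h
        exact_mod_cast h.symm
      have hsq : ∀ u : ℤ, ((u ^ 2 : ℤ) : ZMod 4) = if Odd u then 1 else 0 := by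
        intro u
        by_cases hu : Odd u
        · obtain ⟨t, rfl⟩ := hu
          simp only [odd_two_mul_add_one, if_true]
          push_cast
          have : ∀ r : ZMod 4, (2 * r + 1) ^ 2 = 1 := by decide
          exact this _
        · rw [if_neg hu]
          rw [Int.not_odd_iff_even] at hu
          obtain ⟨t, rfl⟩ := hu
          push_cast
          have : ∀ r : ZMod 4, (r + r) ^ 2 = 0 := by decide
          exact this _
      simp only [hk0, add_zero] at hsub ⊢
      simp only [hk0, ne_eq, OfNat.ofNat_ne_zero, not_false_eq_true, zero_pow, add_zero] at hsum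
      have hmod : (((Finset.univ.filter fun i => Odd (m i)).card : ℕ) : ZMod 4) = 1 := by
        have h1 := congrArg (fun t : ℤ => (t : ZMod 4)) hsum
        simp only [Int.cast_sum] at h1
        rw [hsq D, if_pos hDodd] at h1
        rw [← h1]
        simp only [hsq]
        rw [Finset.sum_ite]
        simp
      have hle := hsub.trans hc
      generalize (Finset.univ.filter fun i => Odd (m i)).card = c at hmod hle
      interval_cases c
      · exact absurd hmod (by decide)
      · rfl
      · exact absurd hmod (by decide)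
      · exact absurd hmod (by decide)
      · exact absurd hmod (by decide)
  rw [Finset.card_eq_one] at hcard1
  obtain ⟨i₀, hi₀⟩ := hcard1
  refine ⟨i₀, fun i => ⟨m i, k i, D, hDodd, hmD i, ?_⟩⟩
  by_cases h : i = i₀
  · rw [if_pos h]
    apply odd_cast_zmod
    have : i ∈ Finset.univ.filter fun i => Odd (m i + k i) := by rw [hi₀, h]; simp
    simpa using this
  · rw [if_neg h]
    have : i ∉ Finset.univ.filter fun i => Odd (m i + k i) := by rw [hi₀]; simpa using h
    have h2 : ¬ Odd (m i + k i) := by simpa using this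
    exact even_cast_zmod h2

end Pool.Agent.H543R2
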