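import Mathlib
import Pool.Agent.H543R2.QTMDefs
import Pool.Agent.H543R2.Cong

/-! The deterministic branch of odd amplitudes. -/

namespace Pool.Agent.H543R2

open scoped BigOperators

namespace QTM

variable (M : QTM)

/-- transition triples -/
abbrev Tr := M.Q × M.Γ × Dir

theorem stepVec_eq (c : M.Config) :
    M.stepVec c = ∑ t : M.Tr, Finsupp.single (c.move t.1 t.2.1 t.2.2)
      (M.δ c.state (c.tape c.pos) t.1 t.2.1 t.2.2) := by
  unfold stepVec
  rw [Fintype.sum_prod_type]
  refine Finset.sum_congr rfl fun p _ => ?_
  rw [Fintype.sum_prod_type]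

theorem move_injective (c : M.Config) :
    Function.Injective (fun t : M.Tr => c.move t.1 t.2.1 t.2.2) := by
  rintro ⟨p, τ, d⟩ ⟨p', τ', d'⟩ h
  have h1 := congrArg Config.state h
  have h2 := congrArg Config.pos h
  have h3 := congrArg Config.tape h
  simp only [Config.move] at h1 h2 h3
  have h4 := congrFun h3 c.pos
  simp only [Function.update_self] at h4
  have h5 : d = d' := by
    cases d <;> cases d' <;> simp [Dir.shift] at h2 ⊢
  rw [h1, h4, h5]

theorem stepVec_apply_move (c : M.Config) (t : M.Tr) :
    M.stepVec c (c.move t.1 t.2.1 t.2.2) = M.δ c.state (c.tape c.pos) t.1 t.2.1 t.2.2 := by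
  classical
  rw [stepVec_eq, Finsupp.finsetSum_apply]
  rw [Finset.sum_eq_single t]
  · simp
  · intro t' _ hne
    rw [Finsupp.single_apply, if_neg]
    intro h
    exact hne (M.move_injective c h)
  · intro h; exact absurd (Finset.mem_univ t) h

theorem normSq_eq_sum_of_subset (ψ : M.Config →₀ ℂ) (s : Finset M.Config) (h : ψ.support ⊆ s) :
    M.normSq ψ = ∑ c ∈ s, ‖ψ c‖ ^ 2 := by
  unfold normSq
  refine Finset.sum_subset h fun c _ hc => ?_
  rw [Finsupp.notMem_support_iff.mp hc]; simp

theorem stepVec_support_subset (c : M.Config) [DecidableEq M.Config] :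
    (M.stepVec c).support ⊆ Finset.univ.image (fun t : M.Tr => c.move t.1 t.2.1 t.2.2) := by
  rw [stepVec_eq]
  refine (Finsupp.support_finsetSum).trans ?_
  intro x hx
  rw [Finset.mem_biUnion] at hx
  obtain ⟨t, _, ht⟩ := hx
  have := Finsupp.support_single_subset ht
  rw [Finset.mem_singleton] at this
  rw [Finset.mem_image]
  exact ⟨t, Finset.mem_univ _, this.symm⟩

theorem normSq_stepVec (c : M.Config) :
    M.normSq (M.stepVec c) = ∑ t : M.Tr, ‖M.δ c.state (c.tape c.pos) t.1 t.2.1 t.2.2‖ ^ 2 := by
  classical
  rw [M.normSq_eq_sum_of_subset _ _ (M.stepVec_support_subset c)]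
  rw [Finset.sum_image (fun a _ b _ h => M.move_injective c h)]
  refine Finset.sum_congr rfl fun t _ => ?_
  rw [stepVec_apply_move]

variable {M}

/-- A configuration in a given state scanning a given symbol. -/
def cfgOf (M : QTM) (q : M.Q) (σ : M.Γ) : M.Config where
  state := q
  pos := 0
  tape := Function.update (fun _ => M.blank) 0 σ
  finite_nonblank := by
    refine (Set.finite_singleton (0 : ℤ)).subset ?_
    intro i hi
    by_contra h
    apply hi
    rw [Function.update_of_ne h]

theorem WellFormed.unit (h : M.WellFormed) (q : M.Q) (σ : M.Γ) :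
    ∑ t : M.Tr, ‖M.δ q σ t.1 t.2.1 t.2.2‖ ^ 2 = 1 := by
  have h1 := h (Finsupp.single (M.cfgOf q σ) 1)
  have h2 : M.evolve (Finsupp.single (M.cfgOf q σ) 1) = M.stepVec (M.cfgOf q σ) := by
    simp [evolve]
  rw [h2, normSq_stepVec] at h1
  have h3 : M.normSq (Finsupp.single (M.cfgOf q σ) 1) = 1 := by
    unfold normSq
    rw [Finsupp.support_single_ne_zero _ one_ne_zero]
    simp
  rw [h3] at h1
  have h4 : (M.cfgOf q σ).tape (M.cfgOf q σ).pos = σ := by simp [cfgOf]
  rw [h4] at h1
  exact h1

theorem exists_det (hw : M.WellFormed) (ho : M.OddAmplitudes) (q : M.Q) (σ : M.Γ) :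
    ∃ t₀ : M.Tr, ∀ t : M.Tr, Cong (M.δ q σ t.1 t.2.1 t.2.2) (if t = t₀ then 1 else 0) :=
  exists_unique_odd (fun t : M.Tr => M.δ q σ t.1 t.2.1 t.2.2)
    (fun _ => ho.1 _ _ _ _ _) (hw.unit q σ)
    ((ho.2 q σ).imp id fun h => ⟨fun _ => h.1 _ _ _, h.2⟩)

/-- The transition of odd amplitude. -/
noncomputable def det (hw : M.WellFormed) (ho : M.OddAmplitudes) (q : M.Q) (σ : M.Γ) : M.Tr :=
  (exists_det hw ho q σ).choose

theorem det_spec (hw : M.WellFormed) (ho : M.OddAmplitudes) (q : M.Q) (σ : M.Γ) (t : M.Tr) :
    Cong (M.δ q σ t.1 t.2.1 t.2.2) (if t = det hw ho q σ then 1 else 0) :=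
  (exists_det hw ho q σ).choose_spec t

/-- One step of a deterministic machine with transition function `D`. -/
def Config.next (D : M.Q → M.Γ → M.Tr) (c : M.Config) : M.Config :=
  c.move (D c.state (c.tape c.pos)).1 (D c.state (c.tape c.pos)).2.1
    (D c.state (c.tape c.pos)).2.2

open Classical in
theorem stepVec_cong (hw : M.WellFormed) (ho : M.OddAmplitudes) (c c' : M.Config) :
    Cong (M.stepVec c c') (if c' = c.next (det hw ho) then 1 else 0) := by
  by_cases hc : ∃ t : M.Tr, c' = c.move t.1 t.2.1 t.2.2
  · obtain ⟨t, rfl⟩ := hc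
    rw [stepVec_apply_move]
    have h := det_spec hw ho c.state (c.tape c.pos) t
    convert h using 2
    unfold Config.next
    exact ⟨fun h => M.move_injective c h, fun h => by rw [← h]⟩
  · have h0 : M.stepVec c c' = 0 := by
      by_contra h
      have := M.stepVec_support_subset c (Finsupp.mem_support_iff.mpr h)
      rw [Finset.mem_image] at this
      obtain ⟨t, _, ht⟩ := this
      exact hc ⟨t, ht.symm⟩
    rw [h0, if_neg]
    · exact cong_zero
    · intro h
      exact hc ⟨_, h⟩

open Classical in
theorem superposition_cong (hw : M.WellFormed) (ho : M.OddAmplitudes) (x : List Bool) (t : ℕ) :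
    ∀ c' : M.Config, Cong (M.superposition x t c')
      (if c' = (Config.next (det hw ho))^[t] (M.init x) then 1 else 0) := by
  induction t with
  | zero =>
    intro c'
    simp only [superposition, Function.iterate_zero, id_eq]
    rw [Finsupp.single_apply]
    by_cases h : c' = M.init x
    · rw [if_pos h, if_pos h.symm]; exact cong_one
    · rw [if_neg h, if_neg (fun e => h e.symm)]; exact cong_zero
  | succ t ih =>
    intro c'
    set ψ := M.superposition x t with hψ
    set ct := (Config.next (det hw ho))^[t] (M.init x) with hct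
    have h1 : M.superposition x (t + 1) c' = ∑ c ∈ ψ.support, ψ c * M.stepVec c c' := by
      simp only [superposition, Function.iterate_succ_apply']
      change (M.evolve ψ) c' = _
      simp only [evolve, Finsupp.linearCombination_apply, Finsupp.sum]
      rw [Finsupp.finsetSum_apply]
      refine Finset.sum_congr rfl fun c _ => ?_
      rw [Finsupp.smul_apply, smul_eq_mul]
    rw [h1, Function.iterate_succ_apply']
    have h2 : Cong (∑ c ∈ ψ.support, ψ c * M.stepVec c c')
        (∑ c ∈ ψ.support, (if c = ct then (1 : ZMod 2) else 0) *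
          (if c' = c.next (det hw ho) then 1 else 0)) :=
      Cong.sum _ _ _ fun c _ => (ih c).mul (stepVec_cong hw ho c c')
    have h3 : ct ∈ ψ.support := by
      rw [Finsupp.mem_support_iff]
      have := ih ct
      rw [if_pos rfl] at this
      exact this.ne_zero
    convert h2 using 1
    rw [Finset.sum_eq_single ct]
    · rw [if_pos rfl, one_mul]
    · intro c _ hne
      rw [if_neg hne, zero_mul]
    · intro h; exact absurd h3 h

open Classical in
theorem acceptProb_cong (hw : M.WellFormed) (ho : M.OddAmplitudes) (x : List Bool) (t : ℕ) :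
    Cong ((M.acceptProb x t : ℝ) : ℂ)
      (if M.accept ((Config.next (det hw ho))^[t] (M.init x)).state
        (((Config.next (det hw ho))^[t] (M.init x)).tape
          ((Config.next (det hw ho))^[t] (M.init x)).pos) = true then 1 else 0) := by
  set ct := (Config.next (det hw ho))^[t] (M.init x) with hct
  unfold acceptProb
  rw [Complex.ofReal_sum]
  have h1 := Cong.sum (M.superposition x t |>.support.filter
    fun c => M.accept c.state (c.tape c.pos) = true)
    (fun c => ((‖M.superposition x t c‖ ^ 2 : ℝ) : ℂ)) (fun c => if c = ct then 1 else 0)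
    (fun c _ => (superposition_cong hw ho x t c).normSq)
  convert h1 using 1
  by_cases ha : M.accept ct.state (ct.tape ct.pos) = true
  · rw [if_pos ha]
    rw [Finset.sum_eq_single ct]
    · rw [if_pos rfl]
    · intro c _ hne
      rw [if_neg hne]
    · intro h
      exfalso
      apply h
      rw [Finset.mem_filter]
      refine ⟨?_, ha⟩
      rw [Finsupp.mem_support_iff]
      have := superposition_cong hw ho x t ct
      rw [if_pos hct] at this
      exact this.ne_zero
  · rw [if_neg ha]
    symm
    apply Finset.sum_eq_zero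
    intro c hc
    rw [if_neg]
    rintro rfl
    rw [Finset.mem_filter] at hc
    exact ha hc.2

theorem mem_support (hw : M.WellFormed) (ho : M.OddAmplitudes) (x : List Bool) (t : ℕ) :
    (Config.next (det hw ho))^[t] (M.init x) ∈ (M.superposition x t).support := by
  classical
  rw [Finsupp.mem_support_iff]
  have := superposition_cong hw ho x t ((Config.next (det hw ho))^[t] (M.init x))
  rw [if_pos rfl] at this
  exact this.ne_zero

/-- The deterministic machine computes the same decision in the same time. -/
theorem det_decides (hw : M.WellFormed) (ho : M.OddAmplitudes) (x : List Bool) (T : ℕ)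
    (hT : M.HaltsAt x T) (b : Bool) (hb : M.acceptProb x T = if b = true then 1 else 0) :
    (∀ t < T, M.halting ((Config.next (det hw ho))^[t] (M.init x)).state = false) ∧
    M.halting ((Config.next (det hw ho))^[T] (M.init x)).state = true ∧
    M.accept ((Config.next (det hw ho))^[T] (M.init x)).state
      (((Config.next (det hw ho))^[T] (M.init x)).tape
        ((Config.next (det hw ho))^[T] (M.init x)).pos) = b := by
  refine ⟨fun t ht => hT.2 t ht _ (mem_support hw ho x t), hT.1 _ (mem_support hw ho x T), ?_⟩
  have h := acceptProb_cong hw ho x T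
  rw [hb] at h
  set a := M.accept ((Config.next (det hw ho))^[T] (M.init x)).state
      (((Config.next (det hw ho))^[T] (M.init x)).tape
        ((Config.next (det hw ho))^[T] (M.init x)).pos)
  have e01 : (0 : ZMod 2) ≠ 1 := by decide
  cases b
  · cases ha : a
    · rfl
    · exfalso
      rw [ha] at h
      simp only [if_true] at h
      have h0 : Cong ((((if (false = true) then (1:ℝ) else 0) : ℝ)) : ℂ) 0 := by
        simpa using cong_zero
      exact e01 (h0.unique h)
  · cases ha : a
    · exfalso
      rw [ha] at h
      have h1 : Cong ((((if (true = true) then (1:ℝ) else 0) : ℝ)) : ℂ) 1 := by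
        simpa using cong_one
      simp only [Bool.false_eq_true, if_false] at h
      exact e01 (h.unique h1)
    · rfl

end QTM

end Pool.Agent.H543R2
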