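import Mathlib
import Pool.Agent.H543R2.Cong

/-! Residues modulo `2^c` of Gaussian rationals with odd denominator. -/

namespace Pool.Agent.H543R2

open scoped BigOperators

/-- The ring of Gaussian integers modulo `2^c`. -/
abbrev GA (c : ℕ) := QuadraticAlgebra (ZMod (2 ^ c)) (-1) 0

instance (c : ℕ) : Finite (GA c) :=
  haveI : NeZero (2 ^ c) := ⟨by positivity⟩
  Finite.of_equiv _ (QuadraticAlgebra.equivProd (R := ZMod (2 ^ c)) (-1) 0).symm

/-- `a` is the residue modulo `2^c` of the Gaussian rational `z` with odd denominator. -/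
def CongA (c : ℕ) (z : ℂ) (a : GA c) : Prop :=
  ∃ u v d : ℤ, Odd d ∧ z * (d : ℂ) = (u : ℂ) + (v : ℂ) * Complex.I ∧
    a.re * (d : ZMod (2 ^ c)) = (u : ZMod (2 ^ c)) ∧ a.im * (d : ZMod (2 ^ c)) = (v : ZMod (2 ^ c))

theorem odd_unit (c : ℕ) {d : ℤ} (hd : Odd d) : ∃ e : ZMod (2 ^ c), e * (d : ZMod (2 ^ c)) = 1 := by
  have h : IsCoprime d (2 ^ c : ℤ) := by
    apply IsCoprime.pow_right
    rw [Int.isCoprime_iff_gcd_eq_one]
    obtain ⟨k, rfl⟩ := hd
    simp
  obtain ⟨u, v, huv⟩ := h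
  refine ⟨u, ?_⟩
  have := congrArg (fun t : ℤ => (t : ZMod (2 ^ c))) huv
  push_cast at this
  have h2 : ((2 : ZMod (2 ^ c)) ^ c) = 0 := by
    have := ZMod.natCast_self (2 ^ c)
    push_cast at this
    exact this
  rw [h2, mul_zero, add_zero] at this
  exact this

namespace CongA

variable {c : ℕ}

theorem exists_of_gaussOdd {z : ℂ} (h : GaussOdd z) : ∃ a : GA c, CongA c z a := by
  obtain ⟨u, v, d, hd, rfl⟩ := h
  obtain ⟨e, he⟩ := odd_unit c hd
  have hd0 : (d : ℂ) ≠ 0 := by exact_mod_cast Odd.ne_zero_int hd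
  refine ⟨⟨u * e, v * e⟩, u, v, d, hd, by field_simp, ?_, ?_⟩
  · show (u : ZMod (2 ^ c)) * e * d = u
    rw [mul_assoc, he, mul_one]
  · show (v : ZMod (2 ^ c)) * e * d = v
    rw [mul_assoc, he, mul_one]

theorem add {z w : ℂ} {a b : GA c} (hz : CongA c z a) (hw : CongA c w b) :
    CongA c (z + w) (a + b) := by
  obtain ⟨n, n', d, hd, h1, h2, h2'⟩ := hz
  obtain ⟨m, m', e, he, h3, h4, h4'⟩ := hw
  refine ⟨n * e + m * d, n' * e + m' * d, d * e, hd.mul he, ?_, ?_, ?_⟩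
  · push_cast
    have : (z + w) * (d * e) = (z * d) * e + (w * e) * d := by ring
    rw [this, h1, h3]; ring
  · rw [QuadraticAlgebra.re_add]
    push_cast
    rw [← h2, ← h4]; ring
  · rw [QuadraticAlgebra.im_add]
    push_cast
    rw [← h2', ← h4']; ring

theorem mul {z w : ℂ} {a b : GA c} (hz : CongA c z a) (hw : CongA c w b) :
    CongA c (z * w) (a * b) := by
  obtain ⟨n, n', d, hd, h1, h2, h2'⟩ := hz
  obtain ⟨m, m', e, he, h3, h4, h4'⟩ := hw
  refine ⟨n * m - n' * m', n * m' + n' * m, d * e, hd.mul he, ?_, ?_, ?_⟩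
  · push_cast
    have : (z * w) * (d * e) = (z * d) * (w * e) := by ring
    rw [this, h1, h3]
    linear_combination ((n' : ℂ) * m') * Complex.I_mul_I
  · rw [QuadraticAlgebra.re_mul]
    push_cast
    rw [← h2, ← h4, ← h2', ← h4']; ring
  · rw [QuadraticAlgebra.im_mul]
    push_cast
    rw [← h2, ← h4, ← h2', ← h4']; ring

theorem zero : CongA c 0 0 := ⟨0, 0, 1, odd_one, by simp, by simp, by simp⟩

theorem one : CongA c 1 1 :=
  ⟨1, 0, 1, odd_one, by simp, by
    show (1 : ZMod (2 ^ c)) * ((1 : ℤ) : ZMod (2 ^ c)) = ((1 : ℤ) : ZMod (2 ^ c)); simp, by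
    show (0 : ZMod (2 ^ c)) * ((1 : ℤ) : ZMod (2 ^ c)) = ((0 : ℤ) : ZMod (2 ^ c)); simp⟩

theorem sum {ι : Type*} (s : Finset ι) (f : ι → ℂ) (g : ι → GA c)
    (h : ∀ i ∈ s, CongA c (f i) (g i)) : CongA c (∑ i ∈ s, f i) (∑ i ∈ s, g i) := by
  classical
  induction s using Finset.induction_on with
  | empty => simpa using zero
  | insert a s ha ih =>
    rw [Finset.sum_insert ha, Finset.sum_insert ha]
    exact (h a (Finset.mem_insert_self _ _)).add
      (ih fun i hi => h i (Finset.mem_insert_of_mem hi))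

theorem unique {z : ℂ} {a b : GA c} (h : CongA c z a) (h' : CongA c z b) : a = b := by
  obtain ⟨n, n', d, hd, h1, h2, h2'⟩ := h
  obtain ⟨m, m', e, he, h3, h4, h4'⟩ := h'
  have hC : ((n : ℂ) + n' * Complex.I) * e = ((m : ℂ) + m' * Complex.I) * d := by
    rw [← h1, ← h3]; ring
  have hre := congrArg Complex.re hC
  have him := congrArg Complex.im hC
  simp at hre him
  have hZ : n * e = m * d := by exact_mod_cast hre
  have hZ' : n' * e = m' * d := by exact_mod_cast him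
  have e1 := congrArg (fun t : ℤ => (t : ZMod (2 ^ c))) hZ
  have e2 := congrArg (fun t : ℤ => (t : ZMod (2 ^ c))) hZ'
  simp only [Int.cast_mul] at e1 e2
  obtain ⟨r, hr⟩ := odd_unit c hd
  obtain ⟨s, hs⟩ := odd_unit c he
  rw [← h2, ← h4] at e1
  rw [← h2', ← h4'] at e2
  apply QuadraticAlgebra.ext
  · linear_combination (r * s) * e1 + (b.re * (e : ZMod (2 ^ c)) * s - a.re * (e : ZMod (2 ^ c)) * s) * hr
      + (b.re - a.re) * hs
  · linear_combination (r * s) * e2 + (b.im * (e : ZMod (2 ^ c)) * s - a.im * (e : ZMod (2 ^ c)) * s) * hr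
      + (b.im - a.im) * hs

/-- Complex conjugation modulo `2^c`. -/
def cj : GA c →+* GA c where
  toFun a := ⟨a.re, -a.im⟩
  map_one' := by
    apply QuadraticAlgebra.ext
    · rfl
    · show -(0 : ZMod (2 ^ c)) = 0; simp
  map_mul' a b := by
    apply QuadraticAlgebra.ext
    · simp only [QuadraticAlgebra.re_mul]; ring
    · simp only [QuadraticAlgebra.im_mul]; ring
  map_zero' := by
    apply QuadraticAlgebra.ext
    · rfl
    · show -(0 : ZMod (2 ^ c)) = 0; simp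
  map_add' a b := by
    apply QuadraticAlgebra.ext
    · simp only [QuadraticAlgebra.re_add]
    · simp only [QuadraticAlgebra.im_add]; ring

theorem conj {z : ℂ} {a : GA c} (h : CongA c z a) : CongA c ((starRingEnd ℂ) z) (cj a) := by
  obtain ⟨n, n', d, hd, h1, h2, h2'⟩ := h
  refine ⟨n, -n', d, hd, ?_, h2, ?_⟩
  · have := congrArg (starRingEnd ℂ) h1
    simpa using this
  · show -a.im * _ = _
    push_cast
    rw [← h2']; ring

theorem normSq {z : ℂ} {a : GA c} (h : CongA c z a) :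
    CongA c ((‖z‖ ^ 2 : ℝ) : ℂ) (a * cj a) := by
  have h1 : ((‖z‖ ^ 2 : ℝ) : ℂ) = z * (starRingEnd ℂ) z := by
    rw [Complex.mul_conj, Complex.normSq_eq_norm_sq]
  rw [h1]
  exact h.mul h.conj

/-- the ideal generated by `1 + i` -/
def J (c : ℕ) : Ideal (GA c) := Ideal.span {(⟨1, 1⟩ : GA c)}

theorem mem_J {z : ℂ} {a : GA c} (h : CongA c z a) (h0 : Cong z 0) : a ∈ J c := by
  obtain ⟨n, n', d, hd, h1, h2, h2'⟩ := h
  have hpar : ((n + n' : ℤ) : ZMod 2) = 0 := by
    have h3 : Cong z ((n + n' : ℤ) : ZMod 2) := ⟨n, n', d, hd, h1, rfl⟩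
    exact h3.unique h0
  rw [ZMod.intCast_zmod_eq_zero_iff_dvd] at hpar
  obtain ⟨p, hp⟩ := hpar
  obtain ⟨e, he⟩ := odd_unit c hd
  rw [J, Ideal.mem_span_singleton]
  refine ⟨⟨(p : ZMod (2 ^ c)) * e, ((p - n : ℤ) : ZMod (2 ^ c)) * e⟩, ?_⟩
  have hp' := congrArg (fun t : ℤ => (t : ZMod (2 ^ c))) hp
  push_cast at hp'
  apply QuadraticAlgebra.ext
  · rw [QuadraticAlgebra.re_mul]
    push_cast
    show a.re = 1 * (p * e) + -1 * 1 * ((p - n) * e)
    rw [← h2]
    linear_combination (-a.re) * he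
  · rw [QuadraticAlgebra.im_mul]
    push_cast
    show a.im = 1 * ((p - n) * e) + 1 * (p * e) + 0 * 1 * ((p - n) * e)
    rw [← h2, ← h2'] at hp'
    rw [← h2]
    linear_combination (-a.im) * he + e * hp'

theorem J_pow (c : ℕ) : J c ^ (2 * c) = ⊥ := by
  rw [J, Ideal.span_singleton_pow, Ideal.span_singleton_eq_bot]
  rw [pow_mul]
  have h1 : (⟨1, 1⟩ : GA c) ^ 2 = (2 : GA c) * ⟨0, 1⟩ := by
    rw [pow_two]
    apply QuadraticAlgebra.ext
    · rw [QuadraticAlgebra.re_mul, two_mul, QuadraticAlgebra.re_add]; ring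
    · rw [QuadraticAlgebra.im_mul, two_mul, QuadraticAlgebra.im_add]; ring
  rw [h1, mul_pow]
  have h2 : (2 : GA c) ^ c = 0 := by
    have h3 : ((2 ^ c : ℕ) : GA c) = 0 := by
      have h4 : ((2 ^ c : ℕ) : GA c) = algebraMap (ZMod (2 ^ c)) (GA c) ((2 ^ c : ℕ) : ZMod (2 ^ c)) := by
        rw [map_natCast]
      rw [h4, ZMod.natCast_self, map_zero]
    push_cast at h3
    exact h3
  rw [h2, zero_mul]

end CongA

end Pool.Agent.H543R2
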