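import Mathlib
import Pool.Agent.H543R2.QTMOdd
import Pool.Agent.H543R2.CongA

/-! Sparse representation of superpositions modulo `2^c`. -/

namespace Pool.Agent.H543R2

open scoped BigOperators

namespace Sp

variable (M : QTM)

/-- codes of configurations: state, position, tape -/
abbrev CC := M.Q × ℕ × List M.Γ

variable {M}

/-- the configuration with a given code; `P` is the offset -/
def dec (P : ℕ) (cc : CC M) : M.Config where
  state := cc.1
  pos := (cc.2.1 : ℤ) - P
  tape := fun i => if 0 ≤ i + P then (cc.2.2[(i + P).toNat]?).getD M.blank else M.blank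
  finite_nonblank := by
    refine (Set.finite_Ico (-(P : ℤ)) (cc.2.2.length - P)).subset ?_
    intro i hi
    simp only [Set.mem_ofPred_eq] at hi
    by_cases h0 : 0 ≤ i + P
    · simp only [h0, if_true] at hi
      refine ⟨by omega, ?_⟩
      by_contra hlt
      push Not at hlt
      have : cc.2.2.length ≤ (i + P).toNat := by omega
      rw [List.getElem?_eq_none this] at hi
      exact hi rfl
    · simp only [h0, if_false] at hi
      exact absurd rfl hi

theorem dec_injective {P : ℕ} {cc cc' : CC M} (hl : cc.2.2.length = cc'.2.2.length)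
    (h : dec P cc = dec P cc') : cc = cc' := by
  obtain ⟨q, k, l⟩ := cc
  obtain ⟨q', k', l'⟩ := cc'
  have h1 : q = q' := congrArg QTM.Config.state h
  have h2 : (k : ℤ) - P = (k' : ℤ) - P := congrArg QTM.Config.pos h
  have h2' : k = k' := by omega
  have h3 := congrArg QTM.Config.tape h
  dsimp only at hl
  have h4 : l = l' := by
    apply List.ext_getElem hl
    intro i hi hi'
    have h5 := congrFun h3 ((i : ℤ) - P)
    simp only [dec] at h5
    rw [if_pos (by omega), if_pos (by omega)] at h5
    have e : ((i : ℤ) - P + P).toNat = i := by omega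
    rw [e, List.getElem?_eq_getElem hi, List.getElem?_eq_getElem hi'] at h5
    simpa using h5
  rw [h1, h2', h4]

/-- overwrite one cell -/
def setAt {α : Type} (l : List α) (k : ℕ) (τ : α) : List α :=
  l.zipIdx.map (fun p => if p.2 = k then τ else p.1)

theorem length_setAt {α : Type} (l : List α) (k : ℕ) (τ : α) :
    (setAt l k τ).length = l.length := by
  simp [setAt]

theorem getElem?_setAt {α : Type} (l : List α) (k : ℕ) (τ : α) (i : ℕ) :
    (setAt l k τ)[i]? = if i = k then (l[i]?).map (fun _ => τ) else l[i]? := by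
  unfold setAt
  rw [List.getElem?_map, List.getElem?_zipIdx, zero_add, Option.map_map]
  by_cases h : i = k
  · simp only [h, if_true, Function.comp_def]
  · simp only [h, if_false, Function.comp_def]
    cases l[i]? <;> rfl

/-- move the position -/
def shiftN (d : Dir) (k : ℕ) : ℕ :=
  if d = Dir.left then k - 1 else if d = Dir.right then k + 1 else k

/-- the scanned symbol -/
def readC (cc : CC M) : M.Γ := cc.2.2.getD cc.2.1 M.blank

/-- apply a transition -/
def mvC (cc : CC M) (t : M.Tr) : CC M :=
  (t.1, shiftN t.2.2 cc.2.1, setAt cc.2.2 cc.2.1 t.2.1)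

theorem dec_read (P : ℕ) (cc : CC M) : (dec P cc).tape (dec P cc).pos = readC cc := by
  simp only [dec, readC]
  rw [if_pos (by omega)]
  have e : ((cc.2.1 : ℤ) - P + P).toNat = cc.2.1 := by omega
  rw [e, List.getD_eq_getElem?_getD]

theorem dec_mv {P : ℕ} {cc : CC M} (t : M.Tr) (hk : cc.2.1 < cc.2.2.length) (h1 : 1 ≤ cc.2.1) :
    dec P (mvC cc t) = (dec P cc).move t.1 t.2.1 t.2.2 := by
  obtain ⟨q, k, l⟩ := cc
  obtain ⟨p, τ, d⟩ := t
  dsimp only at hk h1
  apply QTM.Config.ext
  · rfl
  · simp only [dec, mvC, QTM.Config.move, shiftN]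
    cases d <;> simp [Dir.shift] <;> omega
  · funext i
    simp only [dec, mvC, QTM.Config.move]
    by_cases hi : i = (k : ℤ) - P
    · subst hi
      rw [Function.update_self, if_pos (by omega), getElem?_setAt]
      have e : ((k : ℤ) - P + P).toNat = k := by omega
      rw [e, if_pos rfl, List.getElem?_eq_getElem hk]
      rfl
    · rw [Function.update_of_ne hi]
      by_cases h0 : 0 ≤ i + P
      · rw [if_pos h0, if_pos h0, getElem?_setAt, if_neg (by omega)]
      · rw [if_neg h0, if_neg h0]

/-! ### sparse vectors -/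

variable (M) in
/-- entries: code of a configuration, coefficient, number of even transitions used -/
abbrev Entry (c : ℕ) := CC M × GA c × ℕ

/-- all transitions -/
noncomputable def trs (M : QTM) : List M.Tr := (Finset.univ : Finset M.Tr).toList

/-- the successors of an entry -/
def stepE {c : ℕ} (D : M.Q → M.Γ → M.Tr) (al : M.Q → M.Γ → M.Tr → GA c) (T : List M.Tr)
    (e : Entry M c) : List (Entry M c) :=
  T.flatMap fun t =>
    if t = D e.1.1 (readC e.1) then
      [(mvC e.1 t, e.2.1 * al e.1.1 (readC e.1) t, e.2.2)]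
    else if e.2.2 + 1 < 2 * c then
      [(mvC e.1 t, e.2.1 * al e.1.1 (readC e.1) t, e.2.2 + 1)]
    else []

open Classical in
/-- the coefficient of a configuration -/
noncomputable def val {c : ℕ} (P : ℕ) (l : List (Entry M c)) (c' : M.Config) : GA c :=
  (l.map fun e => if dec P e.1 = c' then e.2.1 else 0).sum

theorem val_nil {c : ℕ} (P : ℕ) (c' : M.Config) : val (c := c) P [] c' = 0 := rfl

open Classical in
theorem val_cons {c : ℕ} (P : ℕ) (e : Entry M c) (l : List (Entry M c)) (c' : M.Config) :
    val P (e :: l) c' = (if dec P e.1 = c' then e.2.1 else 0) + val P l c' := by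
  simp [val]

theorem val_append {c : ℕ} (P : ℕ) (l l' : List (Entry M c)) (c' : M.Config) :
    val P (l ++ l') c' = val P l c' + val P l' c' := by
  simp [val]

theorem sum_val {c : ℕ} (P : ℕ) (S : Finset M.Config) (l : List (Entry M c))
    (hS : ∀ e ∈ l, dec P e.1 ∈ S) (g : M.Config → GA c) :
    ∑ c' ∈ S, val P l c' * g c' = (l.map fun e => e.2.1 * g (dec P e.1)).sum := by
  classical
  induction l with
  | nil => simp [val_nil]
  | cons e l ih =>
    rw [List.map_cons, List.sum_cons, ← ih fun e' he' => hS e' (List.mem_cons_of_mem _ he')]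
    simp only [val_cons, add_mul, Finset.sum_add_distrib]
    congr 1
    rw [Finset.sum_eq_single (dec P e.1)]
    · rw [if_pos rfl]
    · intro b _ hb
      rw [if_neg (fun h => hb h.symm), zero_mul]
    · intro h; exact absurd (hS e List.mem_cons_self) h

/-- residues of the transition amplitudes -/
def Good (c : ℕ) (al : M.Q → M.Γ → M.Tr → GA c) : Prop :=
  ∀ q σ (t : M.Tr), CongA c (M.δ q σ t.1 t.2.1 t.2.2) (al q σ t)

open Classical in
/-- one-step coefficients modulo `2^c` -/
noncomputable def stepA {c : ℕ} (al : M.Q → M.Γ → M.Tr → GA c) (c₁ c' : M.Config) : GA c :=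
  ∑ t : M.Tr, if c₁.move t.1 t.2.1 t.2.2 = c' then al c₁.state (c₁.tape c₁.pos) t else 0

theorem stepVec_congA {c : ℕ} {al : M.Q → M.Γ → M.Tr → GA c} (hal : Good c al)
    (c₁ c' : M.Config) : CongA c (M.stepVec c₁ c') (stepA al c₁ c') := by
  classical
  rw [QTM.stepVec_eq, Finsupp.finsetSum_apply]
  refine CongA.sum _ _ _ fun t _ => ?_
  rw [Finsupp.single_apply]
  by_cases h : c₁.move t.1 t.2.1 t.2.2 = c'
  · rw [if_pos h, if_pos h]; exact hal _ _ _
  · rw [if_neg h, if_neg h]; exact CongA.zero

variable (hw : M.WellFormed) (ho : M.OddAmplitudes)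

/-- the configuration on the odd branch -/
noncomputable def odd (hw : M.WellFormed) (ho : M.OddAmplitudes) (x : List Bool) (t : ℕ) :
    M.Config := (QTM.Config.next (QTM.det hw ho))^[t] (M.init x)

/-- the invariant of the simulation -/
structure Inv (hw : M.WellFormed) (ho : M.OddAmplitudes) (c P W : ℕ) (x : List Bool) (t : ℕ)
    (l : List (Entry M c)) : Prop where
  len : ∀ e ∈ l, e.1.2.2.length = W
  lo : ∀ e ∈ l, P ≤ e.1.2.1 + t
  hi : ∀ e ∈ l, e.1.2.1 ≤ P + t
  mem : ∀ e ∈ l, e.2.1 ∈ CongA.J c ^ e.2.2
  cong : ∀ c', CongA c (M.superposition x t c') (val P l c')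
  zero : ∀ e ∈ l, e.2.2 = 0 → dec P e.1 = odd hw ho x t
  ex : ∃ e ∈ l, e.2.2 = 0
  le : ∀ e ∈ l, e.2.2 ≤ 2 * c

theorem val_stepE {c P W : ℕ} {x : List Bool} {t : ℕ} {l : List (Entry M c)}
    {al : M.Q → M.Γ → M.Tr → GA c} (hal : Good c al)
    (h : Inv hw ho c P W x t l) (ht : t < P) (hW : 2 * P + 1 ≤ W) (e : Entry M c) (he : e ∈ l)
    (c' : M.Config) :
    val P (stepE (QTM.det hw ho) al (trs M) e) c' = e.2.1 * stepA al (dec P e.1) c' := by
  classical
  have hlen := h.len e he
  have hlo := h.lo e he
  have hhi := h.hi e he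
  have hmem := h.mem e he
  have key : ∀ T : List M.Tr, val P (stepE (QTM.det hw ho) al T e) c' =
      (T.map fun t => e.2.1 * (if (dec P e.1).move t.1 t.2.1 t.2.2 = c' then
        al e.1.1 (readC e.1) t else 0)).sum := by
    intro T
    induction T with
    | nil => simp [stepE, val_nil]
    | cons t T ih =>
      have e1 : stepE (QTM.det hw ho) al (t :: T) e =
          (if t = QTM.det hw ho e.1.1 (readC e.1) then
            [(mvC e.1 t, e.2.1 * al e.1.1 (readC e.1) t, e.2.2)]
          else if e.2.2 + 1 < 2 * c then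
            [(mvC e.1 t, e.2.1 * al e.1.1 (readC e.1) t, e.2.2 + 1)]
          else []) ++ stepE (QTM.det hw ho) al T e := by
        simp [stepE]
      rw [e1, val_append, ih, List.map_cons, List.sum_cons]
      congr 1
      have hmv : dec P (mvC e.1 t) = (dec P e.1).move t.1 t.2.1 t.2.2 :=
        dec_mv t (by omega) (by omega)
      have single : ∀ j : ℕ, val P [((mvC e.1 t, e.2.1 * al e.1.1 (readC e.1) t, j) : Entry M c)] c' =
          e.2.1 * (if (dec P e.1).move t.1 t.2.1 t.2.2 = c' then al e.1.1 (readC e.1) t else 0) := by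
        intro j
        rw [val_cons, val_nil, add_zero]
        dsimp only
        rw [hmv]
        split_ifs <;> simp
      by_cases h1 : t = QTM.det hw ho e.1.1 (readC e.1)
      · rw [if_pos h1]; exact single _
      · rw [if_neg h1]
        by_cases h2 : e.2.2 + 1 < 2 * c
        · rw [if_pos h2]; exact single _
        · rw [if_neg h2, val_nil]
          have h3 : e.2.1 * al e.1.1 (readC e.1) t = 0 := by
            have h4 : Cong (M.δ e.1.1 (readC e.1) t.1 t.2.1 t.2.2) 0 := by
              have := QTM.det_spec hw ho e.1.1 (readC e.1) t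
              rwa [if_neg h1] at this
            have h5 := (hal e.1.1 (readC e.1) t).mem_J h4
            have h6 : e.2.1 * al e.1.1 (readC e.1) t ∈ CongA.J c ^ (e.2.2 + 1) := by
              rw [pow_succ]; exact Ideal.mul_mem_mul hmem h5
            have h7 := Ideal.pow_le_pow_right (I := CongA.J c) (by omega : 2 * c ≤ e.2.2 + 1) h6
            rw [CongA.J_pow] at h7
            exact h7
          split_ifs
          · rw [h3]
          · simp
  rw [key, stepA, Finset.mul_sum]
  have hs : ∀ f : M.Tr → GA c, ((trs M).map f).sum = ∑ t : M.Tr, f t := by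
    intro f
    unfold trs
    exact Finset.sum_map_toList _ _
  rw [hs]
  refine Finset.sum_congr rfl fun t _ => ?_
  rw [dec_read]
  rfl

theorem val_flatMap {c : ℕ} (P : ℕ) (f : Entry M c → List (Entry M c)) (g : Entry M c → GA c)
    (c' : M.Config) (l : List (Entry M c)) (h : ∀ e ∈ l, val P (f e) c' = g e) :
    val P (l.flatMap f) c' = (l.map g).sum := by
  induction l with
  | nil => simp [val_nil]
  | cons e l ih =>
    rw [List.flatMap_cons, val_append, List.map_cons, List.sum_cons, h e List.mem_cons_self,
      ih fun e' he' => h e' (List.mem_cons_of_mem _ he')]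

theorem Inv.step {c P W : ℕ} {x : List Bool} {t : ℕ} {l : List (Entry M c)}
    {al : M.Q → M.Γ → M.Tr → GA c} (hal : Good c al)
    (h : Inv hw ho c P W x t l) (ht : t < P) (hW : 2 * P + 1 ≤ W) :
    Inv hw ho c P W x (t + 1) (l.flatMap (stepE (QTM.det hw ho) al (trs M))) := by
  classical
  have hmem : ∀ e' ∈ l.flatMap (stepE (QTM.det hw ho) al (trs M)), ∃ e ∈ l, ∃ tr : M.Tr,
      e'.1 = mvC e.1 tr ∧ e'.2.1 = e.2.1 * al e.1.1 (readC e.1) tr ∧
      ((tr = QTM.det hw ho e.1.1 (readC e.1) ∧ e'.2.2 = e.2.2) ∨
        (tr ≠ QTM.det hw ho e.1.1 (readC e.1) ∧ e'.2.2 = e.2.2 + 1 ∧ e.2.2 + 1 < 2 * c)) := by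
    intro e' he'
    rw [List.mem_flatMap] at he'
    obtain ⟨e, he, he'⟩ := he'
    simp only [stepE, List.mem_flatMap] at he'
    obtain ⟨tr, _, he'⟩ := he'
    refine ⟨e, he, tr, ?_⟩
    split_ifs at he' with h1 h2
    · rw [List.mem_singleton] at he'
      subst he'
      exact ⟨rfl, rfl, Or.inl ⟨h1, rfl⟩⟩
    · rw [List.mem_singleton] at he'
      subst he'
      exact ⟨rfl, rfl, Or.inr ⟨h1, rfl, h2⟩⟩
    · simp at he'
  refine ⟨?_, ?_, ?_, ?_, ?_, ?_, ?_, ?_⟩
  · intro e' he'
    obtain ⟨e, he, tr, h1, _⟩ := hmem e' he'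
    rw [h1]
    simp only [mvC, length_setAt]
    exact h.len e he
  · intro e' he'
    obtain ⟨e, he, tr, h1, _⟩ := hmem e' he'
    have := h.lo e he
    rw [h1]
    simp only [mvC, shiftN]
    split_ifs <;> omega
  · intro e' he'
    obtain ⟨e, he, tr, h1, _⟩ := hmem e' he'
    have := h.hi e he
    rw [h1]
    simp only [mvC, shiftN]
    split_ifs <;> omega
  · intro e' he'
    obtain ⟨e, he, tr, _, h2, h3⟩ := hmem e' he'
    rw [h2]
    rcases h3 with ⟨_, h3⟩ | ⟨h3', h3, _⟩
    · rw [h3]; exact Ideal.mul_mem_right _ _ (h.mem e he)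
    · rw [h3, pow_succ]
      refine Ideal.mul_mem_mul (h.mem e he) ?_
      refine (hal _ _ _).mem_J ?_
      have := QTM.det_spec hw ho e.1.1 (readC e.1) tr
      rwa [if_neg h3'] at this
  · intro c'
    rw [val_flatMap P _ (fun e => e.2.1 * stepA al (dec P e.1) c') c' l
      fun e he => val_stepE hw ho hal h ht hW e he c']
    set ψ := M.superposition x t with hψ
    let S : Finset M.Config := ψ.support ∪ (l.map fun e => dec P e.1).toFinset
    have hS : ∀ e ∈ l, dec P e.1 ∈ S := by
      intro e he
      refine Finset.mem_union_right _ ?_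
      rw [List.mem_toFinset, List.mem_map]
      exact ⟨e, he, rfl⟩
    rw [← sum_val P S l hS (fun c₁ => stepA al c₁ c')]
    have h1 : M.superposition x (t + 1) c' = ∑ c₁ ∈ S, ψ c₁ * M.stepVec c₁ c' := by
      have h2 : M.superposition x (t + 1) c' = ∑ c₁ ∈ ψ.support, ψ c₁ * M.stepVec c₁ c' := by
        simp only [QTM.superposition, Function.iterate_succ_apply']
        change (M.evolve ψ) c' = _
        simp only [QTM.evolve, Finsupp.linearCombination_apply, Finsupp.sum]
        rw [Finsupp.finsetSum_apply]
        refine Finset.sum_congr rfl fun c₁ _ => ?_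
        rw [Finsupp.smul_apply, smul_eq_mul]
      rw [h2]
      refine Finset.sum_subset Finset.subset_union_left fun c₁ _ hc => ?_
      rw [Finsupp.notMem_support_iff.mp hc, zero_mul]
    rw [h1]
    exact CongA.sum _ _ _ fun c₁ _ => (h.cong c₁).mul (stepVec_congA hal c₁ c')
  · intro e' he' h0
    obtain ⟨e, he, tr, h1, _, h3⟩ := hmem e' he'
    rcases h3 with ⟨htr, h3⟩ | ⟨_, h3, _⟩
    · have hz := h.zero e he (by omega)
      have hlen := h.len e he
      have hlo := h.lo e he
      have hhi := h.hi e he
      rw [h1, dec_mv tr (by omega) (by omega), hz]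
      simp only [odd, Function.iterate_succ_apply']
      unfold QTM.Config.next
      have e2 : readC e.1 = ((QTM.Config.next (QTM.det hw ho))^[t] (M.init x)).tape
          ((QTM.Config.next (QTM.det hw ho))^[t] (M.init x)).pos := by
        rw [← dec_read P e.1, hz]; rfl
      have e3 : e.1.1 = ((QTM.Config.next (QTM.det hw ho))^[t] (M.init x)).state := by
        have : (dec P e.1).state = (odd hw ho x t).state := by rw [hz]
        exact this
      rw [htr, e2, e3]
      rfl
    · omega
  · obtain ⟨e, he, h0⟩ := h.ex
    refine ⟨(mvC e.1 (QTM.det hw ho e.1.1 (readC e.1)),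
      e.2.1 * al e.1.1 (readC e.1) (QTM.det hw ho e.1.1 (readC e.1)), e.2.2), ?_, h0⟩
    rw [List.mem_flatMap]
    refine ⟨e, he, ?_⟩
    simp only [stepE, List.mem_flatMap]
    refine ⟨QTM.det hw ho e.1.1 (readC e.1), ?_, ?_⟩
    · unfold trs; rw [Finset.mem_toList]; exact Finset.mem_univ _
    · rw [if_pos rfl]; exact List.mem_singleton.mpr rfl
  · intro e' he'
    obtain ⟨e, he, tr, _, _, h3⟩ := hmem e' he'
    have := h.le e he
    rcases h3 with ⟨_, h3⟩ | ⟨_, h3, h4⟩ <;> omega

/-! ### initial list -/

/-- the initial tape code -/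
def tape0 (M : QTM) (P : ℕ) (x : List Bool) : List M.Γ :=
  (List.range (2 * P + 1 + x.length)).map fun i =>
    if i < P then M.blank else ((x[i - P]?).map M.inp).getD M.blank

theorem dec_init (P : ℕ) (x : List Bool) : dec P (M.start, P, tape0 M P x) = M.init x := by
  apply QTM.Config.ext
  · rfl
  · simp [dec, QTM.init]
  · funext i
    simp only [dec, QTM.init, tape0]
    by_cases h0 : 0 ≤ i + P
    · rw [if_pos h0, List.getElem?_map]
      by_cases hlt : (i + P).toNat < 2 * P + 1 + x.length
      · rw [List.getElem?_range hlt]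
        simp only [Option.map_some, Option.getD_some]
        by_cases hi : 0 ≤ i
        · rw [if_neg (by omega), if_pos hi]
          have : (i + P).toNat - P = i.toNat := by omega
          rw [this]
        · rw [if_pos (by omega), if_neg hi]
      · rw [List.getElem?_eq_none (by simp; omega)]
        simp only [Option.map_none, Option.getD_none]
        rw [if_pos (by omega), List.getElem?_eq_none (by omega)]
        rfl
    · rw [if_neg h0, if_neg (by omega)]

theorem Inv.init (c P : ℕ) (x : List Bool) :
    Inv hw ho c P (2 * P + 1 + x.length) x 0 [((M.start, P, tape0 M P x), 1, 0)] := by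
  classical
  refine ⟨?_, ?_, ?_, ?_, ?_, ?_, ?_, ?_⟩
  · intro e he
    rw [List.mem_singleton] at he
    subst he
    simp [tape0]
  · intro e he
    rw [List.mem_singleton] at he
    subst he
    simp
  · intro e he
    rw [List.mem_singleton] at he
    subst he
    simp
  · intro e he
    rw [List.mem_singleton] at he
    subst he
    simp
  · intro c'
    rw [val_cons, val_nil, add_zero]
    dsimp only
    rw [dec_init]
    simp only [QTM.superposition, Function.iterate_zero, id_eq]
    rw [Finsupp.single_apply]
    split_ifs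
    · exact CongA.one
    · exact CongA.zero
  · intro e he _
    rw [List.mem_singleton] at he
    subst he
    exact dec_init P x
  · exact ⟨_, List.mem_singleton.mpr rfl, rfl⟩
  · intro e he
    rw [List.mem_singleton] at he
    subst he
    simp

/-! ### acceptance -/

open Classical in
/-- the acceptance sum -/
noncomputable def accSum {c : ℕ} (l : List (Entry M c)) : GA c :=
  (l.flatMap fun e => l.map fun e' =>
    if e.1 = e'.1 ∧ M.accept e.1.1 (readC e.1) = true then e.2.1 * CongA.cj e'.2.1 else 0).sum

theorem accSum_congA {c P W : ℕ} {x : List Bool} {t : ℕ} {l : List (Entry M c)}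
    (h : Inv hw ho c P W x t l) : CongA c ((M.acceptProb x t : ℝ) : ℂ) (accSum l) := by
  classical
  set ψ := M.superposition x t with hψ
  let S : Finset M.Config := ψ.support ∪ (l.map fun e => dec P e.1).toFinset
  have hS : ∀ e ∈ l, dec P e.1 ∈ S := by
    intro e he
    refine Finset.mem_union_right _ ?_
    rw [List.mem_toFinset, List.mem_map]
    exact ⟨e, he, rfl⟩
  have h1 : ((M.acceptProb x t : ℝ) : ℂ) =
      ∑ c₁ ∈ S, if M.accept c₁.state (c₁.tape c₁.pos) = true then ((‖ψ c₁‖ ^ 2 : ℝ) : ℂ) else 0 := by
    unfold QTM.acceptProb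
    rw [Complex.ofReal_sum, Finset.sum_filter]
    refine Finset.sum_subset Finset.subset_union_left fun c₁ _ hc => ?_
    rw [Finsupp.notMem_support_iff.mp hc]
    simp
  have h2 : accSum l = ∑ c₁ ∈ S, val P l c₁ *
      (if M.accept c₁.state (c₁.tape c₁.pos) = true then CongA.cj (val P l c₁) else 0) := by
    rw [sum_val P S l hS]
    unfold accSum
    have h3 : ∀ (l₁ : List (Entry M c)) (f : Entry M c → List (GA c)) (g : Entry M c → GA c),
        (∀ e ∈ l₁, (f e).sum = g e) → (l₁.flatMap f).sum = (l₁.map g).sum := by
      intro l₁ f g hfg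
      induction l₁ with
      | nil => simp
      | cons e l₁ ih =>
        rw [List.flatMap_cons, List.sum_append, List.map_cons, List.sum_cons,
          hfg e List.mem_cons_self, ih fun e' he' => hfg e' (List.mem_cons_of_mem _ he')]
    apply h3
    intro e he
    have e1 : (dec P e.1).state = e.1.1 := rfl
    rw [dec_read, e1]
    by_cases ha : M.accept e.1.1 (readC e.1) = true
    · rw [if_pos ha]
      unfold val
      rw [map_list_sum, ← List.sum_map_mul_left, List.map_map]
      congr 1
      apply List.map_congr_left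
      intro e' he'
      simp only [Function.comp_apply]
      have hiff : (e.1 = e'.1) ↔ (dec P e'.1 = dec P e.1) := by
        constructor
        · intro h; rw [h]
        · intro h'
          exact (dec_injective (by rw [h.len e he, h.len e' he']) h').symm
      by_cases hee : e.1 = e'.1
      · rw [if_pos ⟨hee, ha⟩, if_pos (hiff.mp hee)]
      · rw [if_neg (fun h => hee h.1), if_neg (fun h => hee (hiff.mpr h))]
        simp
    · rw [if_neg ha, mul_zero]
      apply List.sum_eq_zero
      intro z hz
      rw [List.mem_map] at hz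
      obtain ⟨e', _, rfl⟩ := hz
      rw [if_neg (fun h => ha h.2)]
  rw [h1, h2]
  refine CongA.sum _ _ _ fun c₁ _ => ?_
  by_cases ha : M.accept c₁.state (c₁.tape c₁.pos) = true
  · rw [if_pos ha, if_pos ha]
    exact (h.cong c₁).normSq
  · rw [if_neg ha, if_neg ha, mul_zero]
    exact CongA.zero

/-! ### length bound -/

theorem length_iter {c : ℕ} (D : M.Q → M.Γ → M.Tr) (al : M.Q → M.Γ → M.Tr → GA c)
    (K : ℕ) (hK : (trs M).length ≤ K) (t : ℕ) : ∀ (r : ℕ) (e : Entry M c), 2 * c ≤ e.2.2 + 1 + r →
    ((fun l => l.flatMap (stepE D al (trs M)))^[t] [e]).length ≤ (1 + K * t) ^ r := by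
  classical
  have happ : ∀ (t : ℕ) (l l' : List (Entry M c)),
      (fun l => l.flatMap (stepE D al (trs M)))^[t] (l ++ l') =
      (fun l => l.flatMap (stepE D al (trs M)))^[t] l ++
        (fun l => l.flatMap (stepE D al (trs M)))^[t] l' := by
    intro t
    induction t with
    | zero => intro l l'; rfl
    | succ t ih =>
      intro l l'
      rw [Function.iterate_succ_apply, Function.iterate_succ_apply, Function.iterate_succ_apply,
        List.flatMap_append, ih]
  have hnil : ∀ t : ℕ, (fun l => l.flatMap (stepE D al (trs M)))^[t] ([] : List (Entry M c)) = [] := by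
    intro t
    induction t with
    | zero => rfl
    | succ t ih => rw [Function.iterate_succ_apply]; exact ih
  induction t with
  | zero => intro r e _; simp
  | succ t ih =>
    intro r e hr
    rw [Function.iterate_succ_apply]
    have e1 : [e].flatMap (stepE D al (trs M)) = stepE D al (trs M) e := by simp
    rw [e1]
    have hnodup : (trs M).Nodup := Finset.nodup_toList _
    -- bound for sublists of transitions
    have key : ∀ T : List M.Tr, T.Nodup →
        ((fun l => l.flatMap (stepE D al (trs M)))^[t] (stepE D al T e)).length ≤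
          (if D e.1.1 (readC e.1) ∈ T then (1 + K * t) ^ r else 0) +
            T.length * (if r = 0 then 0 else (1 + K * t) ^ (r - 1)) := by
      intro T hT
      induction T with
      | nil => simp [stepE, hnil]
      | cons tr T ihT =>
        rw [List.nodup_cons] at hT
        have ihT := ihT hT.2
        have e2 : stepE D al (tr :: T) e =
            (if tr = D e.1.1 (readC e.1) then
              [(mvC e.1 tr, e.2.1 * al e.1.1 (readC e.1) tr, e.2.2)]
            else if e.2.2 + 1 < 2 * c then
              [(mvC e.1 tr, e.2.1 * al e.1.1 (readC e.1) tr, e.2.2 + 1)]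
            else []) ++ stepE D al T e := by
          simp [stepE]
        rw [e2, happ, List.length_append, List.length_cons]
        by_cases h1 : tr = D e.1.1 (readC e.1)
        · rw [if_pos h1]
          have h2 := ih r (mvC e.1 tr, e.2.1 * al e.1.1 (readC e.1) tr, e.2.2) hr
          rw [if_neg (by rw [← h1]; exact hT.1)] at ihT
          rw [if_pos (by rw [← h1]; exact List.mem_cons_self)]
          have h3 : T.length * (if r = 0 then 0 else (1 + K * t) ^ (r - 1)) ≤
              (T.length + 1) * (if r = 0 then 0 else (1 + K * t) ^ (r - 1)) :=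
            Nat.mul_le_mul_right _ (by omega)
          omega
        · rw [if_neg h1]
          have hmem : (D e.1.1 (readC e.1) ∈ tr :: T) ↔ (D e.1.1 (readC e.1) ∈ T) := by
            rw [List.mem_cons]
            constructor
            · rintro (h | h)
              · exact absurd h.symm h1
              · exact h
            · exact Or.inr
          simp only [hmem]
          by_cases h2 : e.2.2 + 1 < 2 * c
          · rw [if_pos h2]
            have hr0 : r ≠ 0 := by omega
            have h3 := ih (r - 1) (mvC e.1 tr, e.2.1 * al e.1.1 (readC e.1) tr, e.2.2 + 1)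
              (by dsimp only; omega)
            rw [if_neg hr0] at ihT ⊢
            rw [add_mul, one_mul]
            omega
          · rw [if_neg h2, hnil, List.length_nil]
            have h3 : T.length * (if r = 0 then 0 else (1 + K * t) ^ (r - 1)) ≤
              (T.length + 1) * (if r = 0 then 0 else (1 + K * t) ^ (r - 1)) :=
              Nat.mul_le_mul_right _ (by omega)
            omega
    refine (key (trs M) hnodup).trans ?_
    rcases Nat.eq_zero_or_pos r with hr0 | hr0
    · subst hr0
      simp
      split_ifs <;> simp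
    · rw [if_neg (show ¬ r = 0 by omega)]
      obtain ⟨s, rfl⟩ : ∃ s, r = s + 1 := ⟨r - 1, by omega⟩
      have h4 : (if D e.1.1 (readC e.1) ∈ trs M then (1 + K * t) ^ (s + 1) else 0) ≤
          (1 + K * t) ^ (s + 1) := by split_ifs <;> simp
      have h5 : (trs M).length * (1 + K * t) ^ (s + 1 - 1) ≤ K * (1 + K * t) ^ s := by
        rw [Nat.add_sub_cancel]; exact Nat.mul_le_mul_right _ hK
      calc _ ≤ (1 + K * t) ^ (s + 1) + K * (1 + K * t) ^ s := Nat.add_le_add h4 h5
        _ = (1 + K * t) ^ s * (1 + K * (t + 1)) := by ring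
        _ ≤ (1 + K * (t + 1)) ^ s * (1 + K * (t + 1)) := by
            refine Nat.mul_le_mul_right _ (Nat.pow_le_pow_left ?_ s)
            have := Nat.mul_le_mul_left K (Nat.le_succ t)
            simpa using this
        _ = (1 + K * (t + 1)) ^ (s + 1) := by ring

end Sp

end Pool.Agent.H543R2
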