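import Mathlib
import Pool.Prelude.Def_H_3587d628
import Pool.Agent.H543R2.Sparse
import Pool.Agent.NPC.Num
import Pool.Agent.NPC.Dec

/-! The sparse simulation runs in polynomial time. -/

namespace Pool.Agent.NPC.H543

open scoped BigOperators
open Pool.Agent.H543R2
open Pool.Agent.H543R2.Sp

/-- encoding of a finite type -/
@[instance_reducible] noncomputable def finTEnc (α : Type) [Finite α] : TEnc α :=
  ⟨fun a => toT ((Finite.equivFin α a : Fin _) : ℕ), fun a b h => by
    have h1 := TEnc.inj h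
    exact (Finite.equivFin α).injective (Fin.ext h1)⟩

noncomputable instance (M : QTM) : TEnc M.Q := finTEnc M.Q
noncomputable instance (M : QTM) : TEnc M.Γ := finTEnc M.Γ
noncomputable instance : TEnc Dir := finTEnc Dir
noncomputable instance (c : ℕ) : TEnc (GA c) := finTEnc (GA c)

/-- every function on a finite type is polynomial-time -/
theorem poly_fin {α β : Type} [Finite α] [TEnc α] [TEnc β] (f : α → β) : Poly f := by
  classical
  by_cases hβ : Nonempty β
  · obtain ⟨b⟩ := hβ
    haveI := Fintype.ofFinite α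
    have key : ∀ l : List α, Poly (fun a : α => l.foldr (fun a₁ acc => if a = a₁ then f a₁ else acc) b) := by
      intro l
      induction l with
      | nil => exact Poly.const b
      | cons a₁ l ih =>
        simp only [List.foldr_cons]
        exact Poly.ite (Poly.decide_eq Poly.id (Poly.const a₁)) (Poly.const _) ih
    refine (key (Finset.univ : Finset α).toList).congr fun a => ?_
    have h2 : ∀ l : List α, a ∈ l →
        l.foldr (fun a₁ acc => if a = a₁ then f a₁ else acc) b = f a := by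
      intro l
      induction l with
      | nil => intro h; simp at h
      | cons a₁ l ih =>
        intro h
        rw [List.foldr_cons]
        by_cases h1 : a = a₁
        · rw [if_pos h1, h1]
        · rw [if_neg h1]
          exact ih ((List.mem_cons.mp h).resolve_left h1)
    exact h2 _ (Finset.mem_toList.mpr (Finset.mem_univ a))
  · have hα : IsEmpty α := ⟨fun a => hβ ⟨f a⟩⟩
    exact ⟨Cmd.skip, 0, fun a => (hα.false a).elim⟩

/-- sizes of elements of a finite type are bounded -/
theorem sz_fin (α : Type) [Finite α] [TEnc α] : ∃ C : ℕ, ∀ a : α, sz a ≤ C := by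
  haveI := Fintype.ofFinite α
  refine ⟨Finset.univ.sup fun a : α => sz a, fun a => ?_⟩
  exact Finset.le_sup (f := fun a : α => sz a) (Finset.mem_univ a)

namespace Sp

variable {M : QTM} {c : ℕ}

section
variable {α : Type} [TEnc α]

theorem poly_setAt {Γ : Type} [TEnc Γ] {l : α → List Γ} {k : α → ℕ} {τ : α → Γ} (hl : Poly l)
    (hk : Poly k) (hτ : Poly τ) : Poly (fun a => setAt (l a) (k a) (τ a)) := by
  unfold setAt
  refine Poly.map (F := fun a (p : Γ × ℕ) => if p.2 = k a then τ a else p.1) (Poly.zipIdx hl) ?_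
  refine Poly.ite (Poly.decide_eq ?_ ?_) ?_ ?_
  · exact Poly.snd (Poly.snd Poly.id)
  · exact hk.comp (Poly.fst Poly.id)
  · exact hτ.comp (Poly.fst Poly.id)
  · exact Poly.fst (Poly.snd Poly.id)

theorem poly_shiftN {d : α → Dir} {k : α → ℕ} (hd : Poly d) (hk : Poly k) :
    Poly (fun a => shiftN (d a) (k a)) := by
  unfold shiftN
  refine Poly.ite (Poly.decide_eq hd (Poly.const _)) (Poly.sub hk (Poly.const 1)) ?_
  exact Poly.ite (Poly.decide_eq hd (Poly.const _)) (Poly.add hk (Poly.const 1)) hk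

theorem poly_read {f : α → CC M} (hf : Poly f) : Poly (fun a => readC (f a)) := by
  unfold readC
  exact Poly.getD (Poly.snd (Poly.snd hf)) (Poly.fst (Poly.snd hf)) (Poly.const _)

theorem poly_mvC {f : α → CC M} {t : α → M.Tr} (hf : Poly f) (ht : Poly t) :
    Poly (fun a => mvC (f a) (t a)) := by
  unfold mvC
  exact Poly.pair (Poly.fst ht) (Poly.pair
    (poly_shiftN (Poly.snd (Poly.snd ht)) (Poly.fst (Poly.snd hf)))
    (poly_setAt (Poly.snd (Poly.snd hf)) (Poly.fst (Poly.snd hf)) (Poly.fst (Poly.snd ht))))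

theorem poly_single {β : Type} [TEnc β] {f : α → β} (hf : Poly f) : Poly (fun a => [f a]) :=
  Poly.cons hf (Poly.const [])

end

theorem poly_stepE_gen {A : Type} [TEnc A] (D : M.Q × M.Γ → M.Tr) (hD : Poly D)
    (al : (M.Q × M.Γ) × M.Tr → A) (hal : Poly al) (mul : A × A → A) (hmul : Poly mul)
    (T : List M.Tr) (n : ℕ) :
    Poly (fun e : CC M × A × ℕ => T.flatMap fun t =>
      if t = D (e.1.1, readC e.1) then
        [(mvC e.1 t, mul (e.2.1, al ((e.1.1, readC e.1), t)), e.2.2)]
      else if e.2.2 + 1 < n then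
        [(mvC e.1 t, mul (e.2.1, al ((e.1.1, readC e.1), t)), e.2.2 + 1)]
      else []) := by
  have hcc : Poly (fun p : (CC M × A × ℕ) × M.Tr => p.1.1) := Poly.fst (Poly.fst Poly.id)
  have ht : Poly (fun p : (CC M × A × ℕ) × M.Tr => p.2) := Poly.snd Poly.id
  have hj : Poly (fun p : (CC M × A × ℕ) × M.Tr => p.1.2.2) :=
    Poly.snd (Poly.snd (Poly.fst Poly.id))
  have ha : Poly (fun p : (CC M × A × ℕ) × M.Tr => p.1.2.1) :=
    Poly.fst (Poly.snd (Poly.fst Poly.id))
  have hread : Poly (fun p : (CC M × A × ℕ) × M.Tr => readC p.1.1) := poly_read hcc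
  have hq : Poly (fun p : (CC M × A × ℕ) × M.Tr => p.1.1.1) := Poly.fst hcc
  have hcoef : Poly (fun p : (CC M × A × ℕ) × M.Tr =>
      mul (p.1.2.1, al ((p.1.1.1, readC p.1.1), p.2))) :=
    Poly.comp (g := mul) (f := fun p : (CC M × A × ℕ) × M.Tr =>
      (p.1.2.1, al ((p.1.1.1, readC (M := M) p.1.1), p.2))) hmul
      (Poly.pair ha (Poly.comp (g := al) (f := fun p : (CC M × A × ℕ) × M.Tr =>
        ((p.1.1.1, readC (M := M) p.1.1), p.2)) hal
        (Poly.pair (Poly.pair hq hread) ht)))
  have hmv : Poly (fun p : (CC M × A × ℕ) × M.Tr => mvC p.1.1 p.2) := poly_mvC hcc ht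
  have hdd : Poly (fun p : (CC M × A × ℕ) × M.Tr => D (p.1.1.1, readC p.1.1)) :=
    Poly.comp (g := D) (f := fun p : (CC M × A × ℕ) × M.Tr => (p.1.1.1, readC (M := M) p.1.1)) hD (Poly.pair hq hread)
  have hj1 : Poly (fun p : (CC M × A × ℕ) × M.Tr => p.1.2.2 + 1) := Poly.add hj (Poly.const 1)
  refine Poly.flatMap (F := fun (e : CC M × A × ℕ) (t : M.Tr) =>
    if t = D (e.1.1, readC e.1) then
        [(mvC e.1 t, mul (e.2.1, al ((e.1.1, readC e.1), t)), e.2.2)]
      else if e.2.2 + 1 < n then
        [(mvC e.1 t, mul (e.2.1, al ((e.1.1, readC e.1), t)), e.2.2 + 1)]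
      else []) (Poly.const T) ?_
  refine Poly.ite (Poly.decide_eq ht hdd) ?_ ?_
  · exact poly_single (Poly.pair hmv (Poly.pair hcoef hj))
  · refine Poly.ite (Poly.decide_lt hj1 (Poly.const n)) ?_ (Poly.const [])
    exact poly_single (Poly.pair hmv (Poly.pair hcoef hj1))

theorem poly_stepE (D : M.Q → M.Γ → M.Tr) (al : M.Q → M.Γ → M.Tr → GA c) (T : List M.Tr) :
    Poly (fun e : Entry M c => stepE D al T e) :=
  Poly.congr (poly_stepE_gen (M := M) (fun p => D p.1 p.2) (poly_fin _)
    (fun p => al p.1.1 p.1.2 p.2) (poly_fin _) (fun p : GA c × GA c => p.1 * p.2) (poly_fin _)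
    T (2 * c)) (fun _ => rfl)

/-- the frozen step: stop when the odd branch has halted -/
def stepF (D : M.Q → M.Γ → M.Tr) (al : M.Q → M.Γ → M.Tr → GA c) (T : List M.Tr)
    (l : List (Entry M c)) : List (Entry M c) :=
  bif l.any (fun e => decide (e.2.2 = 0) && M.halting e.1.1) then l else l.flatMap (stepE D al T)

theorem poly_stepF (D : M.Q → M.Γ → M.Tr) (al : M.Q → M.Γ → M.Tr → GA c) (T : List M.Tr) :
    Poly (fun l : List (Entry M c) => stepF D al T l) := by
  unfold stepF
  have hh : Poly (fun q : M.Q => M.halting q) := poly_fin _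
  refine Poly.cond ?_ Poly.id ?_
  · refine Poly.any (p := fun _ (e : Entry M c) => decide (e.2.2 = 0) && M.halting e.1.1) Poly.id ?_
    exact Poly.and (Poly.decide_eq (Poly.snd (Poly.snd (Poly.snd Poly.id))) (Poly.const 0))
      (hh.comp (Poly.fst (Poly.fst (Poly.snd Poly.id))))
  · exact Poly.flatMap (F := fun _ e => stepE D al T e) Poly.id
      ((poly_stepE D al T).comp (Poly.snd Poly.id))

open Classical in
theorem poly_acc_gen {A : Type} [TEnc A] [Finite A] (zero : A) (mul : A × A → A) (hmul : Poly mul)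
    (add : A × A → A) (hadd : Poly add) :
    Poly (fun l : List (CC M × A × ℕ) => (l.flatMap fun e => l.map fun e' =>
      if e.1 = e'.1 ∧ M.accept e.1.1 (readC e.1) = true then mul (e.2.1, e'.2.1)
      else zero).foldl (fun s a => add (s, a)) zero) := by
  have hacc : Poly (fun p : M.Q × M.Γ => M.accept p.1 p.2) := poly_fin _
  have hlist : Poly (fun l : List (CC M × A × ℕ) => l.flatMap fun e => l.map fun e' =>
      if e.1 = e'.1 ∧ M.accept e.1.1 (readC e.1) = true then mul (e.2.1, e'.2.1) else zero) := by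
    refine Poly.flatMap (F := fun (l : List (CC M × A × ℕ)) (e : CC M × A × ℕ) => l.map fun e' =>
      if e.1 = e'.1 ∧ M.accept e.1.1 (readC e.1) = true then mul (e.2.1, e'.2.1) else zero)
      Poly.id ?_
    refine Poly.map (F := fun (p : List (CC M × A × ℕ) × (CC M × A × ℕ)) (e' : CC M × A × ℕ) =>
      if p.2.1 = e'.1 ∧ M.accept p.2.1.1 (readC (M := M) p.2.1) = true then mul (p.2.2.1, e'.2.1) else zero)
      (Poly.fst Poly.id) ?_
    have he : Poly (fun p : (List (CC M × A × ℕ) × (CC M × A × ℕ)) × (CC M × A × ℕ) => p.1.2.1) :=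
      Poly.fst (Poly.snd (Poly.fst Poly.id))
    have he' : Poly (fun p : (List (CC M × A × ℕ) × (CC M × A × ℕ)) × (CC M × A × ℕ) => p.2.1) :=
      Poly.fst (Poly.snd Poly.id)
    have ha : Poly (fun p : (List (CC M × A × ℕ) × (CC M × A × ℕ)) × (CC M × A × ℕ) => p.1.2.2.1) :=
      Poly.fst (Poly.snd (Poly.snd (Poly.fst Poly.id)))
    have ha' : Poly (fun p : (List (CC M × A × ℕ) × (CC M × A × ℕ)) × (CC M × A × ℕ) => p.2.2.1) :=
      Poly.fst (Poly.snd (Poly.snd Poly.id))
    have h1 : Poly (fun p : (List (CC M × A × ℕ) × (CC M × A × ℕ)) × (CC M × A × ℕ) =>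
        M.accept p.1.2.1.1 (readC p.1.2.1)) :=
      Poly.comp (g := fun p : M.Q × M.Γ => M.accept p.1 p.2)
        (f := fun p : (List (CC M × A × ℕ) × (CC M × A × ℕ)) × (CC M × A × ℕ) =>
          (p.1.2.1.1, readC (M := M) p.1.2.1)) hacc (Poly.pair (Poly.fst he) (poly_read he))
    refine Poly.ite (Poly.decide_and (Poly.decide_eq he he') (Poly.decide_bool h1)) ?_
      (Poly.const zero)
    exact Poly.comp (g := mul) (f := fun p : (List (CC M × A × ℕ) × (CC M × A × ℕ)) × (CC M × A × ℕ) =>
      (p.1.2.2.1, p.2.2.1)) hmul (Poly.pair ha ha')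
  obtain ⟨C, hC⟩ := sz_fin A
  have hsum : Poly (fun l : List A => l.foldl (fun s a => add (s, a)) zero) := by
    refine Poly.foldl (F := fun _ s a => add (s, a)) Poly.id (Poly.const zero)
      (Poly.comp (g := add) (f := fun p : List A × A × A => (p.2.1, p.2.2)) hadd
        (Poly.pair (Poly.fst (Poly.snd Poly.id)) (Poly.snd (Poly.snd Poly.id))))
      (Polynomial.C C) ?_
    intro a k _
    rw [Polynomial.eval_C]
    exact hC _
  exact Poly.comp (g := fun l : List A => l.foldl (fun s a => add (s, a)) zero) hsum hlist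

open Classical in
theorem poly_accSum : Poly (fun l : List (Entry M c) => accSum l) := by
  refine Poly.congr (poly_acc_gen (M := M) (0 : GA c) (fun p => p.1 * CongA.cj p.2) (poly_fin _)
    (fun p => p.1 + p.2) (poly_fin _)) fun l => ?_
  unfold accSum
  exact List.sum_eq_foldl.symm

/-- iteration of the frozen step -/
theorem stepF_cases (D : M.Q → M.Γ → M.Tr) (al : M.Q → M.Γ → M.Tr → GA c) (T : List M.Tr)
    (l₀ : List (Entry M c)) (k : ℕ) : ∃ t ≤ k, (stepF D al T)^[k] l₀ =
      (fun l => l.flatMap (stepE D al T))^[t] l₀ := by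
  induction k with
  | zero => exact ⟨0, le_rfl, rfl⟩
  | succ k ih =>
    obtain ⟨t, ht, h⟩ := ih
    rw [Function.iterate_succ_apply', h]
    unfold stepF
    cases hb : ((fun l => l.flatMap (stepE D al T))^[t] l₀).any
        (fun e => decide (e.2.2 = 0) && M.halting e.1.1)
    · exact ⟨t + 1, by omega, by rw [Function.iterate_succ_apply']; rfl⟩
    · exact ⟨t, by omega, rfl⟩

end Sp

end Pool.Agent.NPC.H543
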