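import Mathlib
import Pool.Prelude.Def_H_3587d628
import Pool.Agent.H543R2.SparsePoly

/-! The sparse simulation: the final list, its meaning and its computation. -/

namespace Pool.Agent.H543R2

/-- two real numbers with the same residue differ by a multiple of `2^c` -/
theorem CongA.sub_real {c : ℕ} {s t : ℝ} {a : GA c} (h : CongA c (s : ℂ) a)
    (h' : CongA c (t : ℂ) a) : ∃ n d : ℤ, Odd d ∧ s - t = 2 ^ c * ((n : ℝ) / (d : ℝ)) := by
  obtain ⟨u, v, d, hd, h1, h2, _⟩ := h
  obtain ⟨u', v', e, he, h3, h4, _⟩ := h'
  have hs : s * d = u := by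
    have := congrArg Complex.re h1
    simpa using this
  have ht : t * e = u' := by
    have := congrArg Complex.re h3
    simpa using this
  have hdvd : ((2 ^ c : ℕ) : ℤ) ∣ u * e - u' * d := by
    rw [← ZMod.intCast_zmod_eq_zero_iff_dvd]
    push_cast
    rw [← h2, ← h4]
    ring
  obtain ⟨n, hn⟩ := hdvd
  refine ⟨n, d * e, hd.mul he, ?_⟩
  have hd0 : (d : ℝ) ≠ 0 := by exact_mod_cast Odd.ne_zero_int hd
  have he0 : (e : ℝ) ≠ 0 := by exact_mod_cast Odd.ne_zero_int he
  have hn' : (u : ℝ) * e - u' * d = 2 ^ c * n := by exact_mod_cast hn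
  push_cast
  field_simp
  rw [← hn', ← hs, ← ht]
  ring

end Pool.Agent.H543R2

namespace Pool.Agent.NPC.H543

open scoped BigOperators
open Pool.Agent.H543R2
open Pool.Agent.H543R2.Sp

namespace Sp

variable {M : QTM} {c : ℕ}

theorem eval_mono (p : Polynomial ℕ) {a b : ℕ} (h : a ≤ b) : p.eval a ≤ p.eval b := by
  simp only [Polynomial.eval_eq_sum, Polynomial.sum]
  exact Finset.sum_le_sum fun i _ => Nat.mul_le_mul_left _ (Nat.pow_le_pow_left h _)

/-- the initial list -/
def ini (M : QTM) (c P : ℕ) (x : List Bool) : List (Entry M c) :=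
  [((M.start, P, tape0 M P x), 1, 0)]

theorem poly_tape0 (p : Polynomial ℕ) :
    Poly (fun x : List Bool => tape0 M (p.eval x.length) x) := by
  have hlen : UPoly (fun x : List Bool => x.length) := UPoly.length Poly.id
  have hP : UPoly (fun x : List Bool => p.eval x.length) := UPoly.eval hlen p
  have hW : UPoly (fun x : List Bool => 2 * p.eval x.length + 1 + x.length) :=
    UPoly.add (UPoly.add (UPoly.mul (UPoly.const 2) hP) (UPoly.const 1)) hlen
  unfold tape0
  refine Poly.map (F := fun (x : List Bool) (i : ℕ) => if i < p.eval x.length then M.blank else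
    ((x[i - p.eval x.length]?).map M.inp).getD M.blank) hW.range ?_
  have hPP : Poly (fun q : List Bool × ℕ => p.eval q.1.length) :=
    Poly.comp (g := fun x : List Bool => p.eval x.length) (f := fun q : List Bool × ℕ => q.1)
      hP.toPoly (Poly.fst Poly.id)
  have hi : Poly (fun q : List Bool × ℕ => q.2) := Poly.snd Poly.id
  have hx : Poly (fun q : List Bool × ℕ => q.1) := Poly.fst Poly.id
  refine Poly.ite (Poly.decide_lt hi hPP) (Poly.const _) ?_
  have hin : Poly (fun b : Bool => M.inp b) := poly_fin _
  refine Poly.congr (Poly.optCases (o := fun q : List Bool × ℕ => q.1[q.2 - p.eval q.1.length]?)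
    (g := fun _ => M.blank) (h := fun _ b => M.inp b)
    (Poly.getElem? hx (Poly.sub hi hPP)) (Poly.const _)
    (Poly.comp (g := fun b : Bool => M.inp b) (f := fun q : (List Bool × ℕ) × Bool => q.2) hin
      (Poly.snd Poly.id))) ?_
  intro q
  cases q.1[q.2 - p.eval q.1.length]? <;> rfl

theorem poly_ini (c : ℕ) (p : Polynomial ℕ) :
    Poly (fun x : List Bool => ini M c (p.eval x.length) x) := by
  have hlen : UPoly (fun x : List Bool => x.length) := UPoly.length Poly.id
  have hP : UPoly (fun x : List Bool => p.eval x.length) := UPoly.eval hlen p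
  unfold ini
  refine poly_single ?_
  exact Poly.pair (Poly.pair (Poly.const _) (Poly.pair hP.toPoly (poly_tape0 p))) (Poly.const _)

/-- the invariant holds during the first `P` steps -/
theorem inv_iter (hw : M.WellFormed) (ho : M.OddAmplitudes) {al : M.Q → M.Γ → M.Tr → GA c}
    (hal : Good c al) (P : ℕ) (x : List Bool) (t : ℕ) (ht : t ≤ P) :
    Inv hw ho c P (2 * P + 1 + x.length) x t
      ((fun l => l.flatMap (stepE (QTM.det hw ho) al (trs M)))^[t] (ini M c P x)) := by
  induction t with
  | zero => exact Inv.init hw ho c P x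
  | succ t ih =>
    rw [Function.iterate_succ_apply']
    exact (ih (by omega)).step hw ho hal (by omega) (by omega)

/-- size of an entry -/
theorem sz_entry (M : QTM) (c : ℕ) : ∃ C : ℕ, ∀ (e : Entry M c) (W k : ℕ),
    e.1.2.2.length = W → e.1.2.1 ≤ k → e.2.2 ≤ 2 * c → sz e ≤ C + W * C + 4 * k := by
  obtain ⟨C₁, h₁⟩ := sz_fin M.Q
  obtain ⟨C₂, h₂⟩ := sz_fin M.Γ
  obtain ⟨C₃, h₃⟩ := sz_fin (GA c)
  refine ⟨C₁ + (C₂ + 1) + C₃ + 8 * c + 20, fun e W k hW hk hj => ?_⟩
  obtain ⟨⟨q, k', l⟩, z, j⟩ := e
  dsimp only at hW hk hj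
  simp only [sz_pair]
  have a1 := h₁ q
  have a2 : sz l ≤ l.length * (C₂ + 1) + 1 := sz_le_length_mul l C₂ fun a _ => h₂ a
  have a3 := h₃ z
  have a4 : sz k' ≤ 4 * k' + 1 := (sz_nat_le k').trans (by have := Poly.size_le_self k'; omega)
  have a5 : sz j ≤ 4 * j + 1 := (sz_nat_le j).trans (by have := Poly.size_le_self j; omega)
  rw [hW] at a2
  have a6 : W * (C₂ + 1) ≤ W * (C₁ + (C₂ + 1) + C₃ + 8 * c + 20) :=
    Nat.mul_le_mul_left _ (by omega)
  omega

/-- the final list -/
noncomputable def fin (hw : M.WellFormed) (ho : M.OddAmplitudes) (c : ℕ)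
    (al : M.Q → M.Γ → M.Tr → GA c) (P : ℕ) (x : List Bool) : List (Entry M c) :=
  (stepF (QTM.det hw ho) al (trs M))^[P] (ini M c P x)

theorem poly_finl (hw : M.WellFormed) (ho : M.OddAmplitudes) {al : M.Q → M.Γ → M.Tr → GA c}
    (hal : Good c al) (p : Polynomial ℕ) :
    Poly (fun x : List Bool => fin hw ho c al (p.eval x.length) x) := by
  have hlen : UPoly (fun x : List Bool => x.length) := UPoly.length Poly.id
  have hP : UPoly (fun x : List Bool => p.eval x.length) := UPoly.eval hlen p
  obtain ⟨C, hC⟩ := sz_entry M c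
  set K := (trs M).length with hK
  let q : Polynomial ℕ := (1 + Polynomial.C K * p) ^ (2 * c) *
    ((Polynomial.C C + (2 * p + 1 + Polynomial.X) * Polynomial.C C + 8 * p) + 1) + 1
  have hF : Poly (fun r : List Bool × List (Entry M c) =>
      stepF (QTM.det hw ho) al (trs M) r.2) :=
    Poly.comp (g := fun l : List (Entry M c) => stepF (QTM.det hw ho) al (trs M) l)
      (f := fun r : List Bool × List (Entry M c) => r.2) (poly_stepF _ _ _) (Poly.snd Poly.id)
  refine Poly.congr (Poly.iterLen (l := fun x : List Bool => List.replicate (p.eval x.length) ())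
    (s := fun x : List Bool => ini M c (p.eval x.length) x)
    (F := fun _ l => stepF (QTM.det hw ho) al (trs M) l) hP (poly_ini c p) hF q ?_) ?_
  · intro x k hk
    rw [List.length_replicate] at hk
    obtain ⟨t, ht, h⟩ := stepF_cases (QTM.det hw ho) al (trs M) (ini M c (p.eval x.length) x) k
    change sz ((stepF (QTM.det hw ho) al (trs M))^[k] (ini M c (p.eval x.length) x)) ≤ _
    rw [h]
    have hI := inv_iter hw ho hal (p.eval x.length) x t (by omega)
    set l := (fun l => l.flatMap (stepE (QTM.det hw ho) al (trs M)))^[t]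
      (ini M c (p.eval x.length) x) with hl
    have h1 : l.length ≤ (1 + K * t) ^ (2 * c) :=
      length_iter (QTM.det hw ho) al K le_rfl t (2 * c) _ (by dsimp only; omega)
    have h2 : l.length ≤ (1 + K * p.eval x.length) ^ (2 * c) :=
      h1.trans (Nat.pow_le_pow_left (Nat.add_le_add_left (Nat.mul_le_mul_left _ (by omega)) _) _)
    have h3 : ∀ e ∈ l, sz e ≤ C + (2 * p.eval x.length + 1 + x.length) * C +
        8 * p.eval x.length := by
      intro e he
      have := hC e _ (p.eval x.length + t) (hI.len e he) (hI.hi e he) (hI.le e he)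
      omega
    have h4 := sz_le_length_mul l _ h3
    have h5 : q.eval x.length = (1 + K * p.eval x.length) ^ (2 * c) *
        ((C + (2 * p.eval x.length + 1 + x.length) * C + 8 * p.eval x.length) + 1) + 1 := by
      simp [q]
    have h6 : sz l ≤ q.eval x.length := by
      rw [h5]
      exact h4.trans (Nat.add_le_add_right (Nat.mul_le_mul_right _ h2) _)
    exact h6.trans (eval_mono q (length_lt_sz x).le)
  · intro x
    rw [List.length_replicate]
    rfl

/-- the frozen iteration reaches the list at the halting time -/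
theorem fin_eq (hw : M.WellFormed) (ho : M.OddAmplitudes) {al : M.Q → M.Γ → M.Tr → GA c}
    (hal : Good c al) (P : ℕ) (x : List Bool) (T : ℕ) (hT : T ≤ P) (hh : M.HaltsAt x T) :
    fin hw ho c al P x =
      (fun l => l.flatMap (stepE (QTM.det hw ho) al (trs M)))^[T] (ini M c P x) := by
  have hst : ∀ e : Entry M c, (dec P e.1).state = e.1.1 := fun _ => rfl
  -- before the halting time
  have h1 : ∀ k ≤ T, (stepF (QTM.det hw ho) al (trs M))^[k] (ini M c P x) =
      (fun l => l.flatMap (stepE (QTM.det hw ho) al (trs M)))^[k] (ini M c P x) := by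
    intro k hk
    induction k with
    | zero => rfl
    | succ k ih =>
      rw [Function.iterate_succ_apply', Function.iterate_succ_apply', ih (by omega)]
      have hI := inv_iter hw ho hal P x k (by omega)
      unfold stepF
      rw [cond_eq_ite, if_neg]
      rw [List.any_eq_true]
      rintro ⟨e, he, h2⟩
      rw [Bool.and_eq_true, decide_eq_true_eq] at h2
      have h3 := hI.zero e he h2.1
      have h4 := hh.2 k (by omega) _ (QTM.mem_support hw ho x k)
      have h5 : (dec P e.1).state = (odd hw ho x k).state := by rw [h3]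
      rw [hst] at h5
      rw [h5] at h2
      have h6 : M.halting (odd hw ho x k).state = false := h4
      rw [h6] at h2
      exact Bool.false_ne_true h2.2
  -- after the halting time
  have h2 : ∀ k, (stepF (QTM.det hw ho) al (trs M))^[T + k] (ini M c P x) =
      (fun l => l.flatMap (stepE (QTM.det hw ho) al (trs M)))^[T] (ini M c P x) := by
    intro k
    induction k with
    | zero => exact h1 T le_rfl
    | succ k ih =>
      rw [← add_assoc, Function.iterate_succ_apply', ih]
      have hI := inv_iter hw ho hal P x T hT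
      obtain ⟨e, he, h0⟩ := hI.ex
      unfold stepF
      rw [cond_eq_ite, if_pos]
      rw [List.any_eq_true]
      refine ⟨e, he, ?_⟩
      rw [Bool.and_eq_true, decide_eq_true_eq]
      refine ⟨h0, ?_⟩
      have h3 := hI.zero e he h0
      have h4 := hh.1 _ (QTM.mem_support hw ho x T)
      have h5 : (dec P e.1).state = (odd hw ho x T).state := by rw [h3]
      rw [hst] at h5
      rw [h5]
      exact h4
  have h3 := h2 (P - T)
  have h4 : T + (P - T) = P := by omega
  rw [h4] at h3
  exact h3

theorem exists_good (ho : M.OddAmplitudes) (c : ℕ) :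
    ∃ al : M.Q → M.Γ → M.Tr → GA c, Good c al := by
  have h : ∀ q σ (t : M.Tr), ∃ a : GA c, CongA c (M.δ q σ t.1 t.2.1 t.2.2) a :=
    fun q σ t => CongA.exists_of_gaussOdd (ho.1 q σ t.1 t.2.1 t.2.2)
  choose al hal using h
  exact ⟨al, hal⟩

/-- a residue of the acceptance probability is computed in polynomial time -/
theorem exists_residue (hw : M.WellFormed) (ho : M.OddAmplitudes) (c : ℕ) (p : Polynomial ℕ) :
    ∃ r : List Bool → GA c, Poly r ∧ ∀ x T, T ≤ p.eval x.length → M.HaltsAt x T →
      CongA c ((M.acceptProb x T : ℝ) : ℂ) (r x) := by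
  obtain ⟨al, hal⟩ := exists_good ho c
  refine ⟨fun x => accSum (fin hw ho c al (p.eval x.length) x), ?_, ?_⟩
  · exact Poly.comp (g := fun l : List (Entry M c) => accSum l)
      (f := fun x : List Bool => fin hw ho c al (p.eval x.length) x) poly_accSum
      (poly_finl hw ho hal p)
  · intro x T hT hh
    beta_reduce
    rw [fin_eq hw ho hal _ x T hT hh]
    exact accSum_congA hw ho (inv_iter hw ho hal _ x T hT)

/-! ### from the polynomial-time library to the class `P` of the Prelude -/

/-- the Prelude encoding of a bit string -/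
def enc3 (x : List Bool) : List Bool := (x.map fun b => [true, b, false]).flatten

/-- decode the Prelude encoding of a bit string -/
def thin (y : List Bool) : List Bool :=
  (List.range (y.length / 3)).map fun i => y.getD (3 * i + 1) false

theorem poly_thin : Poly thin := by
  unfold thin
  have h1 : UPoly (fun y : List Bool => y.length / 3) :=
    UPoly.of_le (m := fun y : List Bool => y.length / 3) (n := fun y : List Bool => y.length)
      (Poly.div (Poly.length Poly.id) (Poly.const 3)) (UPoly.length Poly.id)
      (fun y => Nat.div_le_self _ _)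
  refine Poly.map (F := fun (y : List Bool) (i : ℕ) => y.getD (3 * i + 1) false) h1.range ?_
  exact Poly.getD (Poly.fst Poly.id)
    (Poly.add (Poly.mul (Poly.const 3) (Poly.snd Poly.id)) (Poly.const 1)) (Poly.const _)

theorem length_enc (x : List Bool) : (enc3 x).length = 3 * x.length := by
  induction x with
  | nil => rfl
  | cons b x ih =>
    have : enc3 (b :: x) = true :: b :: false :: enc3 x := by simp [enc3]
    rw [this]
    simp only [List.length_cons, ih]; ring

theorem getD_enc : ∀ (x : List Bool) (i : ℕ), (enc3 x).getD (3 * i + 1) false = x.getD i false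
  | [], i => by simp [enc3]
  | b :: x, 0 => by simp [enc3]
  | b :: x, i + 1 => by
    have h1 : enc3 (b :: x) = true :: b :: false :: enc3 x := by simp [enc3]
    have h2 : 3 * (i + 1) + 1 = (3 * i + 1) + 1 + 1 + 1 := by ring
    rw [h1, h2]
    simp only [List.getD_cons_succ]
    exact getD_enc x i

theorem thin_enc (x : List Bool) : thin (enc3 x) = x := by
  unfold thin
  rw [length_enc, Nat.mul_div_cancel_left _ (by norm_num : 0 < 3)]
  apply List.ext_getElem
  · simp
  · intro i h1 h2
    rw [List.getElem_map, List.getElem_range, getD_enc, List.getD_eq_getElem _ _ h2]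

open Turing in
/-- polynomial-time tests give languages in `P` -/
theorem mem_P_of_poly {L : List Bool → Bool} (hL : Poly L) : L ∈ N68a2faeb.P := by
  have henc : ∀ x : List Bool,
      (N487b59b3.toEncoding (α := List Bool)).encode x = enc3 x := by
    intro x
    change ((x.map N487b59b3.bitEncode).map N487b59b3.delimit).flatten = enc3 x
    unfold enc3
    rw [List.map_map]
    congr 1
  obtain ⟨m⟩ := polyTime_of_poly (g := fun y => L (thin y))
    (Poly.comp (g := L) (f := thin) hL poly_thin)
  refine ⟨{ toTM2ComputableAux := m.toTM2ComputableAux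
            time := m.time
            outputsFun := fun x => ?_ }⟩
  have h1 := m.outputsFun (enc3 x)
  have h2 : (N487b59b3.toEncoding (α := Bool)).encode (L x) = [L x] := rfl
  rw [henc, h2]
  have h3 : L (thin (enc3 x)) = L x := by rw [thin_enc]
  simp only [id_eq, h3] at h1
  exact h1

/-- Main statement: 2-adically separated acceptance probabilities. -/
theorem mem_P_of_separated (hw : M.WellFormed) (ho : M.OddAmplitudes) (L : List Bool → Bool)
    (p : Polynomial ℕ) (T : List Bool → ℕ) (hT : ∀ x, T x ≤ p.eval x.length)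
    (hh : ∀ x, M.HaltsAt x (T x)) (c : ℕ)
    (hsep : ∀ x y, L x = true → L y = false → ¬ ∃ a d : ℤ, Odd d ∧
      M.acceptProb x (T x) - M.acceptProb y (T y) = 2 ^ c * (a / d : ℝ)) :
    L ∈ N68a2faeb.P := by
  classical
  obtain ⟨r, hr, hcong⟩ := exists_residue hw ho c p
  set R : Set (GA c) := {a | ∃ x, L x = true ∧ r x = a} with hR
  have hL : Poly L := by
    refine Poly.congr (Poly.comp (g := fun a : GA c => decide (a ∈ R)) (f := r) (poly_fin _) hr) ?_
    intro x
    cases hx : L x
    · rw [decide_eq_false_iff_not]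
      rintro ⟨y, hy, hyx⟩
      refine hsep y x hy hx ?_
      have h1 := hcong y (T y) (hT y) (hh y)
      have h2 := hcong x (T x) (hT x) (hh x)
      rw [hyx] at h1
      exact h1.sub_real h2
    · rw [decide_eq_true_eq]
      exact ⟨x, hx, rfl⟩
  exact mem_P_of_poly hL

end Sp

end Pool.Agent.NPC.H543
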