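import Mathlib
import Pool.Prelude.Def_H_3587d628
import Pool.Agent.H543R2.QTMDefs
import Pool.Agent.H543R2.QTMOdd
import Pool.Agent.H543R2.SparseFin

/-!
Polynomial-time quantum Turing machines with (odd) rational amplitudes whose acceptance
probabilities on the two sides are 2-adically separated decide only languages in `P`.
-/

namespace Pool.Agent.H543R2

/-- `M` halts in polynomial time: for some polynomial `p`, on every input `x` it halts at some
time at most `p(|x|)`. -/
def QTM.HaltsInPolyTime (M : QTM) : Prop :=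
  ∃ p : Polynomial ℕ, ∀ x : List Bool, ∃ T : ℕ, T ≤ p.eval x.length ∧ M.HaltsAt x T

/-- The acceptance probabilities of `M` on inputs in `L` are 2-adically bounded away from those on
inputs outside `L`: for some `c`, none of the differences is `2 ^ c` times a fraction with odd
denominator. -/
def QTM.SeparatesTwoAdically (M : QTM) (L : List Bool → Bool) : Prop :=
  ∃ c : ℕ, ∀ (x y : List Bool) (S T : ℕ), L x = true → L y = false → M.HaltsAt x S →
    M.HaltsAt y T → ¬ ∃ a d : ℤ, Odd d ∧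
      M.acceptProb x S - M.acceptProb y T = 2 ^ c * ((a : ℝ) / (d : ℝ))

end Pool.Agent.H543R2

namespace Pool.Agent.H543R2.TwoAdic

open Pool.Agent.H543R2

/-- Let `M` be a well-formed quantum Turing machine that halts in polynomial time and whose
amplitudes are Gaussian rationals with odd denominators, branching at most two ways (or, with real
amplitudes, at most four ways). If its acceptance probabilities inside and outside `L` are
2-adically separated, then `L` belongs to `P`. -/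
theorem mainT (M : QTM) (hwf : M.WellFormed) (hamp : M.OddAmplitudes)
    (hhalt : M.HaltsInPolyTime) (L : List Bool → Bool) (hL : M.SeparatesTwoAdically L) :
    L ∈ N68a2faeb.P := by
  obtain ⟨p, hp⟩ := hhalt
  choose T hT hh using hp
  obtain ⟨c, hc⟩ := hL
  exact Pool.Agent.NPC.H543.Sp.mem_P_of_separated hwf hamp L p T hT hh c
    fun x y hx hy => hc x y (T x) (T y) hx hy (hh x) (hh y)

/-- The case of finitely many acceptance probabilities. -/
theorem finite_values (M : QTM) (hwf : M.WellFormed) (hamp : M.OddAmplitudes)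
    (hhalt : M.HaltsInPolyTime) (L : List Bool → Bool) (A B : Finset ℝ) (hAB : Disjoint A B)
    (hA : ∀ x T, M.HaltsAt x T → L x = true → M.acceptProb x T ∈ A)
    (hB : ∀ x T, M.HaltsAt x T → L x = false → M.acceptProb x T ∈ B) :
    L ∈ N68a2faeb.P := by
  refine mainT M hwf hamp hhalt L ?_
  have key : ∀ s : ℝ, s ≠ 0 → ∃ c : ℕ, ∀ c' ≥ c, ¬ ∃ a d : ℤ, Odd d ∧
      s = 2 ^ c' * ((a : ℝ) / (d : ℝ)) := by
    intro s hs
    by_contra hcon
    push Not at hcon
    obtain ⟨c₀, _, a₀, d₀, hd₀, h₀⟩ := hcon 0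
    have hd₀' : (d₀ : ℝ) ≠ 0 := by exact_mod_cast Odd.ne_zero_int hd₀
    -- the number `s * d₀` is an integer divisible by all powers of two
    obtain ⟨c, hc, a, d, hd, h⟩ := hcon (2 ^ c₀ * a₀).natAbs
    have hd' : (d : ℝ) ≠ 0 := by exact_mod_cast Odd.ne_zero_int hd
    have h1 : ((2 ^ c₀ * a₀ : ℤ) : ℝ) * d = 2 ^ c * (a * d₀) := by
      have h2 : (2 : ℝ) ^ c₀ * ((a₀ : ℝ) / d₀) = 2 ^ c * ((a : ℝ) / d) := by rw [← h₀, ← h]
      field_simp at h2
      push_cast
      linear_combination h2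
    have h2 : (2 ^ c₀ * a₀ : ℤ) * d = 2 ^ c * (a * d₀) := by exact_mod_cast h1
    have h3 : (2 ^ c : ℤ) ∣ (2 ^ c₀ * a₀) := by
      have h4 : IsCoprime (2 ^ c : ℤ) d := by
        apply IsCoprime.pow_left
        obtain ⟨k, rfl⟩ := hd
        exact ⟨-k, 1, by ring⟩
      exact h4.dvd_of_dvd_mul_right ⟨_, h2⟩
    have h5 : (2 ^ c₀ * a₀ : ℤ) ≠ 0 := by
      intro h6
      apply hs
      rw [h₀]
      have h7 : (2 : ℝ) ^ c₀ * (a₀ : ℝ) = 0 := by exact_mod_cast h6
      rw [← mul_div_assoc, h7, zero_div]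
    have h6 : 2 ^ c ≤ (2 ^ c₀ * a₀ : ℤ).natAbs := by
      have h7 := Int.natAbs_dvd_natAbs.mpr h3
      have h8 := Nat.le_of_dvd (Int.natAbs_pos.mpr h5) h7
      simpa [Int.natAbs_pow] using h8
    have h7 : c < 2 ^ c := Nat.lt_two_pow_self
    omega
  have key2 : ∀ s : ℝ × ℝ, ∃ c : ℕ, s ∈ A ×ˢ B → ∀ c' ≥ c, ¬ ∃ a d : ℤ, Odd d ∧
      s.1 - s.2 = 2 ^ c' * ((a : ℝ) / (d : ℝ)) := by
    intro s
    by_cases h : s ∈ A ×ˢ B
    · rw [Finset.mem_product] at h
      have hne : s.1 ≠ s.2 := fun he =>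
        Finset.disjoint_left.mp hAB h.1 (by rw [he]; exact h.2)
      obtain ⟨c, hc⟩ := key (s.1 - s.2) (sub_ne_zero.mpr hne)
      exact ⟨c, fun _ => hc⟩
    · exact ⟨0, fun h' => absurd h' h⟩
  choose f hf using key2
  refine ⟨(A ×ˢ B).sup f, fun x y S T hx hy hS hT => ?_⟩
  have hmem : (M.acceptProb x S, M.acceptProb y T) ∈ A ×ˢ B :=
    Finset.mk_mem_product (hA x S hS hx) (hB y T hT hy)
  exact hf _ hmem _ (Finset.le_sup hmem)

/-- The error-free case. -/
theorem exact_case (M : QTM) (hwf : M.WellFormed) (hamp : M.OddAmplitudes)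
    (L : List Bool → Bool) (hL : M.DecidesExactly L) : L ∈ N68a2faeb.P := by
  obtain ⟨p, hp⟩ := hL
  have hun : ∀ x S T, M.HaltsAt x S → M.HaltsAt x T → S = T := by
    intro x S T hS hT
    rcases lt_trichotomy S T with h | h | h
    · have h1 := hT.2 S h _ (QTM.mem_support hwf hamp x S)
      rw [hS.1 _ (QTM.mem_support hwf hamp x S)] at h1
      exact absurd h1 (by simp)
    · exact h
    · have h1 := hS.2 T h _ (QTM.mem_support hwf hamp x T)
      rw [hT.1 _ (QTM.mem_support hwf hamp x T)] at h1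
      exact absurd h1 (by simp)
  have hacc : ∀ x T, M.HaltsAt x T → M.acceptProb x T = if L x = true then 1 else 0 := by
    intro x T hT
    obtain ⟨S, _, hS, h⟩ := hp x
    rw [hun x T S hT hS]
    exact h
  refine finite_values M hwf hamp ⟨p, fun x => ?_⟩ L {1} {0} (by simp) ?_ ?_
  · obtain ⟨S, h, hS, _⟩ := hp x
    exact ⟨S, h, hS⟩
  · intro x T hT hx
    rw [hacc x T hT, if_pos hx]
    exact Finset.mem_singleton_self _
  · intro x T hT hx
    rw [hacc x T hT, if_neg (by simp [hx])]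
    exact Finset.mem_singleton_self _

/-- The hypothesis on the amplitudes holds for every well-formed machine with amplitudes in
`{0, ±3/5, ±4/5, ±1}`. -/
theorem oddAmplitudes_of_mem (M : QTM) (hwf : M.WellFormed)
    (h : ∀ q σ p τ d, M.δ q σ p τ d ∈ ({0, 3/5, -(3/5), 4/5, -(4/5), 1, -1} : Set ℂ)) :
    M.OddAmplitudes := by
  constructor
  · intro q σ p τ d
    have h5 : Odd (5 : ℤ) := by decide
    have h1 : Odd (1 : ℤ) := by decide
    rcases h q σ p τ d with h | h | h | h | h | h | h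
    · exact ⟨0, 0, 1, h1, by rw [h]; simp⟩
    · exact ⟨3, 0, 5, h5, by rw [h]; simp⟩
    · exact ⟨-3, 0, 5, h5, by rw [h]; simp; ring⟩
    · exact ⟨4, 0, 5, h5, by rw [h]; simp⟩
    · exact ⟨-4, 0, 5, h5, by rw [h]; simp; ring⟩
    · exact ⟨1, 0, 1, h1, by rw [h]; simp⟩
    · have h' : M.δ q σ p τ d = -1 := h
      exact ⟨-1, 0, 1, h1, by rw [h']; simp⟩
  · intro q σ
    left
    by_contra hlt
    push Not at hlt
    have hsum := hwf.unit q σ
    have hge : ∀ t ∈ Finset.univ.filter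
        (fun t : M.Q × M.Γ × Dir => M.δ q σ t.1 t.2.1 t.2.2 ≠ 0),
        (9 / 25 : ℝ) ≤ ‖M.δ q σ t.1 t.2.1 t.2.2‖ ^ 2 := by
      intro t ht
      rw [Finset.mem_filter] at ht
      rcases h q σ t.1 t.2.1 t.2.2 with h | h | h | h | h | h | h
      · exact absurd h ht.2
      · rw [h]; norm_num
      · rw [h]; norm_num
      · rw [h]; norm_num
      · rw [h]; norm_num
      · rw [h]; norm_num
      · have h' : M.δ q σ t.1 t.2.1 t.2.2 = -1 := h
        rw [h']; norm_num
    have h1 := Finset.card_nsmul_le_sum _ _ _ hge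
    have h2 : ∑ t ∈ Finset.univ.filter
        (fun t : M.Q × M.Γ × Dir => M.δ q σ t.1 t.2.1 t.2.2 ≠ 0),
        ‖M.δ q σ t.1 t.2.1 t.2.2‖ ^ 2 ≤ 1 := by
      rw [← hsum]
      exact Finset.sum_le_sum_of_subset_of_nonneg (Finset.filter_subset _ _)
        (fun _ _ _ => sq_nonneg _)
    rw [nsmul_eq_mul] at h1
    have h3 : (3 : ℝ) ≤ ((Finset.univ.filter
        (fun t : M.Q × M.Γ × Dir => M.δ q σ t.1 t.2.1 t.2.2 ≠ 0)).card : ℝ) := by
      exact_mod_cast hlt
    nlinarith

end Pool.Agent.H543R2.TwoAdic
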