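import Mathlib
import Pool.Agent.H543R2.QTMOdd

/-! Specialisation of the amplitudes of a quantum Turing machine. -/

namespace Pool.Agent.H543R2

open scoped BigOperators
open MvPolynomial

/-- products of polynomials `1 + X_j ^ 2` -/
noncomputable def Dn (ι : Type) : Submonoid (MvPolynomial ι ℤ) :=
  Submonoid.closure (Set.range fun j : ι => (1 + X j ^ 2 : MvPolynomial ι ℤ))

variable {ι : Type}

theorem Dn.eval_pos {D : MvPolynomial ι ℤ} (hD : D ∈ Dn ι) (n : ι → ℤ) : 0 < eval n D := by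
  induction hD using Submonoid.closure_induction with
  | mem x hx =>
    obtain ⟨j, rfl⟩ := hx
    simp only [map_add, map_one, map_pow, eval_X]
    positivity
  | one => simp
  | mul x y _ _ h1 h2 => rw [map_mul]; positivity

theorem Dn.aeval_pos {D : MvPolynomial ι ℤ} (hD : D ∈ Dn ι) (t : ι → ℝ) : 0 < aeval t D := by
  induction hD using Submonoid.closure_induction with
  | mem x hx =>
    obtain ⟨j, rfl⟩ := hx
    simp only [map_add, map_one, map_pow, aeval_X]
    positivity
  | one => simp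
  | mul x y _ _ h1 h2 => rw [map_mul]; positivity

theorem Dn.eval_odd {D : MvPolynomial ι ℤ} (hD : D ∈ Dn ι) (n : ι → ℤ) (hn : ∀ j, Even (n j)) :
    Odd (eval n D) := by
  induction hD using Submonoid.closure_induction with
  | mem x hx =>
    obtain ⟨j, rfl⟩ := hx
    simp only [map_add, map_one, map_pow, eval_X]
    exact odd_one.add_even ((hn j).pow_of_ne_zero two_ne_zero)
  | one => simp
  | mul x y _ _ h1 h2 => rw [map_mul]; exact h1.mul h2

/-- `z` is the value at `t` and `w` the value at `n` of one and the same fraction -/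
def Sp (t : ι → ℝ) (n : ι → ℤ) (z w : ℂ) : Prop :=
  ∃ F D : MvPolynomial ι ℤ, D ∈ Dn ι ∧ z * ((aeval t D : ℝ) : ℂ) = ((aeval t F : ℝ) : ℂ) ∧
    w * ((eval n D : ℤ) : ℂ) = ((eval n F : ℤ) : ℂ)

namespace Sp

variable {t : ι → ℝ} {n : ι → ℤ}

theorem zero : Sp t n 0 0 := ⟨0, 1, one_mem _, by simp, by simp⟩

theorem one : Sp t n 1 1 := ⟨1, 1, one_mem _, by simp, by simp⟩

theorem add {z w z' w' : ℂ} (h : Sp t n z w) (h' : Sp t n z' w') : Sp t n (z + z') (w + w') := by
  obtain ⟨F, D, hD, h1, h2⟩ := h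
  obtain ⟨F', D', hD', h1', h2'⟩ := h'
  refine ⟨F * D' + F' * D, D * D', mul_mem hD hD', ?_, ?_⟩
  · simp only [map_add, map_mul, Complex.ofReal_add, Complex.ofReal_mul]
    linear_combination ((aeval t D' : ℝ) : ℂ) * h1 + ((aeval t D : ℝ) : ℂ) * h1'
  · simp only [map_add, map_mul, Int.cast_add, Int.cast_mul]
    linear_combination ((eval n D' : ℤ) : ℂ) * h2 + ((eval n D : ℤ) : ℂ) * h2'

theorem mul {z w z' w' : ℂ} (h : Sp t n z w) (h' : Sp t n z' w') : Sp t n (z * z') (w * w') := by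
  obtain ⟨F, D, hD, h1, h2⟩ := h
  obtain ⟨F', D', hD', h1', h2'⟩ := h'
  refine ⟨F * F', D * D', mul_mem hD hD', ?_, ?_⟩
  · simp only [map_mul, Complex.ofReal_mul]
    linear_combination z' * ((aeval t D' : ℝ) : ℂ) * h1 + ((aeval t F : ℝ) : ℂ) * h1'
  · simp only [map_mul, Int.cast_mul]
    linear_combination w' * ((eval n D' : ℤ) : ℂ) * h2 + ((eval n F : ℤ) : ℂ) * h2'

theorem neg {z w : ℂ} (h : Sp t n z w) : Sp t n (-z) (-w) := by
  obtain ⟨F, D, hD, h1, h2⟩ := h
  refine ⟨-F, D, hD, ?_, ?_⟩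
  · simp only [map_neg, Complex.ofReal_neg]
    linear_combination -h1
  · simp only [map_neg, Int.cast_neg]
    linear_combination -h2

theorem sum {α : Type*} (s : Finset α) (f g : α → ℂ) (h : ∀ a ∈ s, Sp t n (f a) (g a)) :
    Sp t n (∑ a ∈ s, f a) (∑ a ∈ s, g a) := by
  classical
  induction s using Finset.induction_on with
  | empty => simpa using zero
  | insert a s ha ih =>
    rw [Finset.sum_insert ha, Finset.sum_insert ha]
    exact (h a (Finset.mem_insert_self _ _)).add (ih fun b hb => h b (Finset.mem_insert_of_mem hb))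

theorem aeval_ne {D : MvPolynomial ι ℤ} (hD : D ∈ Dn ι) (t : ι → ℝ) :
    ((aeval t D : ℝ) : ℂ) ≠ 0 := by
  exact_mod_cast (Dn.aeval_pos hD t).ne'

theorem eval_ne {D : MvPolynomial ι ℤ} (hD : D ∈ Dn ι) (n : ι → ℤ) :
    ((eval n D : ℤ) : ℂ) ≠ 0 := by
  exact_mod_cast (Dn.eval_pos hD n).ne'

theorem unique (ht : AlgebraicIndependent ℤ t) {z w w' : ℂ} (h : Sp t n z w)
    (h' : Sp t n z w') : w = w' := by
  obtain ⟨F, D, hD, h1, h2⟩ := h
  obtain ⟨F', D', hD', h1', h2'⟩ := h'
  have e1 : ((aeval t (F * D') : ℝ) : ℂ) = ((aeval t (F' * D) : ℝ) : ℂ) := by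
    simp only [map_mul, Complex.ofReal_mul]
    rw [← h1, ← h1']; ring
  have e2 : F * D' = F' * D := by
    apply ht
    exact_mod_cast e1
  have e3 : ((eval n (F * D') : ℤ) : ℂ) = ((eval n (F' * D) : ℤ) : ℂ) := by rw [e2]
  simp only [map_mul, Int.cast_mul] at e3
  rw [← h2, ← h2'] at e3
  have n1 := eval_ne hD n
  have n2 := eval_ne hD' n
  have e4 : (w - w') * (((eval n D : ℤ) : ℂ) * ((eval n D' : ℤ) : ℂ)) = 0 := by
    linear_combination e3
  rcases mul_eq_zero.mp e4 with h | h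
  · exact sub_eq_zero.mp h
  · exact absurd h (mul_ne_zero n1 n2)

theorem conj_left {z w : ℂ} (h : Sp t n z w) : (starRingEnd ℂ) z = z := by
  obtain ⟨F, D, hD, h1, h2⟩ := h
  have hz : z = (((aeval t F : ℝ) / (aeval t D : ℝ) : ℝ) : ℂ) := by
    rw [Complex.ofReal_div, ← h1, mul_div_assoc, div_self (aeval_ne hD t), mul_one]
  rw [hz, Complex.conj_ofReal]

theorem conj_right {z w : ℂ} (h : Sp t n z w) : (starRingEnd ℂ) w = w := by
  obtain ⟨F, D, hD, h1, h2⟩ := h
  have hz : w = ((((eval n F : ℤ) : ℝ) / ((eval n D : ℤ) : ℝ) : ℝ) : ℂ) := by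
    rw [Complex.ofReal_div]
    push_cast
    rw [← h2, mul_div_assoc, div_self (eval_ne hD n), mul_one]
  rw [hz, Complex.conj_ofReal]

theorem gaussOdd (hn : ∀ j, Even (n j)) {z w : ℂ} (h : Sp t n z w) : GaussOdd w := by
  obtain ⟨F, D, hD, h1, h2⟩ := h
  refine ⟨eval n F, 0, eval n D, Dn.eval_odd hD n hn, ?_⟩
  rw [← h2]
  simp only [Int.cast_zero, zero_mul, add_zero]
  rw [mul_div_assoc, div_self (eval_ne hD n), mul_one]

theorem normSq {z w : ℂ} (h : Sp t n z w) :
    Sp t n ((‖z‖ ^ 2 : ℝ) : ℂ) ((‖w‖ ^ 2 : ℝ) : ℂ) := by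
  have e : ∀ z : ℂ, (starRingEnd ℂ) z = z → ((‖z‖ ^ 2 : ℝ) : ℂ) = z * z := by
    intro z hz
    have := Complex.mul_conj z
    rw [hz] at this
    rw [this, Complex.normSq_eq_norm_sq]
  rw [e z h.conj_left, e w h.conj_right]
  exact h.mul h

theorem half_ne {θ : ℝ} (h : Real.tan (θ / 2) ≠ 0) : Real.cos (θ / 2) ≠ 0 := by
  intro h0
  apply h
  rw [Real.tan_eq_sin_div_cos, h0, div_zero]

theorem cos_mul (θ : ℝ) (h : Real.cos (θ / 2) ≠ 0) :
    Real.cos θ * (1 + Real.tan (θ / 2) ^ 2) = 1 - Real.tan (θ / 2) ^ 2 := by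
  have h1 : Real.cos θ = 2 * Real.cos (θ / 2) ^ 2 - 1 := by
    rw [← Real.cos_two_mul]; congr 1; ring
  rw [Real.tan_eq_sin_div_cos, h1]
  have h2 := Real.sin_sq_add_cos_sq (θ / 2)
  field_simp
  linear_combination (2 * Real.cos (θ / 2) ^ 2) * h2

theorem sin_mul (θ : ℝ) (h : Real.cos (θ / 2) ≠ 0) :
    Real.sin θ * (1 + Real.tan (θ / 2) ^ 2) = 2 * Real.tan (θ / 2) := by
  have h1 : Real.sin θ = 2 * Real.sin (θ / 2) * Real.cos (θ / 2) := by
    rw [← Real.sin_two_mul]; congr 1; ring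
  rw [Real.tan_eq_sin_div_cos, h1]
  have h2 := Real.sin_sq_add_cos_sq (θ / 2)
  field_simp
  linear_combination (Real.sin (θ / 2)) * h2

theorem cos {θ : ℝ} (j : ι) (ht : t j = Real.tan (θ / 2)) (h : Real.tan (θ / 2) ≠ 0) :
    Sp t n ((Real.cos θ : ℝ) : ℂ) ((1 - (n j : ℂ) ^ 2) / (1 + (n j : ℂ) ^ 2)) := by
  refine ⟨1 - X j ^ 2, 1 + X j ^ 2, Submonoid.subset_closure ⟨j, rfl⟩, ?_, ?_⟩
  · simp only [map_add, map_sub, map_one, map_pow, aeval_X, ht]
    exact_mod_cast cos_mul θ (half_ne h)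
  · have h0 := eval_ne (ι := ι) (Submonoid.subset_closure ⟨j, rfl⟩ : (1 + X j ^ 2) ∈ Dn ι) n
    simp only [map_add, map_sub, map_one, map_pow, eval_X, Int.cast_add, Int.cast_sub,
      Int.cast_one, Int.cast_pow] at h0 ⊢
    rw [div_mul_cancel₀ _ h0]

theorem sin {θ : ℝ} (j : ι) (ht : t j = Real.tan (θ / 2)) (h : Real.tan (θ / 2) ≠ 0) :
    Sp t n ((Real.sin θ : ℝ) : ℂ) ((2 * (n j : ℂ)) / (1 + (n j : ℂ) ^ 2)) := by
  refine ⟨2 * X j, 1 + X j ^ 2, Submonoid.subset_closure ⟨j, rfl⟩, ?_, ?_⟩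
  · simp only [map_add, map_mul, map_one, map_pow, aeval_X, ht, map_ofNat]
    exact_mod_cast sin_mul θ (half_ne h)
  · have h0 := eval_ne (ι := ι) (Submonoid.subset_closure ⟨j, rfl⟩ : (1 + X j ^ 2) ∈ Dn ι) n
    simp only [map_add, map_mul, map_one, map_pow, eval_X, Int.cast_add, Int.cast_mul,
      Int.cast_one, Int.cast_pow, map_ofNat, Int.cast_ofNat] at h0 ⊢
    rw [div_mul_cancel₀ _ h0]

end Sp

namespace QTM

variable {t : ι → ℝ} {n : ι → ℤ}

/-- change the transition amplitudes -/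
def withδ (M : QTM) (δ' : M.Q → M.Γ → M.Q → M.Γ → Dir → ℂ) : QTM := { M with δ := δ' }

variable {M : QTM} {δ' : M.Q → M.Γ → M.Q → M.Γ → Dir → ℂ}

/-- the same configuration for the machine with other amplitudes -/
def cf (c : M.Config) : (M.withδ δ').Config := ⟨c.state, c.pos, c.tape, c.finite_nonblank⟩

theorem cf_injective : Function.Injective (cf (M := M) (δ' := δ')) := by
  intro c c' h
  have h1 := congrArg Config.state h
  have h2 := congrArg Config.pos h
  have h3 := congrArg Config.tape h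
  exact Config.ext h1 h2 h3

theorem cf_surjective : Function.Surjective (cf (M := M) (δ' := δ')) := by
  intro c
  exact ⟨⟨c.state, c.pos, c.tape, c.finite_nonblank⟩, rfl⟩

open Classical in
theorem stepVec_apply (M : QTM) (c c' : M.Config) :
    M.stepVec c c' = ∑ s : M.Tr, if c.move s.1 s.2.1 s.2.2 = c' then
      M.δ c.state (c.tape c.pos) s.1 s.2.1 s.2.2 else 0 := by
  rw [stepVec_eq, Finsupp.finsetSum_apply]
  refine Finset.sum_congr rfl fun s _ => ?_
  rw [Finsupp.single_apply]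

theorem sp_stepVec (h : ∀ q σ p τ d, Sp t n (M.δ q σ p τ d) (δ' q σ p τ d)) (c c' : M.Config) :
    Sp t n (M.stepVec c c') ((M.withδ δ').stepVec (cf c) (cf c')) := by
  classical
  rw [stepVec_apply, stepVec_apply]
  refine Sp.sum (Finset.univ : Finset M.Tr) _ _ fun s _ => ?_
  by_cases hs : c.move s.1 s.2.1 s.2.2 = c'
  · rw [if_pos hs, if_pos]
    · exact h _ _ _ _ _
    · rw [← hs]; rfl
  · rw [if_neg hs, if_neg]
    · exact Sp.zero
    · intro h'
      exact hs (cf_injective (δ' := δ') h')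

theorem evolve_apply (M : QTM) (ψ : M.Config →₀ ℂ) (S : Finset M.Config) (hS : ψ.support ⊆ S)
    (c' : M.Config) : (M.evolve ψ) c' = ∑ c ∈ S, ψ c * M.stepVec c c' := by
  have h2 : (M.evolve ψ) c' = ∑ c₁ ∈ ψ.support, ψ c₁ * M.stepVec c₁ c' := by
    simp only [evolve, Finsupp.linearCombination_apply, Finsupp.sum]
    rw [Finsupp.finsetSum_apply]
    refine Finset.sum_congr rfl fun c₁ _ => ?_
    rw [Finsupp.smul_apply, smul_eq_mul]
  rw [h2]
  refine Finset.sum_subset hS fun c₁ _ hc => ?_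
  rw [Finsupp.notMem_support_iff.mp hc, zero_mul]

theorem sp_superposition (ht : AlgebraicIndependent ℤ t)
    (h : ∀ q σ p τ d, Sp t n (M.δ q σ p τ d) (δ' q σ p τ d)) (x : List Bool) (s : ℕ) :
    ∀ c : M.Config, Sp t n (M.superposition x s c) ((M.withδ δ').superposition x s (cf c)) := by
  classical
  induction s with
  | zero =>
    intro c
    simp only [superposition, Function.iterate_zero, id_eq]
    rw [Finsupp.single_apply, Finsupp.single_apply]
    by_cases hc : M.init x = c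
    · rw [if_pos hc, if_pos]
      · exact Sp.one
      · rw [← hc]; rfl
    · rw [if_neg hc, if_neg]
      · exact Sp.zero
      · intro h'
        exact hc (cf_injective (δ' := δ') h')
  | succ s ih =>
    intro c'
    have e1 : M.superposition x (s + 1) c' =
        ∑ c ∈ (M.superposition x s).support, M.superposition x s c * M.stepVec c c' := by
      simp only [superposition, Function.iterate_succ_apply']
      exact evolve_apply M _ _ (Finset.Subset.refl _) c'
    have hsub : ((M.withδ δ').superposition x s).support ⊆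
        (M.superposition x s).support.image cf := by
      intro c₁ hc₁
      obtain ⟨c, rfl⟩ := cf_surjective (δ' := δ') c₁
      rw [Finset.mem_image]
      refine ⟨c, ?_, rfl⟩
      rw [Finsupp.mem_support_iff] at hc₁ ⊢
      intro h0
      have := ih c
      rw [h0] at this
      exact hc₁ (this.unique ht Sp.zero)
    have e2 : (M.withδ δ').superposition x (s + 1) (cf c') =
        ∑ c ∈ (M.superposition x s).support,
          (M.withδ δ').superposition x s (cf c) * (M.withδ δ').stepVec (cf c) (cf c') := by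
      have : (M.withδ δ').superposition x (s + 1) (cf c') =
          ((M.withδ δ').evolve ((M.withδ δ').superposition x s)) (cf c') := by
        simp only [superposition, Function.iterate_succ_apply']
      rw [this, evolve_apply (M.withδ δ') _ _ hsub (cf c'),
        Finset.sum_image (fun a _ b _ hab => cf_injective (δ' := δ') hab)]
    rw [e1, e2]
    exact Sp.sum _ _ _ fun c _ => (ih c).mul (sp_stepVec h c c')

/-- the inner product -/
noncomputable def ip (M : QTM) (φ ψ : M.Config →₀ ℂ) (S : Finset M.Config) : ℂ :=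
  ∑ c ∈ S, (starRingEnd ℂ) (φ c) * ψ c

theorem normSq_eq_ip (M : QTM) (ψ : M.Config →₀ ℂ) (S : Finset M.Config) (hS : ψ.support ⊆ S) :
    ((M.normSq ψ : ℝ) : ℂ) = M.ip ψ ψ S := by
  rw [M.normSq_eq_sum_of_subset ψ S hS, Complex.ofReal_sum]
  refine Finset.sum_congr rfl fun c _ => ?_
  rw [mul_comm, Complex.mul_conj, Complex.normSq_eq_norm_sq]

theorem ip_evolve (M : QTM) (ψ : M.Config →₀ ℂ) (S U : Finset M.Config) (hS : ψ.support ⊆ S) :
    M.ip (M.evolve ψ) (M.evolve ψ) U = ∑ c₁ ∈ S, ∑ c₂ ∈ S,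
      (starRingEnd ℂ) (ψ c₁) * ψ c₂ * M.ip (M.stepVec c₁) (M.stepVec c₂) U := by
  unfold ip
  have e : ∀ c ∈ U, (starRingEnd ℂ) ((M.evolve ψ) c) * (M.evolve ψ) c =
      ∑ c₁ ∈ S, ∑ c₂ ∈ S, (starRingEnd ℂ) (ψ c₁) * ψ c₂ *
        ((starRingEnd ℂ) (M.stepVec c₁ c) * M.stepVec c₂ c) := by
    intro c _
    rw [evolve_apply M ψ S hS c, map_sum, Finset.sum_mul_sum]
    refine Finset.sum_congr rfl fun c₁ _ => Finset.sum_congr rfl fun c₂ _ => ?_
    rw [map_mul]; ring
  rw [Finset.sum_congr rfl e, Finset.sum_comm]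
  refine Finset.sum_congr rfl fun c₁ _ => ?_
  rw [Finset.sum_comm]
  refine Finset.sum_congr rfl fun c₂ _ => ?_
  rw [Finset.mul_sum]

/-- columns of a real well-formed machine are orthonormal -/
theorem WellFormed.gram (hw : M.WellFormed)
    (hreal : ∀ c c' : M.Config, (starRingEnd ℂ) (M.stepVec c c') = M.stepVec c c')
    (c₁ c₂ : M.Config) (U : Finset M.Config) (hU₁ : (M.stepVec c₁).support ⊆ U)
    (hU₂ : (M.stepVec c₂).support ⊆ U) [Decidable (c₁ = c₂)] :
    M.ip (M.stepVec c₁) (M.stepVec c₂) U = if c₁ = c₂ then 1 else 0 := by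
  classical
  have hone : ∀ c : M.Config, (M.stepVec c).support ⊆ U →
      M.ip (M.stepVec c) (M.stepVec c) U = 1 := by
    intro c hc
    have h1 := hw (Finsupp.single c 1)
    have h2 : M.evolve (Finsupp.single c 1) = M.stepVec c := by simp [evolve]
    rw [h2] at h1
    have h3 : M.normSq (Finsupp.single c 1) = 1 := by
      unfold QTM.normSq
      rw [Finsupp.support_single_ne_zero _ one_ne_zero]
      simp
    rw [h3] at h1
    rw [← normSq_eq_ip M (M.stepVec c) U hc, h1, Complex.ofReal_one]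
  by_cases h12 : c₁ = c₂
  · rw [if_pos h12, ← h12]
    exact hone c₁ hU₁
  · rw [if_neg h12]
    have hsym : M.ip (M.stepVec c₂) (M.stepVec c₁) U = M.ip (M.stepVec c₁) (M.stepVec c₂) U := by
      unfold ip
      refine Finset.sum_congr rfl fun c _ => ?_
      rw [hreal, hreal, mul_comm]
    set ψ : M.Config →₀ ℂ := Finsupp.single c₁ 1 + Finsupp.single c₂ 1 with hψ
    have v1 : ψ c₁ = 1 := by simp [hψ, h12]
    have v2 : ψ c₂ = 1 := by simp [hψ, h12]
    have hsupp : ψ.support ⊆ {c₁, c₂} := by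
      refine Finsupp.support_add.trans ?_
      intro c hc
      rw [Finset.mem_union] at hc
      rw [Finset.mem_insert, Finset.mem_singleton]
      rcases hc with hc | hc
      · exact Or.inl (Finset.mem_singleton.mp (Finsupp.support_single_subset hc))
      · exact Or.inr (Finset.mem_singleton.mp (Finsupp.support_single_subset hc))
    have hev : (M.evolve ψ).support ⊆ U := by
      have : M.evolve ψ = M.stepVec c₁ + M.stepVec c₂ := by simp [hψ, evolve]
      rw [this]
      exact Finsupp.support_add.trans (Finset.union_subset hU₁ hU₂)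
    have h1 := hw ψ
    have h2 : ((M.normSq (M.evolve ψ) : ℝ) : ℂ) = ((M.normSq ψ : ℝ) : ℂ) := by rw [h1]
    rw [normSq_eq_ip M _ U hev, ip_evolve M ψ _ U hsupp,
      normSq_eq_ip M ψ _ hsupp] at h2
    unfold ip at h2
    rw [Finset.sum_pair h12, Finset.sum_pair h12, Finset.sum_pair h12, Finset.sum_pair h12,
      v1, v2] at h2
    simp only [map_one, one_mul] at h2
    have e1 := hone c₁ hU₁
    have e2 := hone c₂ hU₂
    unfold ip at e1 e2 hsym ⊢
    rw [e1, e2, hsym] at h2
    linear_combination (1 / 2) * h2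

/-- conversely, orthonormal columns give a well-formed machine -/
theorem wellFormed_of_gram (M : QTM)
    (h : ∀ (c₁ c₂ : M.Config), ∃ U₀ : Finset M.Config, ∀ U, U₀ ⊆ U →
      (c₁ = c₂ → M.ip (M.stepVec c₁) (M.stepVec c₂) U = 1) ∧
      (c₁ ≠ c₂ → M.ip (M.stepVec c₁) (M.stepVec c₂) U = 0)) : M.WellFormed := by
  classical
  intro ψ
  choose U₀ hU₀ using h
  set S := ψ.support with hS
  let U : Finset M.Config := (M.evolve ψ).support ∪ S.biUnion fun c₁ => S.biUnion fun c₂ => U₀ c₁ c₂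
  have hsub : ∀ c₁ ∈ S, ∀ c₂ ∈ S, U₀ c₁ c₂ ⊆ U := by
    intro c₁ h₁ c₂ h₂ c hc
    refine Finset.mem_union_right _ ?_
    rw [Finset.mem_biUnion]
    refine ⟨c₁, h₁, ?_⟩
    rw [Finset.mem_biUnion]
    exact ⟨c₂, h₂, hc⟩
  have h1 : ((M.normSq (M.evolve ψ) : ℝ) : ℂ) = ((M.normSq ψ : ℝ) : ℂ) := by
    rw [normSq_eq_ip M _ U Finset.subset_union_left, ip_evolve M ψ S U (Finset.Subset.refl _),
      normSq_eq_ip M ψ S (Finset.Subset.refl _)]
    unfold ip
    refine Finset.sum_congr rfl fun c₁ h₁ => ?_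
    rw [Finset.sum_eq_single c₁]
    · have := (hU₀ c₁ c₁ U (hsub c₁ h₁ c₁ h₁)).1 rfl
      unfold ip at this
      rw [this, mul_one]
    · intro c₂ h₂ hne
      have := (hU₀ c₁ c₂ U (hsub c₁ h₁ c₂ h₂)).2 (Ne.symm hne)
      unfold ip at this
      rw [this, mul_zero]
    · intro h; exact absurd h₁ h
  exact_mod_cast h1

theorem sp_wellFormed (ht : AlgebraicIndependent ℤ t)
    (h : ∀ q σ p τ d, Sp t n (M.δ q σ p τ d) (δ' q σ p τ d)) (hw : M.WellFormed) :
    (M.withδ δ').WellFormed := by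
  classical
  apply wellFormed_of_gram
  intro c₁' c₂'
  obtain ⟨c₁, rfl⟩ := cf_surjective (δ' := δ') c₁'
  obtain ⟨c₂, rfl⟩ := cf_surjective (δ' := δ') c₂'
  refine ⟨((M.stepVec c₁).support ∪ (M.stepVec c₂).support).image cf, fun U hU => ?_⟩
  have hreal : ∀ c c' : M.Config, (starRingEnd ℂ) (M.stepVec c c') = M.stepVec c c' :=
    fun c c' => (sp_stepVec h c c').conj_left
  -- pull back `U`
  let V : Finset M.Config := U.preimage cf (cf_injective.injOn)
  have hUV : U = V.image cf := by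
    ext c'
    obtain ⟨c, rfl⟩ := cf_surjective (δ' := δ') c'
    simp only [V, Finset.mem_image, Finset.mem_preimage]
    constructor
    · intro hc; exact ⟨c, hc, rfl⟩
    · rintro ⟨c₀, hc₀, he⟩
      rwa [← cf_injective (δ' := δ') he]
  have hV : (M.stepVec c₁).support ∪ (M.stepVec c₂).support ⊆ V := by
    intro c hc
    simp only [V, Finset.mem_preimage]
    exact hU (Finset.mem_image_of_mem _ hc)
  have hrel : Sp t n (M.ip (M.stepVec c₁) (M.stepVec c₂) V)
      ((M.withδ δ').ip ((M.withδ δ').stepVec (cf c₁)) ((M.withδ δ').stepVec (cf c₂)) U) := by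
    rw [hUV]
    unfold ip
    rw [Finset.sum_image (fun a _ b _ hab => cf_injective (δ' := δ') hab)]
    refine Sp.sum _ _ _ fun c _ => ?_
    have r1 := sp_stepVec h c₁ c
    have r2 := sp_stepVec h c₂ c
    rw [r1.conj_left, r1.conj_right]
    exact r1.mul r2
  have hg := hw.gram hreal c₁ c₂ V (Finset.subset_union_left.trans hV)
    (Finset.subset_union_right.trans hV)
  constructor
  · intro he
    rw [hg, if_pos (cf_injective (δ' := δ') he)] at hrel
    exact hrel.unique ht Sp.one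
  · intro hne
    rw [hg, if_neg (fun he => hne (by rw [he]))] at hrel
    exact hrel.unique ht Sp.zero

theorem sp_haltsAt (ht : AlgebraicIndependent ℤ t)
    (h : ∀ q σ p τ d, Sp t n (M.δ q σ p τ d) (δ' q σ p τ d)) (x : List Bool) (T : ℕ)
    (hT : M.HaltsAt x T) : (M.withδ δ').HaltsAt x T := by
  have key : ∀ s (c : M.Config), cf c ∈ ((M.withδ δ').superposition x s).support →
      c ∈ (M.superposition x s).support := by
    intro s c hc
    rw [Finsupp.mem_support_iff] at hc ⊢
    intro h0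
    have := sp_superposition ht h x s c
    rw [h0] at this
    exact hc (this.unique ht Sp.zero)
  constructor
  · intro c' hc'
    obtain ⟨c, rfl⟩ := cf_surjective (δ' := δ') c'
    exact hT.1 c (key T c hc')
  · intro s hs c' hc'
    obtain ⟨c, rfl⟩ := cf_surjective (δ' := δ') c'
    exact hT.2 s hs c (key s c hc')

theorem sp_acceptProb (ht : AlgebraicIndependent ℤ t)
    (h : ∀ q σ p τ d, Sp t n (M.δ q σ p τ d) (δ' q σ p τ d)) (x : List Bool) (T : ℕ) :
    Sp t n ((M.acceptProb x T : ℝ) : ℂ) (((M.withδ δ').acceptProb x T : ℝ) : ℂ) := by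
  classical
  have hsub : ((M.withδ δ').superposition x T).support ⊆
      (M.superposition x T).support.image cf := by
    intro c₁ hc₁
    obtain ⟨c, rfl⟩ := cf_surjective (δ' := δ') c₁
    rw [Finset.mem_image]
    refine ⟨c, ?_, rfl⟩
    rw [Finsupp.mem_support_iff] at hc₁ ⊢
    intro h0
    have := sp_superposition ht h x T c
    rw [h0] at this
    exact hc₁ (this.unique ht Sp.zero)
  have e2 : (((M.withδ δ').acceptProb x T : ℝ) : ℂ) = ∑ c ∈ (M.superposition x T).support with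
      M.accept c.state (c.tape c.pos) = true,
      ((‖(M.withδ δ').superposition x T (cf c)‖ ^ 2 : ℝ) : ℂ) := by
    unfold acceptProb
    rw [Complex.ofReal_sum, Finset.sum_filter, Finset.sum_filter]
    rw [Finset.sum_subset hsub]
    · rw [Finset.sum_image (fun a _ b _ hab => cf_injective (δ' := δ') hab)]
      rfl
    · intro c₁ _ hc
      rw [Finsupp.notMem_support_iff.mp hc]
      simp
  rw [e2]
  unfold acceptProb
  rw [Complex.ofReal_sum]
  exact Sp.sum _ _ _ fun c _ => (sp_superposition ht h x T c).normSq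

end QTM

end Pool.Agent.H543R2
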