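import Mathlib
import Pool.Prelude.Def_H_3587d628
import Pool.Agent.H543R2.QTMDefs
import Pool.Agent.H543R2.QTMOdd
import Pool.Agent.H543R2.Spec
import Pool.Agent.H543R2.BQTwoAdic

/-!
Quantum Turing machines whose amplitudes are `0`, `±1` and the cosines and sines of generic angles
decide with finitely many acceptance probabilities (for instance without error) only languages
in `P`.
-/

namespace Pool.Agent.H543R2

open scoped BigOperators
open MvPolynomial

/-- Every transition amplitude of `M` is `0`, `1`, `-1`, or plus or minus the cosine or sine of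
one of the angles `θ j`. -/
def QTM.AmplitudesFromAngles (M : QTM) {ι : Type} (θ : ι → ℝ) : Prop :=
  ∀ q σ p τ d, M.δ q σ p τ d ∈ ({0, 1, -1} : Set ℂ) ∨
    ∃ j, M.δ q σ p τ d ∈ ({(Real.cos (θ j) : ℂ), -(Real.cos (θ j) : ℂ),
      (Real.sin (θ j) : ℂ), -(Real.sin (θ j) : ℂ)} : Set ℂ)

/-- `M` decides `L` with finitely many acceptance probabilities: there are disjoint finite sets
`A` and `B` of reals such that the probability that `M` accepts `x` (when it halts) belongs to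
`A` if `x` is in `L` and to `B` otherwise. -/
def QTM.DecidesWithFinitelyManyValues (M : QTM) (L : List Bool → Bool) : Prop :=
  ∃ A B : Finset ℝ, Disjoint A B ∧ ∀ (x : List Bool) (T : ℕ), M.HaltsAt x T →
    (L x = true → M.acceptProb x T ∈ A) ∧ (L x = false → M.acceptProb x T ∈ B)

namespace Spec

variable {ι : Type} {t : ι → ℝ}

theorem tan_ne {θ : ι → ℝ} (hθ : AlgebraicIndependent ℚ fun j => Real.tan (θ j / 2)) (j : ι) :
    Real.tan (θ j / 2) ≠ 0 := by
  intro h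
  have h1 : Transcendental ℚ (Real.tan (θ j / 2)) := hθ.transcendental j
  rw [h] at h1
  exact h1 isAlgebraic_zero

/-- all the amplitudes can be specialised, at every integral point -/
theorem exists_sp {M : QTM} {θ : ι → ℝ} (hθ : AlgebraicIndependent ℚ fun j => Real.tan (θ j / 2))
    (hamp : M.AmplitudesFromAngles θ) (n : ι → ℤ) (q σ p τ d) :
    ∃ w, Sp (fun j => Real.tan (θ j / 2)) n (M.δ q σ p τ d) w := by
  rcases hamp q σ p τ d with h | ⟨j, h⟩
  · rcases h with h | h | h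
    · rw [h]; exact ⟨0, Sp.zero⟩
    · rw [h]; exact ⟨1, Sp.one⟩
    · have h' : M.δ q σ p τ d = -1 := h
      rw [h']; exact ⟨_, Sp.one.neg⟩
  · rcases h with h | h | h | h
    · rw [h]; exact ⟨_, Sp.cos j rfl (tan_ne hθ j)⟩
    · rw [h]; exact ⟨_, (Sp.cos j rfl (tan_ne hθ j)).neg⟩
    · rw [h]; exact ⟨_, Sp.sin j rfl (tan_ne hθ j)⟩
    · have h' : M.δ q σ p τ d = -(Real.sin (θ j) : ℂ) := h
      rw [h']; exact ⟨_, (Sp.sin j rfl (tan_ne hθ j)).neg⟩

/-- a nonzero amplitude does not vanish at both `0` and `1` -/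
theorem amp_zero_one {M : QTM} {θ : ι → ℝ}
    (hθ : AlgebraicIndependent ℚ fun j => Real.tan (θ j / 2))
    (hamp : M.AmplitudesFromAngles θ) (q σ p τ d) (w₀ w₁ : ℂ) (hne : M.δ q σ p τ d ≠ 0)
    (h₀ : Sp (fun j => Real.tan (θ j / 2)) (fun _ => 0) (M.δ q σ p τ d) w₀)
    (h₁ : Sp (fun j => Real.tan (θ j / 2)) (fun _ => 1) (M.δ q σ p τ d) w₁) :
    1 ≤ ‖w₀‖ ^ 2 + ‖w₁‖ ^ 2 := by
  have hZ : AlgebraicIndependent ℤ fun j => Real.tan (θ j / 2) :=
    hθ.restrictScalars (RingHom.injective_int (algebraMap ℤ ℚ))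
  have hsq : ∀ z : ℂ, 0 ≤ ‖z‖ ^ 2 := fun z => sq_nonneg _
  have fin0 : ∀ z : ℂ, Sp (fun j => Real.tan (θ j / 2)) (fun _ => (0 : ℤ)) (M.δ q σ p τ d) z →
      ‖z‖ = 1 → 1 ≤ ‖w₀‖ ^ 2 + ‖w₁‖ ^ 2 := by
    intro z hz h1
    rw [h₀.unique hZ hz, h1]
    have := hsq w₁
    linarith
  have fin1 : ∀ z : ℂ, Sp (fun j => Real.tan (θ j / 2)) (fun _ => (1 : ℤ)) (M.δ q σ p τ d) z →
      ‖z‖ = 1 → 1 ≤ ‖w₀‖ ^ 2 + ‖w₁‖ ^ 2 := by
    intro z hz h1
    rw [h₁.unique hZ hz, h1]
    have := hsq w₀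
    linarith
  rcases hamp q σ p τ d with h | ⟨j, h⟩
  · rcases h with h | h | h
    · exact absurd h hne
    · exact fin0 1 (by rw [h]; exact Sp.one) (by simp)
    · have h' : M.δ q σ p τ d = -1 := h
      exact fin0 (-1) (by rw [h']; exact Sp.one.neg) (by simp)
  · rcases h with h | h | h | h
    · refine fin0 _ (by rw [h]; exact Sp.cos j rfl (tan_ne hθ j)) (by simp)
    · refine fin0 _ (by rw [h]; exact (Sp.cos j rfl (tan_ne hθ j)).neg) (by simp)
    · refine fin1 _ (by rw [h]; exact Sp.sin j rfl (tan_ne hθ j)) (by norm_num)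
    · have h' : M.δ q σ p τ d = -(Real.sin (θ j) : ℂ) := h
      refine fin1 _ (by rw [h']; exact (Sp.sin j rfl (tan_ne hθ j)).neg) (by norm_num)

/-- at most two amplitudes are nonzero -/
theorem card_le_two {M : QTM} {θ : ι → ℝ}
    (hθ : AlgebraicIndependent ℚ fun j => Real.tan (θ j / 2)) (hwf : M.WellFormed)
    (hamp : M.AmplitudesFromAngles θ) (q : M.Q) (σ : M.Γ) :
    (Finset.univ.filter fun s : M.Q × M.Γ × Dir => M.δ q σ s.1 s.2.1 s.2.2 ≠ 0).card ≤ 2 := by
  have hZ : AlgebraicIndependent ℤ fun j => Real.tan (θ j / 2) :=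
    hθ.restrictScalars (RingHom.injective_int (algebraMap ℤ ℚ))
  have hsum : ∀ (n : ι → ℤ) (w : M.Q × M.Γ × Dir → ℂ),
      (∀ s, Sp (fun j => Real.tan (θ j / 2)) n (M.δ q σ s.1 s.2.1 s.2.2) (w s)) →
      ∑ s, ‖w s‖ ^ 2 = 1 := by
    intro n w hw
    have h1 := Sp.sum Finset.univ (fun s : M.Q × M.Γ × Dir => ((‖M.δ q σ s.1 s.2.1 s.2.2‖ ^ 2 : ℝ) : ℂ))
      (fun s => ((‖w s‖ ^ 2 : ℝ) : ℂ)) (fun s _ => (hw s).normSq)
    rw [← Complex.ofReal_sum, hwf.unit q σ, Complex.ofReal_one, ← Complex.ofReal_sum] at h1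
    have h2 := h1.unique hZ Sp.one
    exact_mod_cast h2
  choose w₀ hw₀ using fun s : M.Q × M.Γ × Dir =>
    exists_sp hθ hamp (fun _ => (0 : ℤ)) q σ s.1 s.2.1 s.2.2
  choose w₁ hw₁ using fun s : M.Q × M.Γ × Dir =>
    exists_sp hθ hamp (fun _ => (1 : ℤ)) q σ s.1 s.2.1 s.2.2
  have e0 := hsum _ w₀ hw₀
  have e1 := hsum _ w₁ hw₁
  have h3 : ((Finset.univ.filter fun s : M.Q × M.Γ × Dir =>
      M.δ q σ s.1 s.2.1 s.2.2 ≠ 0).card : ℝ) ≤ 2 := by
    calc ((Finset.univ.filter fun s : M.Q × M.Γ × Dir =>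
          M.δ q σ s.1 s.2.1 s.2.2 ≠ 0).card : ℝ)
        = ∑ s ∈ Finset.univ.filter fun s : M.Q × M.Γ × Dir =>
          M.δ q σ s.1 s.2.1 s.2.2 ≠ 0, (1 : ℝ) := by simp
      _ ≤ ∑ s ∈ Finset.univ.filter fun s : M.Q × M.Γ × Dir =>
          M.δ q σ s.1 s.2.1 s.2.2 ≠ 0, (‖w₀ s‖ ^ 2 + ‖w₁ s‖ ^ 2) := by
          refine Finset.sum_le_sum fun s hs => ?_
          rw [Finset.mem_filter] at hs
          exact amp_zero_one hθ hamp _ _ _ _ _ _ _ hs.2 (hw₀ s) (hw₁ s)
      _ ≤ ∑ s, (‖w₀ s‖ ^ 2 + ‖w₁ s‖ ^ 2) :=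
          Finset.sum_le_sum_of_subset_of_nonneg (Finset.filter_subset _ _)
            (fun _ _ _ => by positivity)
      _ = 2 := by rw [Finset.sum_add_distrib, e0, e1]; norm_num
  exact_mod_cast h3

/-- representable real numbers -/
def Rp (t : ι → ℝ) (v : ℝ) (F D : MvPolynomial ι ℤ) : Prop :=
  D ∈ Dn ι ∧ v * aeval t D = aeval t F

/-- a good integral point -/
theorem exists_point (A B : Finset ℝ) (hAB : Disjoint A B) :
    ∃ n : ι → ℤ, (∀ j, Even (n j)) ∧ ∀ v ∈ A, ∀ w ∈ B, ∀ v' w' : ℝ,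
      AlgebraicIndependent ℤ t → Sp t n (v : ℂ) (v' : ℂ) → Sp t n (w : ℂ) (w' : ℂ) → v' ≠ w' := by
  classical
  by_cases ht : AlgebraicIndependent ℤ t
  swap
  · exact ⟨fun _ => 0, fun _ => by simp, fun _ _ _ _ _ _ h => absurd h ht⟩
  -- polynomials separating the pairs
  have key : ∀ r : ℝ × ℝ, ∃ G : MvPolynomial ι ℤ, G ≠ 0 ∧ (r ∈ A ×ˢ B → ∀ F D F' D',
      Rp t r.1 F D → Rp t r.2 F' D' → ∀ n : ι → ℤ, eval n G ≠ 0 →
        eval n (F * D') ≠ eval n (F' * D)) := by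
    intro r
    by_cases hr : r ∈ A ×ˢ B ∧ (∃ F D, Rp t r.1 F D) ∧ (∃ F D, Rp t r.2 F D)
    · obtain ⟨hr, ⟨F₀, D₀, h₀⟩, ⟨F₁, D₁, h₁⟩⟩ := hr
      rw [Finset.mem_product] at hr
      have hne : r.1 ≠ r.2 := fun he =>
        Finset.disjoint_left.mp hAB hr.1 (by rw [he]; exact hr.2)
      refine ⟨F₀ * D₁ - F₁ * D₀, ?_, ?_⟩
      · intro h
        have e := congrArg (aeval t) h
        simp only [map_sub, map_mul, map_zero] at e
        rw [← h₀.2, ← h₁.2] at e
        have p₀ := Dn.aeval_pos h₀.1 t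
        have p₁ := Dn.aeval_pos h₁.1 t
        have e' : (r.1 - r.2) * (aeval t D₀ * aeval t D₁) = 0 := by linear_combination e
        rcases mul_eq_zero.mp e' with h | h
        · exact hne (sub_eq_zero.mp h)
        · exact (mul_pos p₀ p₁).ne' h
      · intro _ F D F' D' hF hF' n hn he
        apply hn
        -- F D₀ = F₀ D etc.
        have u0 : F * D₀ = F₀ * D := by
          apply ht
          simp only [map_mul]
          rw [← hF.2, ← h₀.2]; ring
        have u1 : F' * D₁ = F₁ * D' := by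
          apply ht
          simp only [map_mul]
          rw [← hF'.2, ← h₁.2]; ring
        have v0 := congrArg (eval n) u0
        have v1 := congrArg (eval n) u1
        simp only [map_mul, map_sub] at v0 v1 he ⊢
        have q0 := Dn.eval_pos hF.1 n
        have q1 := Dn.eval_pos hF'.1 n
        have e' : (eval n F₀ * eval n D₁ - eval n F₁ * eval n D₀) * (eval n D * eval n D') = 0 := by
          linear_combination (-(eval n D' * eval n D₁)) * v0 + (eval n D * eval n D₀) * v1 +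
            (eval n D₀ * eval n D₁) * he
        rcases mul_eq_zero.mp e' with h | h
        · exact h
        · exact absurd h (mul_pos q0 q1).ne'
    · refine ⟨1, one_ne_zero, fun hr' F D F' D' hF hF' => ?_⟩
      exact absurd ⟨hr', ⟨F, D, hF⟩, ⟨F', D', hF'⟩⟩ hr
  choose G hG hsep using key
  have hprod : ∏ r ∈ A ×ˢ B, G r ≠ 0 := Finset.prod_ne_zero_iff.mpr fun r _ => hG r
  have hinf : ∀ _ : ι, ({m : ℤ | Even m} : Set ℤ).Infinite := by
    intro _
    refine Set.infinite_of_injective_forall_mem (f := fun m : ℤ => 2 * m) ?_ ?_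
    · intro a b h
      exact mul_left_cancel₀ two_ne_zero h
    · intro m
      exact even_two_mul m
  obtain ⟨n, hn, hev⟩ : ∃ n : ι → ℤ, (∀ j, Even (n j)) ∧ eval n (∏ r ∈ A ×ˢ B, G r) ≠ 0 := by
    by_contra hcon
    push Not at hcon
    apply hprod
    refine MvPolynomial.funext_set (fun _ : ι => {m : ℤ | Even m}) hinf fun x hx => ?_
    rw [hcon x fun j => hx j (Set.mem_univ j), map_zero]
  refine ⟨n, hn, fun v hv w hw v' w' _ h h' he => ?_⟩
  obtain ⟨F, D, hD, a1, a2⟩ := h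
  obtain ⟨F', D', hD', b1, b2⟩ := h'
  have hr : (v, w) ∈ A ×ˢ B := Finset.mk_mem_product hv hw
  have hGn : eval n (G (v, w)) ≠ 0 := by
    rw [map_prod] at hev
    exact (Finset.prod_ne_zero_iff.mp hev) _ hr
  refine hsep (v, w) hr F D F' D' ⟨hD, by exact_mod_cast a1⟩ ⟨hD', by exact_mod_cast b1⟩ n hGn ?_
  have a2' : v' * ((eval n D : ℤ) : ℝ) = ((eval n F : ℤ) : ℝ) := by exact_mod_cast a2
  have b2' : w' * ((eval n D' : ℤ) : ℝ) = ((eval n F' : ℤ) : ℝ) := by exact_mod_cast b2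
  have : ((eval n (F * D') : ℤ) : ℝ) = ((eval n (F' * D) : ℤ) : ℝ) := by
    simp only [map_mul, Int.cast_mul]
    rw [← a2', ← b2', he]; ring
  exact_mod_cast this

end Spec

end Pool.Agent.H543R2

namespace Pool.Agent.H543R2.Angles

open Pool.Agent.H543R2

/-- Let `θ j` be angles such that the numbers `tan (θ j / 2)` are algebraically independent. Every
language decided with finitely many acceptance probabilities by a well-formed polynomial-time
quantum Turing machine with amplitudes `0`, `±1`, `±cos (θ j)`, `±sin (θ j)` is in `P`. -/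
theorem mainA {ι : Type} (θ : ι → ℝ)
    (hθ : AlgebraicIndependent ℚ fun j => Real.tan (θ j / 2))
    (M : QTM) (hwf : M.WellFormed) (hamp : M.AmplitudesFromAngles θ) (hhalt : M.HaltsInPolyTime)
    (L : List Bool → Bool) (hL : M.DecidesWithFinitelyManyValues L) : L ∈ N68a2faeb.P := by
  classical
  obtain ⟨A, B, hAB, hval⟩ := hL
  have hZ : AlgebraicIndependent ℤ fun j => Real.tan (θ j / 2) :=
    hθ.restrictScalars (RingHom.injective_int (algebraMap ℤ ℚ))
  obtain ⟨n, hn, hpt⟩ := Spec.exists_point (t := fun j => Real.tan (θ j / 2)) A B hAB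
  choose δ' hδ' using fun q σ p τ d => Spec.exists_sp hθ hamp n q σ p τ d
  have hw' : (M.withδ δ').WellFormed := QTM.sp_wellFormed hZ hδ' hwf
  have hzero : ∀ q σ p τ d, M.δ q σ p τ d = 0 → δ' q σ p τ d = 0 := by
    intro q σ p τ d h0
    have := hδ' q σ p τ d
    rw [h0] at this
    exact this.unique hZ Sp.zero
  have ho' : (M.withδ δ').OddAmplitudes := by
    have hc : ∀ (q : M.Q) (σ : M.Γ), (Finset.univ.filter fun s : M.Q × M.Γ × Dir =>
        δ' q σ s.1 s.2.1 s.2.2 ≠ 0).card ≤ 2 := by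
      intro q σ
      refine le_trans (Finset.card_le_card ?_) (Spec.card_le_two hθ hwf hamp q σ)
      intro s hs
      rw [Finset.mem_filter] at hs ⊢
      exact ⟨Finset.mem_univ _, fun h0 => hs.2 (hzero _ _ _ _ _ h0)⟩
    exact ⟨fun q σ p τ d => (hδ' q σ p τ d).gaussOdd hn, fun q σ => Or.inl (hc q σ)⟩
  have hhalt' : (M.withδ δ').HaltsInPolyTime := by
    obtain ⟨p, hp⟩ := hhalt
    refine ⟨p, fun x => ?_⟩
    obtain ⟨T, hT, hh⟩ := hp x
    exact ⟨T, hT, QTM.sp_haltsAt hZ hδ' x T hh⟩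
  -- halting times agree
  have huniq : ∀ x T, (M.withδ δ').HaltsAt x T → M.HaltsAt x T := by
    intro x T hT
    obtain ⟨p, hp⟩ := hhalt
    obtain ⟨S, _, hS⟩ := hp x
    have hS' := QTM.sp_haltsAt hZ hδ' x S hS
    have : S = T := by
      rcases lt_trichotomy S T with h | h | h
      · have h1 := hT.2 S h _ (QTM.mem_support hw' ho' x S)
        rw [hS'.1 _ (QTM.mem_support hw' ho' x S)] at h1
        exact absurd h1 (by simp)
      · exact h
      · have h1 := hS'.2 T h _ (QTM.mem_support hw' ho' x T)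
        rw [hT.1 _ (QTM.mem_support hw' ho' x T)] at h1
        exact absurd h1 (by simp)
    rw [← this]; exact hS
  -- specialised values
  let sp : ℝ → ℝ := fun v => if h : ∃ v' : ℝ,
    Sp (fun j => Real.tan (θ j / 2)) n (v : ℂ) (v' : ℂ) then h.choose else 0
  have hsp : ∀ x T, (M.withδ δ').acceptProb x T = sp (M.acceptProb x T) := by
    intro x T
    have h1 := QTM.sp_acceptProb hZ hδ' x T
    have hex : ∃ v' : ℝ, Sp (fun j => Real.tan (θ j / 2)) n ((M.acceptProb x T : ℝ) : ℂ)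
        (v' : ℂ) := ⟨_, h1⟩
    have h2 : sp (M.acceptProb x T) = hex.choose := dif_pos hex
    rw [h2]
    have h3 := h1.unique hZ hex.choose_spec
    exact_mod_cast h3
  let A' : Finset ℝ := (A.filter fun v : ℝ => ∃ v' : ℝ,
    Sp (fun j => Real.tan (θ j / 2)) n (v : ℂ) (v' : ℂ)).image sp
  let B' : Finset ℝ := (B.filter fun v : ℝ => ∃ v' : ℝ,
    Sp (fun j => Real.tan (θ j / 2)) n (v : ℂ) (v' : ℂ)).image sp
  have hspec : ∀ v : ℝ, (∃ v' : ℝ, Sp (fun j => Real.tan (θ j / 2)) n (v : ℂ) (v' : ℂ)) →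
      Sp (fun j => Real.tan (θ j / 2)) n (v : ℂ) ((sp v : ℝ) : ℂ) := by
    intro v hv
    have h2 : sp v = hv.choose := dif_pos hv
    rw [h2]
    exact hv.choose_spec
  refine TwoAdic.finite_values (M.withδ δ') hw' ho' hhalt' L A' B' ?_ ?_ ?_
  · rw [Finset.disjoint_left]
    intro a ha hb
    rw [Finset.mem_image] at ha hb
    obtain ⟨v, hv, rfl⟩ := ha
    obtain ⟨w, hw, hwv⟩ := hb
    rw [Finset.mem_filter] at hv hw
    exact hpt v hv.1 w hw.1 (sp v) (sp w) hZ (hspec v hv.2) (hspec w hw.2) hwv.symm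
  · intro x T hT hx
    rw [hsp x T]
    refine Finset.mem_image_of_mem _ ?_
    rw [Finset.mem_filter]
    exact ⟨(hval x T (huniq x T hT)).1 hx, _, QTM.sp_acceptProb hZ hδ' x T⟩
  · intro x T hT hx
    rw [hsp x T]
    refine Finset.mem_image_of_mem _ ?_
    rw [Finset.mem_filter]
    exact ⟨(hval x T (huniq x T hT)).2 hx, _, QTM.sp_acceptProb hZ hδ' x T⟩

end Pool.Agent.H543R2.Angles
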