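import Mathlib

/-! Pauli operators, Clifford unitaries and rational Pauli rotations on `n` qubits. -/

namespace Pool.Agent.H543R2

open scoped BigOperators Matrix

/-- Basis states of `n` qubits. -/
abbrev Basis (n : ℕ) := Fin n → ZMod 2

/-- Operators on `n` qubits, in the computational basis. -/
abbrev Op (n : ℕ) := Matrix (Basis n) (Basis n) ℂ

/-- The sign `(-1)^s` for `s` in `ZMod 2`. -/
def sgn (s : ZMod 2) : ℂ := if s = 0 then 1 else -1

/-- The operator `X^a Z^b`, sending `|x⟩` to `(-1)^(b·x) |x + a⟩`. -/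
def XZ {n : ℕ} (a b : Basis n) : Op n :=
  fun y x => if y = x + a then sgn (∑ i, b i * x i) else 0

/-- The Pauli group on `n` qubits: the operators `ζ X^a Z^b` with `ζ` in `{1, -1, i, -i}`. -/
def IsPauli {n : ℕ} (P : Op n) : Prop :=
  ∃ (ζ : ℂ) (a b : Basis n), ζ ^ 4 = 1 ∧ P = ζ • XZ a b

/-- A Clifford unitary: a unitary which conjugates Pauli operators to Pauli operators. -/
def IsClifford {n : ℕ} (g : Op n) : Prop :=
  g ∈ Matrix.unitaryGroup (Basis n) ℂ ∧ ∀ P : Op n, IsPauli P → IsPauli (gᴴ * P * g)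

/-- A Pauli rotation `ω (cos θ + i sin θ P)` (with `P` a Hermitian Pauli operator and `ω` a global
phase) for which `cos 2θ` and `sin 2θ` are rational numbers. -/
def IsRationalRotation {n : ℕ} (g : Op n) : Prop :=
  ∃ (ω : ℂ) (θ : ℝ) (P : Op n), ‖ω‖ = 1 ∧
    (∃ r : ℚ, Real.cos (2 * θ) = (r : ℝ)) ∧ (∃ r : ℚ, Real.sin (2 * θ) = (r : ℝ)) ∧
    IsPauli P ∧ P.IsHermitian ∧
    g = ω • (((Real.cos θ : ℝ) : ℂ) • (1 : Op n) + (((Real.sin θ : ℝ) : ℂ) * Complex.I) • P)

/-- The probability that measuring qubit `q` gives `1` after applying the circuit `C` to the basis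
state `|x⟩`. A circuit is a list of unitaries; its operator is the product of the list, so the
last gate of the list acts first. -/
noncomputable def outProb {n : ℕ} (C : List (Op n)) (q : Fin n) (x : Basis n) : ℝ :=
  ∑ y : Basis n with y q = 1, ‖C.prod y x‖ ^ 2

end Pool.Agent.H543R2
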