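import Mathlib
import Pool.Agent.H543R2.Pauli

/-! The 2-adic reduction of rational Pauli rotations. -/

namespace Pool.Agent.H543R2

open scoped BigOperators Matrix

/-! ### signs -/

theorem sgn_zero : sgn 0 = 1 := by simp [sgn]

theorem sgn_one : sgn 1 = -1 := by simp [sgn]

theorem zmod2_cases (s : ZMod 2) : s = 0 ∨ s = 1 := by revert s; decide

theorem sgn_add (s t : ZMod 2) : sgn (s + t) = sgn s * sgn t := by
  rcases zmod2_cases s with rfl | rfl <;> rcases zmod2_cases t with rfl | rfl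
  · simp [sgn_zero]
  · simp [sgn_zero]
  · simp [sgn_zero]
  · have : (1 : ZMod 2) + 1 = 0 := by decide
    rw [this, sgn_zero, sgn_one]; ring

theorem sgn_mul_self (s : ZMod 2) : sgn s * sgn s = 1 := by
  rw [← sgn_add]
  have : ∀ r : ZMod 2, r + r = 0 := by decide
  rw [this, sgn_zero]

theorem star_sgn (s : ZMod 2) : star (sgn s) = sgn s := by
  rcases zmod2_cases s with rfl | rfl <;> simp [sgn_zero, sgn_one]

theorem sgn_pow4 (s : ZMod 2) : sgn s ^ 4 = 1 := by
  have := sgn_mul_self s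
  calc sgn s ^ 4 = (sgn s * sgn s) * (sgn s * sgn s) := by ring
    _ = 1 := by rw [this]; ring

variable {n : ℕ}

/-! ### Pauli operators -/

/-- dot product -/
def dot (b x : Basis n) : ZMod 2 := ∑ i, b i * x i

theorem dot_add_right (b x y : Basis n) : dot b (x + y) = dot b x + dot b y := by
  simp only [dot, Pi.add_apply, mul_add, Finset.sum_add_distrib]

theorem dot_add_left (b c x : Basis n) : dot (b + c) x = dot b x + dot c x := by
  simp only [dot, Pi.add_apply, add_mul, Finset.sum_add_distrib]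

theorem XZ_apply (a b y x : Basis n) : XZ a b y x = if y = x + a then sgn (dot b x) else 0 := rfl

theorem basis_add_self (a : Basis n) : a + a = 0 := by
  funext i
  have : ∀ r : ZMod 2, r + r = 0 := by decide
  exact this _

theorem XZ_mul (a b a' b' : Basis n) :
    XZ a b * XZ a' b' = sgn (dot b a') • XZ (a + a') (b + b') := by
  ext y x
  rw [Matrix.mul_apply, Matrix.smul_apply]
  rw [Finset.sum_eq_single (x + a')]
  · rw [XZ_apply, XZ_apply, XZ_apply]
    rw [if_pos rfl]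
    have : x + a' + a = x + (a + a') := by abel
    rw [this]
    by_cases h : y = x + (a + a')
    · rw [if_pos h, if_pos h, dot_add_right, dot_add_left, sgn_add, sgn_add, smul_eq_mul]; ring
    · rw [if_neg h, if_neg h]; simp
  · intro z _ hz
    rw [XZ_apply a' b', if_neg hz, mul_zero]
  · intro h; exact absurd (Finset.mem_univ _) h

theorem XZ_zero : XZ (0 : Basis n) 0 = 1 := by
  ext y x
  rw [XZ_apply, add_zero, Matrix.one_apply]
  have : dot (0 : Basis n) x = 0 := by simp [dot]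
  rw [this, sgn_zero]

theorem XZ_conjTranspose (a b : Basis n) : (XZ a b)ᴴ = sgn (dot b a) • XZ a b := by
  ext y x
  rw [Matrix.conjTranspose_apply, Matrix.smul_apply, XZ_apply, XZ_apply]
  by_cases h : y = x + a
  · have h' : x = y + a := by rw [h, add_assoc, basis_add_self, add_zero]
    rw [if_pos h', if_pos h, star_sgn, h, dot_add_right, sgn_add, smul_eq_mul]; ring
  · have h' : ¬ x = y + a := by
      intro e; apply h; rw [e, add_assoc, basis_add_self, add_zero]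
    rw [if_neg h', if_neg h]; simp

theorem IsPauli.mul {P Q : Op n} (hP : IsPauli P) (hQ : IsPauli Q) : IsPauli (P * Q) := by
  obtain ⟨ζ, a, b, hζ, rfl⟩ := hP
  obtain ⟨η, a', b', hη, rfl⟩ := hQ
  refine ⟨ζ * η * sgn (dot b a'), a + a', b + b', ?_, ?_⟩
  · rw [mul_pow, mul_pow, hζ, hη, sgn_pow4]; ring
  · rw [Matrix.smul_mul, Matrix.mul_smul, XZ_mul, smul_smul, smul_smul]

theorem IsPauli.smul {P : Op n} (hP : IsPauli P) {z : ℂ} (hz : z ^ 4 = 1) : IsPauli (z • P) := by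
  obtain ⟨ζ, a, b, hζ, rfl⟩ := hP
  exact ⟨z * ζ, a, b, by rw [mul_pow, hz, hζ]; ring, by rw [smul_smul]⟩

theorem norm_of_pow4 {z : ℂ} (hz : z ^ 4 = 1) : z * star z = 1 := by
  have h1 : ‖z‖ ^ 4 = 1 := by rw [← norm_pow, hz]; simp
  have h2 : ‖z‖ = 1 := by
    have := (pow_eq_one_iff_of_nonneg (norm_nonneg z) (by norm_num : (4 : ℕ) ≠ 0)).mp h1
    exact this
  have h3 : z * (starRingEnd ℂ) z = (Complex.normSq z : ℂ) := Complex.mul_conj z
  change z * (starRingEnd ℂ) z = 1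
  rw [h3, Complex.normSq_eq_norm_sq, h2]
  simp

theorem IsPauli.mul_conjTranspose {P : Op n} (hP : IsPauli P) : P * Pᴴ = 1 := by
  obtain ⟨ζ, a, b, hζ, rfl⟩ := hP
  rw [Matrix.conjTranspose_smul, Matrix.smul_mul, Matrix.mul_smul, XZ_conjTranspose,
    Matrix.mul_smul, XZ_mul, smul_smul, smul_smul, smul_smul, basis_add_self, basis_add_self,
    XZ_zero]
  have : ζ * star ζ * sgn (dot b a) * sgn (dot b a) = 1 := by
    rw [norm_of_pow4 hζ, one_mul, sgn_mul_self]
  rw [this, one_smul]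

theorem IsPauli.commute_or {P Q : Op n} (hP : IsPauli P) (hQ : IsPauli Q) :
    Q * P = P * Q ∨ Q * P = -(P * Q) := by
  obtain ⟨ζ, a, b, hζ, rfl⟩ := hP
  obtain ⟨η, a', b', hη, rfl⟩ := hQ
  have h1 : (η • XZ a' b') * (ζ • XZ a b) = (ζ * η * sgn (dot b' a)) • XZ (a + a') (b + b') := by
    rw [Matrix.smul_mul, Matrix.mul_smul, XZ_mul, smul_smul, smul_smul, add_comm a' a,
      add_comm b' b]
    congr 1; ring
  have h2 : (ζ • XZ a b) * (η • XZ a' b') = (ζ * η * sgn (dot b a')) • XZ (a + a') (b + b') := by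
    rw [Matrix.smul_mul, Matrix.mul_smul, XZ_mul, smul_smul, smul_smul]
  rw [h1, h2]
  rcases zmod2_cases (dot b' a) with h | h <;> rcases zmod2_cases (dot b a') with h' | h' <;>
    rw [h, h'] <;> simp [sgn_zero, sgn_one]

/-- Hermitian Pauli operators. -/
def HP (P : Op n) : Prop := IsPauli P ∧ P.IsHermitian

theorem HP.sq {P : Op n} (h : HP P) : P * P = 1 := by
  have := h.1.mul_conjTranspose
  rwa [h.2.eq] at this

theorem HP.neg {P : Op n} (h : HP P) : HP (-P) := by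
  refine ⟨?_, ?_⟩
  · have := h.1.smul (z := -1) (by norm_num)
    simpa using this
  · exact h.2.neg

theorem HP.diag {P : Op n} (h : HP P) : ∃ (b : Basis n) (e : ZMod 2),
    (∀ x, P x x = 0) ∨ (∀ x, P x x = sgn (dot b x + e)) := by
  obtain ⟨⟨ζ, a, b, hζ, hP⟩, hH⟩ := h
  by_cases ha : a = 0
  · subst ha
    have h0 : P 0 0 = ζ := by
      rw [hP, Matrix.smul_apply, XZ_apply, if_pos (by simp)]
      simp [dot, sgn_zero]
    have h1 : star ζ = ζ := by
      have := hH.apply 0 0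
      rw [h0] at this
      exact this
    have h2 : ζ * ζ = 1 := by
      have := norm_of_pow4 hζ
      rwa [h1] at this
    have h3 : ζ = 1 ∨ ζ = -1 := by
      have : (ζ - 1) * (ζ + 1) = 0 := by linear_combination h2
      rcases mul_eq_zero.mp this with h | h
      · left; linear_combination h
      · right; linear_combination h
    rcases h3 with h3 | h3
    · refine ⟨b, 0, Or.inr fun x => ?_⟩
      rw [hP, Matrix.smul_apply, XZ_apply, if_pos (by simp), h3, add_zero, one_smul]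
    · refine ⟨b, 1, Or.inr fun x => ?_⟩
      rw [hP, Matrix.smul_apply, XZ_apply, if_pos (by simp), h3, sgn_add, sgn_one, smul_eq_mul]
      ring
  · refine ⟨0, 0, Or.inl fun x => ?_⟩
    rw [hP, Matrix.smul_apply, XZ_apply, if_neg]
    · simp
    · intro h
      apply ha
      have : x + 0 = x + a := by rw [add_zero]; exact h
      exact (add_left_cancel this).symm

/-! ### arithmetic -/

/-- Numbers of the form `4a/d` with `a`, `d` integers, `d` odd. -/
def FourOdd (r : ℂ) : Prop := ∃ a d : ℤ, Odd d ∧ r * (d : ℂ) = 4 * (a : ℂ)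

/-- Rational numbers `a/d` with `d` odd. -/
def OddQ (r : ℂ) : Prop := ∃ a d : ℤ, Odd d ∧ r * (d : ℂ) = (a : ℂ)

theorem FourOdd.add {r s : ℂ} (hr : FourOdd r) (hs : FourOdd s) : FourOdd (r + s) := by
  obtain ⟨a, d, hd, h⟩ := hr
  obtain ⟨b, e, he, h'⟩ := hs
  refine ⟨a * e + b * d, d * e, hd.mul he, ?_⟩
  push_cast
  linear_combination (e : ℂ) * h + (d : ℂ) * h'

theorem FourOdd.neg {r : ℂ} (hr : FourOdd r) : FourOdd (-r) := by
  obtain ⟨a, d, hd, h⟩ := hr
  refine ⟨-a, d, hd, ?_⟩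
  push_cast
  linear_combination -h

theorem FourOdd.mul {r s : ℂ} (hr : FourOdd r) (hs : OddQ s) : FourOdd (r * s) := by
  obtain ⟨a, d, hd, h⟩ := hr
  obtain ⟨b, e, he, h'⟩ := hs
  refine ⟨a * b, d * e, hd.mul he, ?_⟩
  push_cast
  have : r * s * (d * e) = (r * d) * (s * e) := by ring
  rw [this, h, h']; ring

theorem FourOdd.zero : FourOdd 0 := ⟨0, 1, odd_one, by simp⟩

theorem FourOdd.oddQ {r : ℂ} (hr : FourOdd r) : OddQ r := by
  obtain ⟨a, d, hd, h⟩ := hr
  exact ⟨4 * a, d, hd, by rw [h]; push_cast; ring⟩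

theorem OddQ.add {r s : ℂ} (hr : OddQ r) (hs : OddQ s) : OddQ (r + s) := by
  obtain ⟨a, d, hd, h⟩ := hr
  obtain ⟨b, e, he, h'⟩ := hs
  refine ⟨a * e + b * d, d * e, hd.mul he, ?_⟩
  push_cast
  linear_combination (e : ℂ) * h + (d : ℂ) * h'

theorem oddQ_int (k : ℤ) : OddQ (k : ℂ) := ⟨k, 1, odd_one, by simp⟩

/-- Rational points of the circle reduce to `±1, ±i` modulo `4`. -/
theorem pyth (x y : ℚ) (h : x ^ 2 + y ^ 2 = 1) :
    (∃ ε : ℤ, (ε = 1 ∨ ε = -1) ∧ FourOdd ((x : ℂ) - ε) ∧ FourOdd (y : ℂ)) ∨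
    (∃ ε : ℤ, (ε = 1 ∨ ε = -1) ∧ FourOdd (x : ℂ) ∧ FourOdd ((y : ℂ) - ε)) := by
  -- common denominator
  have hx := x.num_div_den
  have hy := y.num_div_den
  set m := x.num
  set n := y.num
  set w := x.den with hw
  set z := y.den with hz
  have hw0 : (w : ℚ) ≠ 0 := by exact_mod_cast x.den_nz
  have hz0 : (z : ℚ) ≠ 0 := by exact_mod_cast y.den_nz
  have hcw : IsCoprime m (w : ℤ) := by
    rw [Int.isCoprime_iff_gcd_eq_one]
    have := x.reduced
    simpa [Int.gcd, m, w] using this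
  have hcz : IsCoprime n (z : ℤ) := by
    rw [Int.isCoprime_iff_gcd_eq_one]
    have := y.reduced
    simpa [Int.gcd, n, z] using this
  have hmain : m ^ 2 * (z : ℤ) ^ 2 + n ^ 2 * (w : ℤ) ^ 2 = (w : ℤ) ^ 2 * (z : ℤ) ^ 2 := by
    have : (m : ℚ) ^ 2 * (z : ℚ) ^ 2 + (n : ℚ) ^ 2 * (w : ℚ) ^ 2 = (w : ℚ) ^ 2 * (z : ℚ) ^ 2 := by
      rw [← hx, ← hy] at h
      field_simp at h
      linear_combination h
    exact_mod_cast this
  have hwz : (w : ℤ) ∣ z := by
    have h1 : (w : ℤ) ^ 2 ∣ m ^ 2 * (z : ℤ) ^ 2 := by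
      have : m ^ 2 * (z : ℤ) ^ 2 = (w : ℤ) ^ 2 * ((z : ℤ) ^ 2 - n ^ 2) := by
        linear_combination hmain
      rw [this]; exact dvd_mul_right _ _
    have h2 : IsCoprime ((w : ℤ) ^ 2) (m ^ 2) := (hcw.symm).pow
    have h3 := h2.dvd_of_dvd_mul_left h1
    exact (Int.pow_dvd_pow_iff (by norm_num)).mp h3
  have hzw : (z : ℤ) ∣ w := by
    have h1 : (z : ℤ) ^ 2 ∣ n ^ 2 * (w : ℤ) ^ 2 := by
      have : n ^ 2 * (w : ℤ) ^ 2 = (z : ℤ) ^ 2 * ((w : ℤ) ^ 2 - m ^ 2) := by
        linear_combination hmain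
      rw [this]; exact dvd_mul_right _ _
    have h2 : IsCoprime ((z : ℤ) ^ 2) (n ^ 2) := (hcz.symm).pow
    have h3 := h2.dvd_of_dvd_mul_left h1
    exact (Int.pow_dvd_pow_iff (by norm_num)).mp h3
  have hwz' : w = z := by
    apply Nat.dvd_antisymm
    · exact_mod_cast hwz
    · exact_mod_cast hzw
  have hsum : m ^ 2 + n ^ 2 = (w : ℤ) ^ 2 := by
    rw [← hwz'] at hmain
    have hw0' : ((w : ℤ) ^ 2) ≠ 0 := by
      have : (w : ℤ) ≠ 0 := by exact_mod_cast x.den_nz
      positivity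
    apply mul_right_cancel₀ hw0'
    linear_combination hmain
  have hwodd : Odd (w : ℤ) := by
    by_contra hne
    rw [Int.not_odd_iff_even] at hne
    have hm : Even m := by
      by_contra hmo
      rw [Int.not_even_iff_odd] at hmo
      obtain ⟨k, hk⟩ := hne
      obtain ⟨l, hl⟩ := hmo
      rw [hk, hl] at hsum
      rcases Int.even_or_odd n with ⟨j, hj⟩ | ⟨j, hj⟩
      · rw [hj] at hsum; ring_nf at hsum; omega
      · rw [hj] at hsum; ring_nf at hsum; omega
    have h2 : (2 : ℤ) ∣ 1 := by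
      have := hcw
      obtain ⟨u, v, huv⟩ := this
      rw [← huv]
      exact dvd_add (Dvd.dvd.mul_left hm.two_dvd u) (Dvd.dvd.mul_left hne.two_dvd v)
    norm_num at h2
  have hxw : (x : ℂ) * ((w : ℤ) : ℂ) = (m : ℂ) := by
    have : x * (w : ℚ) = m := by rw [← hx]; field_simp
    exact_mod_cast congrArg (fun q : ℚ => (q : ℂ)) this
  have hyw : (y : ℂ) * ((w : ℤ) : ℂ) = (n : ℂ) := by
    have : y * (w : ℚ) = n := by rw [← hy, hwz']; field_simp
    exact_mod_cast congrArg (fun q : ℚ => (q : ℂ)) this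
  -- one of m, n is odd, the other is divisible by 4
  have four : ∀ u v : ℤ, u ^ 2 + v ^ 2 = (w : ℤ) ^ 2 → Odd u → (4 : ℤ) ∣ v := by
    intro u v huv hu
    obtain ⟨k, hk⟩ := hu
    obtain ⟨l, hl⟩ := hwodd
    have hv2 : v ^ 2 = 4 * (l * (l + 1) - k * (k + 1)) := by
      rw [hk, hl] at huv
      linear_combination huv
    have hl2 : Even (l * (l + 1)) := Int.even_mul_succ_self l
    have hk2 : Even (k * (k + 1)) := Int.even_mul_succ_self k
    obtain ⟨c, hc⟩ := hl2.sub hk2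
    rw [hc] at hv2
    have hve : Even v := by
      have : Even (v ^ 2) := ⟨4 * c, by rw [hv2]; ring⟩
      exact (Int.even_pow.mp this).1
    obtain ⟨t, ht⟩ := hve
    have h3 : t * t = 2 * c := by
      rw [ht] at hv2
      have : 4 * (t * t) = 4 * (2 * c) := by linear_combination hv2
      exact mul_left_cancel₀ (by norm_num) this
    have hte : Even t := by
      have : Even (t * t) := ⟨c, by rw [h3]; ring⟩
      rcases Int.even_mul.mp this with h | h <;> exact h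
    obtain ⟨r, hr⟩ := hte
    exact ⟨r, by rw [ht, hr]; ring⟩
  have pm : ∀ u : ℤ, Odd u → ∃ ε : ℤ, (ε = 1 ∨ ε = -1) ∧ (4 : ℤ) ∣ u - ε * w := by
    intro u hu
    obtain ⟨k, hk⟩ := hu
    obtain ⟨l, hl⟩ := hwodd
    rcases Int.even_or_odd (k - l) with ⟨j, hj⟩ | ⟨j, hj⟩
    · exact ⟨1, Or.inl rfl, ⟨j, by rw [hk, hl]; linear_combination 2 * hj⟩⟩
    · refine ⟨-1, Or.inr rfl, ⟨j + l + 1, by rw [hk, hl]; linear_combination 2 * hj⟩⟩
  have build : ∀ (r : ℂ) (u : ℤ), r * ((w : ℤ) : ℂ) = (u : ℂ) → (4 : ℤ) ∣ u → FourOdd r := by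
    intro r u hr ⟨c, hc⟩
    exact ⟨c, w, hwodd, by rw [hr, hc]; push_cast; ring⟩
  rcases Int.even_or_odd m with hm | hm
  · have hn : Odd n := by
      by_contra hne
      rw [Int.not_odd_iff_even] at hne
      obtain ⟨k, hk⟩ := hm
      obtain ⟨l, hl⟩ := hwodd
      obtain ⟨j, hj⟩ := hne
      rw [hk, hl, hj] at hsum
      ring_nf at hsum
      omega
    right
    obtain ⟨ε, hε, hd⟩ := pm n hn
    refine ⟨ε, hε, ?_, ?_⟩
    · exact build _ m hxw (four n m (by linear_combination hsum) hn)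
    · refine build _ (n - ε * w) ?_ hd
      push_cast
      push_cast at hyw
      linear_combination hyw
  · left
    obtain ⟨ε, hε, hd⟩ := pm m hm
    refine ⟨ε, hε, ?_, ?_⟩
    · refine build _ (m - ε * w) ?_ hd
      push_cast
      push_cast at hxw
      linear_combination hxw
    · exact build _ n hyw (four m n hsum hm)

/-! ### the lattice of Pauli combinations with coefficients divisible by four -/

/-- Sums of Hermitian Pauli operators with coefficients `4a/d`, `d` odd. -/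
def Lam (n : ℕ) : AddSubgroup (Op n) :=
  AddSubgroup.closure {M | ∃ r : ℂ, FourOdd r ∧ ∃ P : Op n, HP P ∧ M = r • P}

theorem smul_mem_Lam {r : ℂ} (hr : FourOdd r) {P : Op n} (hP : HP P) : r • P ∈ Lam n :=
  AddSubgroup.subset_closure ⟨r, hr, P, hP, rfl⟩

theorem Lam_diag {M : Op n} (hM : M ∈ Lam n) (x : Basis n) : FourOdd (M x x) := by
  refine AddSubgroup.closure_induction (p := fun M _ => FourOdd (M x x)) ?_ ?_ ?_ ?_ hM
  · rintro M ⟨r, hr, P, hP, rfl⟩
    obtain ⟨b, e, h | h⟩ := hP.diag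
    · rw [Matrix.smul_apply, h x, smul_zero]; exact FourOdd.zero
    · rw [Matrix.smul_apply, h x, smul_eq_mul]
      refine hr.mul ?_
      rcases zmod2_cases (dot b x + e) with h | h
      · rw [h, sgn_zero]; exact_mod_cast oddQ_int 1
      · rw [h, sgn_one]; exact_mod_cast oddQ_int (-1)
  · rw [Matrix.zero_apply]; exact FourOdd.zero
  · intro A B _ _ hA hB
    rw [Matrix.add_apply]; exact hA.add hB
  · intro A _ hA
    rw [Matrix.neg_apply]; exact hA.neg

/-- `U` reduces modulo four to a Clifford operator. -/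
def Good (U : Op n) : Prop :=
  (∀ Q : Op n, HP Q → ∃ Q' : Op n, HP Q' ∧ Uᴴ * Q * U - Q' ∈ Lam n) ∧
    ∀ M : Op n, M ∈ Lam n → Uᴴ * M * U ∈ Lam n

theorem Good.one : Good (1 : Op n) := by
  constructor
  · intro Q hQ
    exact ⟨Q, hQ, by simp [AddSubgroup.zero_mem]⟩
  · intro M hM
    simpa using hM

theorem Good.mul {U V : Op n} (hU : Good U) (hV : Good V) : Good (U * V) := by
  have e : ∀ M : Op n, (U * V)ᴴ * M * (U * V) = Vᴴ * (Uᴴ * M * U) * V := by
    intro M
    rw [Matrix.conjTranspose_mul]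
    simp only [Matrix.mul_assoc]
  constructor
  · intro Q hQ
    obtain ⟨Q₁, hQ₁, h₁⟩ := hU.1 Q hQ
    obtain ⟨Q₂, hQ₂, h₂⟩ := hV.1 Q₁ hQ₁
    refine ⟨Q₂, hQ₂, ?_⟩
    have h₃ := hV.2 _ h₁
    have : (U * V)ᴴ * Q * (U * V) - Q₂ =
        Vᴴ * (Uᴴ * Q * U - Q₁) * V + (Vᴴ * Q₁ * V - Q₂) := by
      rw [e, Matrix.mul_sub, Matrix.sub_mul]; abel
    rw [this]
    exact AddSubgroup.add_mem _ h₃ h₂
  · intro M hM
    rw [e]
    exact hV.2 _ (hU.2 _ hM)

/-- Stability of the lattice follows from the behaviour on Pauli operators. -/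
theorem Good.of_coeff {U : Op n}
    (h : ∀ Q : Op n, HP Q → (∃ Q' : Op n, HP Q' ∧ Uᴴ * Q * U - Q' ∈ Lam n))
    (h' : ∀ Q : Op n, HP Q → ∀ r : ℂ, FourOdd r → r • (Uᴴ * Q * U) ∈ Lam n) : Good U := by
  refine ⟨h, fun M hM => ?_⟩
  refine AddSubgroup.closure_induction (p := fun M _ => Uᴴ * M * U ∈ Lam n) ?_ ?_ ?_ ?_ hM
  · rintro M ⟨r, hr, P, hP, rfl⟩
    have : Uᴴ * (r • P) * U = r • (Uᴴ * P * U) := by
      rw [Matrix.mul_smul, Matrix.smul_mul]
    rw [this]
    exact h' P hP r hr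
  · rw [Matrix.mul_zero, Matrix.zero_mul]; exact AddSubgroup.zero_mem _
  · intro A B _ _ hA hB
    rw [Matrix.mul_add, Matrix.add_mul]; exact AddSubgroup.add_mem _ hA hB
  · intro A _ hA
    rw [Matrix.mul_neg, Matrix.neg_mul]; exact AddSubgroup.neg_mem _ hA

theorem IsClifford.good {g : Op n} (hg : IsClifford g) : Good g := by
  have key : ∀ Q : Op n, HP Q → HP (gᴴ * Q * g) := by
    intro Q hQ
    refine ⟨hg.2 Q hQ.1, ?_⟩
    unfold Matrix.IsHermitian
    rw [Matrix.conjTranspose_mul, Matrix.conjTranspose_mul, Matrix.conjTranspose_conjTranspose,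
      hQ.2.eq, Matrix.mul_assoc]
  refine Good.of_coeff (fun Q hQ => ⟨_, key Q hQ, by simp [AddSubgroup.zero_mem]⟩) ?_
  intro Q hQ r hr
  exact smul_mem_Lam hr (key Q hQ)

theorem rotation_conj {ω : ℂ} {c s : ℝ} {P : Op n} (hω : ‖ω‖ = 1) (hcs : c ^ 2 + s ^ 2 = 1)
    (hP : HP P) {g : Op n}
    (hg : g = ω • ((c : ℂ) • (1 : Op n) + ((s : ℂ) * Complex.I) • P)) (Q : Op n) :
    gᴴ * Q * g = ((c : ℂ) ^ 2) • Q + ((c : ℂ) * s * Complex.I) • (Q * P - P * Q) +
      ((s : ℂ) ^ 2) • (P * Q * P) := by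
  have hω' : star ω * ω = 1 := by
    have h3 : (starRingEnd ℂ) ω * ω = (Complex.normSq ω : ℂ) := by
      rw [mul_comm]; exact Complex.mul_conj ω
    change (starRingEnd ℂ) ω * ω = 1
    rw [h3, Complex.normSq_eq_norm_sq, hω]; simp
  have hgH : gᴴ = star ω • ((c : ℂ) • (1 : Op n) - ((s : ℂ) * Complex.I) • P) := by
    rw [hg, Matrix.conjTranspose_smul, Matrix.conjTranspose_add, Matrix.conjTranspose_smul,
      Matrix.conjTranspose_smul, Matrix.conjTranspose_one, hP.2.eq]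
    congr 1
    have h1 : star (c : ℂ) = (c : ℂ) := Complex.conj_ofReal c
    have h2 : star ((s : ℂ) * Complex.I) = -((s : ℂ) * Complex.I) := by
      change (starRingEnd ℂ) _ = _
      rw [map_mul, Complex.conj_ofReal, Complex.conj_I]; ring
    rw [h1, h2, neg_smul, sub_eq_add_neg]
  rw [hgH, hg]
  rw [Matrix.smul_mul, Matrix.smul_mul, Matrix.mul_smul, smul_smul, hω', one_smul]
  simp only [Matrix.sub_mul, Matrix.mul_add, Matrix.smul_mul, Matrix.mul_smul, Matrix.one_mul,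
    Matrix.mul_one, smul_smul, smul_sub]
  have hI : (s : ℂ) * Complex.I * (s * Complex.I) = -((s : ℂ) ^ 2) := by
    linear_combination ((s : ℂ) ^ 2) * Complex.I_mul_I
  ext y x
  simp only [Matrix.add_apply, Matrix.sub_apply, Matrix.smul_apply, smul_eq_mul]
  linear_combination (-(P * Q * P) y x) * hI

theorem rotation_unitary {ω : ℂ} {c s : ℝ} {P : Op n} (hω : ‖ω‖ = 1) (hcs : c ^ 2 + s ^ 2 = 1)
    (hP : HP P) {g : Op n}
    (hg : g = ω • ((c : ℂ) • (1 : Op n) + ((s : ℂ) * Complex.I) • P)) : gᴴ * g = 1 := by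
  have h := rotation_conj hω hcs hP hg 1
  rw [Matrix.mul_one, Matrix.mul_one, Matrix.one_mul, sub_self, smul_zero, add_zero, hP.sq] at h
  rw [h, ← add_smul]
  have : (c : ℂ) ^ 2 + (s : ℂ) ^ 2 = 1 := by exact_mod_cast congrArg (fun r : ℝ => (r : ℂ)) hcs
  rw [this, one_smul]

theorem rotation_cases {ω : ℂ} {c s : ℝ} {P : Op n} (hω : ‖ω‖ = 1) (hcs : c ^ 2 + s ^ 2 = 1)
    (hP : HP P) {g : Op n}
    (hg : g = ω • ((c : ℂ) • (1 : Op n) + ((s : ℂ) * Complex.I) • P)) (Q : Op n) (hQ : HP Q) :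
    gᴴ * Q * g = Q ∨ ∃ R : Op n, HP R ∧
      gᴴ * Q * g = (((c ^ 2 - s ^ 2 : ℝ)) : ℂ) • Q + (((2 * c * s : ℝ)) : ℂ) • R := by
  have h := rotation_conj hω hcs hP hg Q
  have hcs' : (c : ℂ) ^ 2 + (s : ℂ) ^ 2 = 1 := by
    exact_mod_cast congrArg (fun r : ℝ => (r : ℂ)) hcs
  rcases hP.1.commute_or hQ.1 with hc | hc
  · left
    rw [h, hc, sub_self, smul_zero, add_zero]
    have : P * Q * P = Q := by
      rw [← hc, Matrix.mul_assoc, hP.sq, Matrix.mul_one]
    rw [this, ← add_smul, hcs', one_smul]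
  · right
    have hPQ : P * Q = -(Q * P) := by rw [hc, neg_neg]
    refine ⟨Complex.I • (Q * P), ⟨?_, ?_⟩, ?_⟩
    · exact (hQ.1.mul hP.1).smul (by
        have := Complex.I_sq
        calc Complex.I ^ 4 = (Complex.I ^ 2) ^ 2 := by ring
          _ = 1 := by rw [this]; norm_num)
    · unfold Matrix.IsHermitian
      rw [Matrix.conjTranspose_smul, Matrix.conjTranspose_mul, hP.2.eq, hQ.2.eq, hPQ]
      have : star Complex.I = -Complex.I := Complex.conj_I
      rw [this, neg_smul, smul_neg, neg_neg]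
    · rw [h]
      have h2 : P * Q * P = -Q := by
        rw [hPQ, Matrix.neg_mul, Matrix.mul_assoc, hP.sq, Matrix.mul_one]
      rw [h2, hPQ, smul_smul]
      ext y x
      simp only [Matrix.add_apply, Matrix.sub_apply, Matrix.smul_apply, Matrix.neg_apply,
        smul_eq_mul]
      push_cast
      ring

theorem oddQ_of_pyth {x y : ℚ} (h : x ^ 2 + y ^ 2 = 1) : OddQ (x : ℂ) ∧ OddQ (y : ℂ) := by
  rcases pyth x y h with ⟨ε, _, h1, h2⟩ | ⟨ε, _, h1, h2⟩
  · refine ⟨?_, h2.oddQ⟩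
    have := h1.oddQ.add (oddQ_int ε)
    simpa using this
  · refine ⟨h1.oddQ, ?_⟩
    have := h2.oddQ.add (oddQ_int ε)
    simpa using this

theorem HP.pm {Q : Op n} (hQ : HP Q) {ε : ℤ} (hε : ε = 1 ∨ ε = -1) : HP ((ε : ℂ) • Q) := by
  rcases hε with rfl | rfl
  · simpa using hQ
  · have := hQ.neg
    simpa using this

theorem rotation_good {ω : ℂ} {c s : ℝ} {P : Op n} (hω : ‖ω‖ = 1) (hcs : c ^ 2 + s ^ 2 = 1)
    (hr1 : ∃ r : ℚ, c ^ 2 - s ^ 2 = (r : ℝ)) (hr2 : ∃ r : ℚ, 2 * c * s = (r : ℝ))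
    (hP : HP P) {g : Op n}
    (hg : g = ω • ((c : ℂ) • (1 : Op n) + ((s : ℂ) * Complex.I) • P)) : Good g := by
  obtain ⟨x, hx⟩ := hr1
  obtain ⟨y, hy⟩ := hr2
  have hxy : x ^ 2 + y ^ 2 = 1 := by
    have : (x : ℝ) ^ 2 + (y : ℝ) ^ 2 = 1 := by
      rw [← hx, ← hy]
      have : (c ^ 2 - s ^ 2) ^ 2 + (2 * c * s) ^ 2 = (c ^ 2 + s ^ 2) ^ 2 := by ring
      rw [this, hcs]; norm_num
    exact_mod_cast this
  have hx' : (((c ^ 2 - s ^ 2 : ℝ)) : ℂ) = (x : ℂ) := by rw [hx]; simp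
  have hy' : (((2 * c * s : ℝ)) : ℂ) = (y : ℂ) := by rw [hy]; simp
  refine Good.of_coeff ?_ ?_
  · intro Q hQ
    rcases rotation_cases hω hcs hP hg Q hQ with h | ⟨R, hR, h⟩
    · exact ⟨Q, hQ, by rw [h, sub_self]; exact AddSubgroup.zero_mem _⟩
    · rw [hx', hy'] at h
      rcases pyth x y hxy with ⟨ε, hε, h1, h2⟩ | ⟨ε, hε, h1, h2⟩
      · refine ⟨(ε : ℂ) • Q, hQ.pm hε, ?_⟩
        have : gᴴ * Q * g - (ε : ℂ) • Q = ((x : ℂ) - ε) • Q + (y : ℂ) • R := by
          rw [h, sub_smul]; abel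
        rw [this]
        exact AddSubgroup.add_mem _ (smul_mem_Lam h1 hQ) (smul_mem_Lam h2 hR)
      · refine ⟨(ε : ℂ) • R, hR.pm hε, ?_⟩
        have : gᴴ * Q * g - (ε : ℂ) • R = (x : ℂ) • Q + ((y : ℂ) - ε) • R := by
          rw [h, sub_smul]; abel
        rw [this]
        exact AddSubgroup.add_mem _ (smul_mem_Lam h1 hQ) (smul_mem_Lam h2 hR)
  · intro Q hQ r hr
    rcases rotation_cases hω hcs hP hg Q hQ with h | ⟨R, hR, h⟩
    · rw [h]; exact smul_mem_Lam hr hQ
    · rw [hx', hy'] at h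
      obtain ⟨ox, oy⟩ := oddQ_of_pyth hxy
      rw [h, smul_add, smul_smul, smul_smul]
      exact AddSubgroup.add_mem _ (smul_mem_Lam (hr.mul ox) hQ) (smul_mem_Lam (hr.mul oy) hR)

theorem IsRationalRotation.good {g : Op n} (hg : IsRationalRotation g) : Good g := by
  obtain ⟨ω, θ, P, hω, hr1, hr2, hP, hPH, hg⟩ := hg
  refine rotation_good (c := Real.cos θ) (s := Real.sin θ) hω (Real.cos_sq_add_sin_sq θ) ?_ ?_
    ⟨hP, hPH⟩ hg
  · rw [Real.cos_two_mul'] at hr1; exact hr1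
  · obtain ⟨r, hr⟩ := hr2
    exact ⟨r, by rw [← hr, Real.sin_two_mul]; ring⟩

theorem IsRationalRotation.unitary {g : Op n} (hg : IsRationalRotation g) : gᴴ * g = 1 := by
  obtain ⟨ω, θ, P, hω, _, _, hP, hPH, hg⟩ := hg
  exact rotation_unitary (c := Real.cos θ) (s := Real.sin θ) hω (Real.cos_sq_add_sin_sq θ)
    ⟨hP, hPH⟩ hg

theorem IsClifford.unitary {g : Op n} (hg : IsClifford g) : gᴴ * g = 1 := by
  have := hg.1
  rw [Matrix.mem_unitaryGroup_iff'] at this
  exact this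

/-- the observable `Z` on qubit `q` -/
def Zq (q : Fin n) : Op n := XZ 0 (Pi.single q 1)

theorem dot_single (q : Fin n) (x : Basis n) : dot (Pi.single q 1) x = x q := by
  unfold dot
  rw [Finset.sum_eq_single q]
  · simp
  · intro i _ hi
    rw [Pi.single_eq_of_ne hi, zero_mul]
  · intro h; exact absurd (Finset.mem_univ q) h

theorem Zq_hp (q : Fin n) : HP (Zq q) := by
  refine ⟨⟨1, 0, Pi.single q 1, by norm_num, by rw [one_smul]; rfl⟩, ?_⟩
  unfold Matrix.IsHermitian Zq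
  rw [XZ_conjTranspose]
  have : dot (Pi.single q 1) (0 : Basis n) = 0 := by simp [dot]
  rw [this, sgn_zero, one_smul]

theorem expect_Zq {U : Op n} (hU : Uᴴ * U = 1) (q : Fin n) (x : Basis n) :
    (Uᴴ * Zq q * U) x x = 1 - 2 * ((∑ y : Basis n with y q = 1, ‖U y x‖ ^ 2 : ℝ) : ℂ) := by
  have h1 : (Uᴴ * Zq q * U) x x = ∑ y, sgn (y q) * ((‖U y x‖ ^ 2 : ℝ) : ℂ) := by
    rw [Matrix.mul_assoc, Matrix.mul_apply]
    refine Finset.sum_congr rfl fun y _ => ?_
    rw [Matrix.mul_apply, Finset.sum_eq_single y]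
    · rw [Matrix.conjTranspose_apply]
      unfold Zq
      rw [XZ_apply, if_pos (by simp), dot_single]
      have : ((‖U y x‖ ^ 2 : ℝ) : ℂ) = star (U y x) * U y x := by
        change _ = (starRingEnd ℂ) (U y x) * U y x
        rw [mul_comm, Complex.mul_conj, Complex.normSq_eq_norm_sq]
      rw [this]; ring
    · intro z _ hz
      unfold Zq
      rw [XZ_apply, if_neg, zero_mul]
      simpa using hz.symm
    · intro h; exact absurd (Finset.mem_univ y) h
  have h2 : ∑ y, ((‖U y x‖ ^ 2 : ℝ) : ℂ) = 1 := by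
    have h3 : (Uᴴ * U) x x = 1 := by rw [hU, Matrix.one_apply_eq]
    rw [Matrix.mul_apply] at h3
    rw [← h3]
    refine Finset.sum_congr rfl fun y _ => ?_
    rw [Matrix.conjTranspose_apply]
    change _ = (starRingEnd ℂ) (U y x) * U y x
    rw [mul_comm, Complex.mul_conj, Complex.normSq_eq_norm_sq]
  rw [h1, ← h2, Complex.ofReal_sum, Finset.mul_sum, Finset.sum_filter, ← Finset.sum_sub_distrib]
  refine Finset.sum_congr rfl fun y _ => ?_
  rcases zmod2_cases (y q) with h | h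
  · rw [h, sgn_zero, if_neg (by decide)]; ring
  · rw [h, sgn_one, if_pos rfl]; ring

theorem prod_good (C : List (Op n)) (hC : ∀ g ∈ C, IsClifford g ∨ IsRationalRotation g) :
    Good C.prod ∧ C.prodᴴ * C.prod = 1 := by
  induction C with
  | nil => exact ⟨Good.one, by simp⟩
  | cons g C ih =>
    obtain ⟨h1, h2⟩ := ih fun g' hg' => hC g' (List.mem_cons_of_mem _ hg')
    have hg := hC g List.mem_cons_self
    have hgood : Good g := hg.elim IsClifford.good IsRationalRotation.good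
    have hun : gᴴ * g = 1 := hg.elim IsClifford.unitary IsRationalRotation.unitary
    rw [List.prod_cons]
    refine ⟨hgood.mul h1, ?_⟩
    rw [Matrix.conjTranspose_mul, Matrix.mul_assoc, ← Matrix.mul_assoc gᴴ, hun, Matrix.one_mul,
      h2]

theorem not_fourOdd_one {r : ℂ} (h : FourOdd r) : r ≠ 1 ∧ r ≠ -1 ∧ r ≠ 2 ∧ r ≠ -2 := by
  obtain ⟨a, d, hd, h⟩ := h
  obtain ⟨k, hk⟩ := hd
  refine ⟨?_, ?_, ?_, ?_⟩ <;> rintro rfl
  · have : (d : ℤ) = 4 * a := by
      have h' : ((d : ℤ) : ℂ) = ((4 * a : ℤ) : ℂ) := by push_cast; linear_combination h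
      exact_mod_cast h'
    omega
  · have : (d : ℤ) = -4 * a := by
      have h' : ((d : ℤ) : ℂ) = ((-4 * a : ℤ) : ℂ) := by push_cast; linear_combination -h
      exact_mod_cast h'
    omega
  · have : 2 * (d : ℤ) = 4 * a := by
      have h' : ((2 * d : ℤ) : ℂ) = ((4 * a : ℤ) : ℂ) := by push_cast; linear_combination h
      exact_mod_cast h'
    omega
  · have : 2 * (d : ℤ) = -4 * a := by
      have h' : ((2 * d : ℤ) : ℂ) = ((-4 * a : ℤ) : ℂ) := by push_cast; linear_combination -h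
      exact_mod_cast h'
    omega

/-- Whenever the output of the circuit is certain, it is given by a fixed affine function. -/
theorem exact_affine (C : List (Op n)) (hC : ∀ g ∈ C, IsClifford g ∨ IsRationalRotation g)
    (q : Fin n) : ∃ (b : Basis n) (e : ZMod 2), ∀ x : Basis n,
      (outProb C q x = 0 → dot b x + e = 0) ∧ (outProb C q x = 1 → dot b x + e = 1) := by
  obtain ⟨hgood, hun⟩ := prod_good C hC
  obtain ⟨Q, hQ, hmem⟩ := hgood.1 (Zq q) (Zq_hp q)
  obtain ⟨b, e, hdiag⟩ := hQ.diag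
  refine ⟨b, e, fun x => ?_⟩
  have h1 := Lam_diag hmem x
  rw [Matrix.sub_apply, expect_Zq hun] at h1
  change FourOdd (1 - 2 * ((outProb C q x : ℝ) : ℂ) - Q x x) at h1
  rcases hdiag with h0 | h0
  · rw [h0 x] at h1
    constructor
    · intro hp
      rw [hp] at h1
      exact absurd (by push_cast; ring) (not_fourOdd_one h1).1
    · intro hp
      rw [hp] at h1
      exact absurd (by push_cast; ring) (not_fourOdd_one h1).2.1
  · rw [h0 x] at h1
    rcases zmod2_cases (dot b x + e) with h | h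
    · rw [h, sgn_zero] at h1
      refine ⟨fun _ => h, fun hp => ?_⟩
      rw [hp] at h1
      exact absurd (by push_cast; ring) (not_fourOdd_one h1).2.2.2
    · rw [h, sgn_one] at h1
      refine ⟨fun hp => ?_, fun _ => h⟩
      rw [hp] at h1
      exact absurd (by push_cast; ring) (not_fourOdd_one h1).2.2.1

end Pool.Agent.H543R2
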