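import Mathlib
import Pool.Agent.H543R2.QTMDefs
import Pool.Agent.H543R2.QTMOdd

/-! Simulation of a deterministic single-tape machine by a `Turing.FinTM2` in polynomial time. -/

namespace Pool.Agent.H543R2

open scoped BigOperators
open Turing

namespace Sim

/-- stacks -/
inductive K
  | inp | left | right | out
  deriving DecidableEq, Fintype

/-- labels -/
inductive Lbl
  | rd | mv | run | cl | cr
  deriving DecidableEq, Fintype

variable (M : QTM) (D : M.Q → M.Γ → M.Q × M.Γ × Dir)

/-- stack alphabets -/
@[reducible] def SΓ : K → Type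
  | .inp => Bool
  | .left => M.Γ
  | .right => M.Γ
  | .out => Bool

instance : Fintype (SΓ M K.inp) := inferInstanceAs (Fintype Bool)

/-- internal variable: state, symbol, direction, flag, output bit -/
abbrev V := M.Q × M.Γ × Dir × Bool × Bool

/-- initial variable -/
def v0 : V M := (M.start, M.blank, Dir.stay, false, false)

/-- the program -/
def prog : Lbl → TM2.Stmt (SΓ M) Lbl (V M)
  | .rd =>
    .pop K.inp (fun v (a : Option Bool) => (v.1, v.2.1, v.2.2.1, a.isSome, v.2.2.2.2)) <|
    .branch (fun v => v.2.2.2.1)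
      (.pop K.inp (fun v (a : Option Bool) => (v.1, v.2.1, v.2.2.1, v.2.2.2.1, a.getD false)) <|
       .pop K.inp (fun v _ => v) <|
       .push K.left (fun v => (M.inp v.2.2.2.2 : M.Γ)) <|
       .goto fun _ => .rd)
      (.goto fun _ => .mv)
  | .mv =>
    .pop K.left (fun v (a : Option M.Γ) => (v.1, a.getD M.blank, v.2.2.1, a.isSome, v.2.2.2.2)) <|
    .branch (fun v => v.2.2.2.1)
      (.push K.right (fun v => (v.2.1 : M.Γ)) <| .goto fun _ => .mv)
      (.load (fun v => (M.start, v.2)) <| .goto fun _ => .run)
  | .run =>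
    .branch (fun v => M.halting v.1)
      (.pop K.right (fun v (a : Option M.Γ) => (v.1, a.getD M.blank, v.2.2)) <|
       .load (fun v => (v.1, v.2.1, v.2.2.1, v.2.2.2.1, M.accept v.1 v.2.1)) <|
       .goto fun _ => .cl)
      (.pop K.right (fun v (a : Option M.Γ) => (v.1, a.getD M.blank, v.2.2)) <|
       .load (fun v => ((D v.1 v.2.1).1, (D v.1 v.2.1).2.1, (D v.1 v.2.1).2.2, v.2.2.2)) <|
       .branch (fun v => decide (v.2.2.1 = Dir.right))
         (.push K.left (fun v => (v.2.1 : M.Γ)) <| .goto fun _ => .run)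
         (.branch (fun v => decide (v.2.2.1 = Dir.stay))
           (.push K.right (fun v => (v.2.1 : M.Γ)) <| .goto fun _ => .run)
           (.push K.right (fun v => (v.2.1 : M.Γ)) <|
            .pop K.left (fun v (a : Option M.Γ) => (v.1, a.getD M.blank, v.2.2)) <|
            .push K.right (fun v => (v.2.1 : M.Γ)) <| .goto fun _ => .run)))
  | .cl =>
    .pop K.left (fun v (a : Option M.Γ) => (v.1, v.2.1, v.2.2.1, a.isSome, v.2.2.2.2)) <|
    .branch (fun v => v.2.2.2.1) (.goto fun _ => .cl) (.goto fun _ => .cr)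
  | .cr =>
    .pop K.right (fun v (a : Option M.Γ) => (v.1, v.2.1, v.2.2.1, a.isSome, v.2.2.2.2)) <|
    .branch (fun v => v.2.2.2.1) (.goto fun _ => .cr)
      (.push K.out (fun v => (v.2.2.2.2 : Bool)) <| .load (fun _ => v0 M) <| .halt)

/-- the machine -/
noncomputable def tm : FinTM2 where
  K := K
  k₀ := K.inp
  k₁ := K.out
  Γ := SΓ M
  Λ := Lbl
  main := Lbl.rd
  σ := V M
  initialState := v0 M
  m := prog M D

/-- input alphabet -/
def eIn : (tm M D).Γ (tm M D).k₀ ≃ Bool := Equiv.refl Bool

/-- output alphabet -/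
def eOut : (tm M D).Γ (tm M D).k₁ ≃ Bool := Equiv.refl Bool

/-- stack assignments -/
def mkS (i : List Bool) (l r : List M.Γ) (o : List Bool) : ∀ k, List (SΓ M k)
  | .inp => i
  | .left => l
  | .right => r
  | .out => o

variable {M}

@[simp] theorem mkS_inp (i : List Bool) (l r : List M.Γ) (o : List Bool) :
    mkS M i l r o K.inp = i := rfl
@[simp] theorem mkS_left (i : List Bool) (l r : List M.Γ) (o : List Bool) :
    mkS M i l r o K.left = l := rfl
@[simp] theorem mkS_right (i : List Bool) (l r : List M.Γ) (o : List Bool) :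
    mkS M i l r o K.right = r := rfl
@[simp] theorem mkS_out (i : List Bool) (l r : List M.Γ) (o : List Bool) :
    mkS M i l r o K.out = o := rfl

@[simp] theorem upd_inp (i i' : List Bool) (l r : List M.Γ) (o : List Bool) :
    Function.update (mkS M i l r o) K.inp i' = mkS M i' l r o := by
  funext k; cases k <;> simp [Function.update]
@[simp] theorem upd_left (i : List Bool) (l l' r : List M.Γ) (o : List Bool) :
    Function.update (mkS M i l r o) K.left l' = mkS M i l' r o := by
  funext k; cases k <;> simp [Function.update]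
@[simp] theorem upd_right (i : List Bool) (l r r' : List M.Γ) (o : List Bool) :
    Function.update (mkS M i l r o) K.right r' = mkS M i l r' o := by
  funext k; cases k <;> simp [Function.update]
@[simp] theorem upd_out (i : List Bool) (l r : List M.Γ) (o o' : List Bool) :
    Function.update (mkS M i l r o) K.out o' = mkS M i l r o' := by
  funext k; cases k <;> simp [Function.update]

variable (M)

/-- configurations -/
abbrev C := TM2.Cfg (SΓ M) Lbl (V M)

/-- `n` steps lead from `a` to `b` -/
def Rn (n : ℕ) (a b : C M) : Prop :=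
  (flip bind (TM2.step (prog M D)))^[n] (some a) = some b

variable {M D}

theorem Rn.refl (a : C M) : Rn M D 0 a a := rfl

theorem Rn.trans {n m : ℕ} {a b c : C M} (h₁ : Rn M D n a b) (h₂ : Rn M D m b c) :
    Rn M D (n + m) a c := by
  unfold Rn at *
  rw [add_comm, Function.iterate_add_apply, h₁, h₂]

theorem Rn.step {a b : C M} (h : TM2.step (prog M D) a = some b) : Rn M D 1 a b := by
  unfold Rn
  simp [flip, h]

theorem Rn.cons {n : ℕ} {a b c : C M} (h : TM2.step (prog M D) a = some b) (h₂ : Rn M D n b c) :
    Rn M D (n + 1) a c := by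
  rw [add_comm]; exact (Rn.step h).trans h₂

/-- encoding of the input as in the Prelude -/
def enc (x : List Bool) : List Bool := (x.map fun b => [true, b, false]).flatten

theorem phase_rd (x : List Bool) : ∀ (v : V M) (l : List M.Γ), ∃ v' : V M,
    Rn M D (x.length + 1) ⟨some Lbl.rd, v, mkS M (enc x) l [] []⟩
      ⟨some Lbl.mv, v', mkS M [] ((x.map M.inp).reverse ++ l) [] []⟩ := by
  induction x with
  | nil =>
    intro v l
    refine ⟨(v.1, v.2.1, v.2.2.1, false, v.2.2.2.2), Rn.step ?_⟩
    simp [enc, prog]
  | cons b x ih =>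
    intro v l
    obtain ⟨v', hv'⟩ := ih (v.1, v.2.1, v.2.2.1, true, b) (M.inp b :: l)
    refine ⟨v', Rn.cons ?_ (by simpa using hv')⟩
    simp [enc, prog]

theorem phase_mv (l : List M.Γ) : ∀ (v : V M) (r : List M.Γ), ∃ v' : V M, v'.1 = M.start ∧
    Rn M D (l.length + 1) ⟨some Lbl.mv, v, mkS M [] l r []⟩
      ⟨some Lbl.run, v', mkS M [] [] (l.reverse ++ r) []⟩ := by
  induction l with
  | nil =>
    intro v r
    refine ⟨(M.start, M.blank, v.2.2.1, false, v.2.2.2.2), rfl, Rn.step ?_⟩
    simp [prog]
  | cons a l ih =>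
    intro v r
    obtain ⟨v', h1, hv'⟩ := ih (v.1, a, v.2.2.1, true, v.2.2.2.2) (a :: r)
    refine ⟨v', h1, Rn.cons ?_ (by simpa using hv')⟩
    simp [prog]

theorem phase_cl (l : List M.Γ) : ∀ (v : V M) (r : List M.Γ), ∃ v' : V M,
    v'.2.2.2.2 = v.2.2.2.2 ∧
    Rn M D (l.length + 1) ⟨some Lbl.cl, v, mkS M [] l r []⟩
      ⟨some Lbl.cr, v', mkS M [] [] r []⟩ := by
  induction l with
  | nil =>
    intro v r
    refine ⟨(v.1, v.2.1, v.2.2.1, false, v.2.2.2.2), rfl, Rn.step ?_⟩
    simp [prog]
  | cons a l ih =>
    intro v r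
    obtain ⟨v', h1, hv'⟩ := ih (v.1, v.2.1, v.2.2.1, true, v.2.2.2.2) r
    refine ⟨v', h1, Rn.cons ?_ hv'⟩
    simp [prog]

theorem phase_cr (r : List M.Γ) : ∀ (v : V M),
    Rn M D (r.length + 1) ⟨some Lbl.cr, v, mkS M [] [] r []⟩
      ⟨none, v0 M, mkS M [] [] [] [v.2.2.2.2]⟩ := by
  induction r with
  | nil =>
    intro v
    refine Rn.step ?_
    simp [prog]
  | cons a l ih =>
    intro v
    refine Rn.cons ?_ (ih (v.1, v.2.1, v.2.2.1, true, v.2.2.2.2))
    simp [prog]

/-- The stacks `l`, `r` and the state represent the configuration `c`. -/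
def Rep (c : M.Config) (v : V M) (l r : List M.Γ) : Prop :=
  v.1 = c.state ∧ (∀ i : ℕ, (l[i]?).getD M.blank = c.tape (c.pos - 1 - i)) ∧
    (∀ i : ℕ, (r[i]?).getD M.blank = c.tape (c.pos + i))

theorem head_getD (r : List M.Γ) : r.head?.getD M.blank = (r[0]?).getD M.blank := by
  cases r <;> simp

theorem tail_getD (r : List M.Γ) (i : ℕ) : ((r.tail)[i]?) = r[i+1]? := by
  cases r <;> simp

theorem step_run (c : M.Config) (v : V M) (l r : List M.Γ) (h : Rep c v l r)
    (hh : M.halting c.state = false) :
    ∃ (v' : V M) (l' r' : List M.Γ), Rep (c.next D) v' l' r' ∧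
      l'.length + r'.length ≤ l.length + r.length + 2 ∧
      TM2.step (prog M D) ⟨some Lbl.run, v, mkS M [] l r []⟩ =
        some ⟨some Lbl.run, v', mkS M [] l' r' []⟩ := by
  obtain ⟨h1, h2, h3⟩ := h
  have hs : r.head?.getD M.blank = c.tape c.pos := by
    rw [head_getD, h3 0]; simp
  have hl : l.head?.getD M.blank = c.tape (c.pos - 1) := by
    rw [head_getD, h2 0]; simp
  set t := D c.state (c.tape c.pos) with ht
  have hnext : c.next D = c.move t.1 t.2.1 t.2.2 := rfl
  rcases hd : t.2.2 with _ | _ | _
  · -- left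
    refine ⟨(t.1, l.head?.getD M.blank, Dir.left, v.2.2.2), l.tail,
      l.head?.getD M.blank :: t.2.1 :: r.tail, ⟨?_, ?_, ?_⟩, ?_, ?_⟩
    · rw [hnext]; rfl
    · intro i
      rw [hnext, hd, tail_getD, h2]
      simp only [QTM.Config.move, Dir.shift]
      rw [Function.update_of_ne (by omega)]
      congr 1; push_cast; ring
    · intro i
      rw [hnext, hd]
      simp only [QTM.Config.move, Dir.shift]
      rcases i with _ | _ | i
      · simp only [List.getElem?_cons_zero, Option.getD_some, hl]
        rw [Function.update_of_ne (by omega)]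
        congr 1; push_cast; ring
      · simp
      · simp only [List.getElem?_cons_succ]
        rw [tail_getD, h3]
        rw [Function.update_of_ne (by omega)]
        congr 1; push_cast; ring
    · cases l <;> cases r <;> simp only [List.length_cons, List.length_nil, List.tail_cons, List.tail_nil] <;> omega
    · simp [prog, h1, hh, hs, ← ht, hd]
  · -- stay
    refine ⟨(t.1, t.2.1, Dir.stay, v.2.2.2), l, t.2.1 :: r.tail, ⟨?_, ?_, ?_⟩, ?_, ?_⟩
    · rw [hnext]; rfl
    · intro i
      rw [hnext, hd, h2]
      simp only [QTM.Config.move, Dir.shift]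
      rw [Function.update_of_ne (by omega)]
      congr 1; push_cast; ring
    · intro i
      rw [hnext, hd]
      simp only [QTM.Config.move, Dir.shift]
      rcases i with _ | i
      · simp
      · simp only [List.getElem?_cons_succ]
        rw [tail_getD, h3]
        rw [Function.update_of_ne (by omega)]
        congr 1; push_cast; ring
    · cases l <;> cases r <;> simp only [List.length_cons, List.length_nil, List.tail_cons, List.tail_nil] <;> omega
    · simp [prog, h1, hh, hs, ← ht, hd]
  · -- right
    refine ⟨(t.1, t.2.1, Dir.right, v.2.2.2), t.2.1 :: l, r.tail, ⟨?_, ?_, ?_⟩, ?_, ?_⟩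
    · rw [hnext]; rfl
    · intro i
      rw [hnext, hd]
      simp only [QTM.Config.move, Dir.shift]
      rcases i with _ | i
      · simp
      · simp only [List.getElem?_cons_succ]
        rw [h2]
        rw [Function.update_of_ne (by omega)]
        congr 1; push_cast; ring
    · intro i
      rw [hnext, hd, tail_getD, h3]
      simp only [QTM.Config.move, Dir.shift]
      rw [Function.update_of_ne (by omega)]
      congr 1; push_cast; ring
    · cases l <;> cases r <;> simp only [List.length_cons, List.length_nil, List.tail_cons, List.tail_nil] <;> omega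
    · simp [prog, h1, hh, hs, ← ht, hd]

theorem phase_run (T : ℕ) : ∀ (c : M.Config) (v : V M) (l r : List M.Γ), Rep c v l r →
    (∀ t < T, M.halting ((QTM.Config.next D)^[t] c).state = false) →
    ∃ (v' : V M) (l' r' : List M.Γ), Rep ((QTM.Config.next D)^[T] c) v' l' r' ∧
      l'.length + r'.length ≤ l.length + r.length + 2 * T ∧
      Rn M D T ⟨some Lbl.run, v, mkS M [] l r []⟩ ⟨some Lbl.run, v', mkS M [] l' r' []⟩ := by
  induction T with
  | zero =>
    intro c v l r h _
    exact ⟨v, l, r, h, by omega, Rn.refl _⟩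
  | succ T ih =>
    intro c v l r h hh
    obtain ⟨v₁, l₁, r₁, hrep₁, hlen₁, hstep⟩ := step_run (D := D) c v l r h
      (by simpa using hh 0 (by omega))
    obtain ⟨v', l', r', hrep, hlen, hrun⟩ := ih (c.next D) v₁ l₁ r₁ hrep₁ (fun t ht => by
      have := hh (t + 1) (by omega)
      rwa [Function.iterate_succ_apply] at this)
    refine ⟨v', l', r', ?_, by omega, Rn.cons hstep hrun⟩
    rw [Function.iterate_succ_apply]
    exact hrep

theorem step_halt (c : M.Config) (v : V M) (l r : List M.Γ) (h : Rep c v l r)
    (hh : M.halting c.state = true) :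
    ∃ (v' : V M) (r' : List M.Γ), v'.2.2.2.2 = M.accept c.state (c.tape c.pos) ∧
      r'.length ≤ r.length ∧
      TM2.step (prog M D) ⟨some Lbl.run, v, mkS M [] l r []⟩ =
        some ⟨some Lbl.cl, v', mkS M [] l r' []⟩ := by
  obtain ⟨h1, h2, h3⟩ := h
  have hs : r.head?.getD M.blank = c.tape c.pos := by
    rw [head_getD, h3 0]; simp
  refine ⟨(c.state, c.tape c.pos, v.2.2.1, v.2.2.2.1, M.accept c.state (c.tape c.pos)), r.tail,
    rfl, ?_, ?_⟩
  · simp
  · simp [prog, h1, hh, hs]

theorem rep_init (x : List Bool) (v : V M) (hv : v.1 = M.start) :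
    Rep (M.init x) v [] (x.map M.inp) := by
  refine ⟨hv, ?_, ?_⟩
  · intro i
    simp only [QTM.init]
    rw [if_neg (by omega)]
    simp
  · intro i
    simp only [QTM.init]
    rw [if_pos (by omega)]
    simp

theorem whole (x : List Bool) (T : ℕ) (b : Bool)
    (h1 : ∀ t < T, M.halting ((QTM.Config.next D)^[t] (M.init x)).state = false)
    (h2 : M.halting ((QTM.Config.next D)^[T] (M.init x)).state = true)
    (h3 : M.accept ((QTM.Config.next D)^[T] (M.init x)).state
      (((QTM.Config.next D)^[T] (M.init x)).tape ((QTM.Config.next D)^[T] (M.init x)).pos) = b) :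
    ∃ n ≤ 3 * x.length + 3 * T + 10,
      Rn M D n ⟨some Lbl.rd, v0 M, mkS M (enc x) [] [] []⟩
        ⟨none, v0 M, mkS M [] [] [] [b]⟩ := by
  obtain ⟨v₁, ha⟩ := phase_rd (D := D) x (v0 M) []
  obtain ⟨v₂, hv₂, hb⟩ := phase_mv (D := D) ((x.map M.inp).reverse ++ []) v₁ []
  simp only [List.append_nil, List.reverse_reverse, List.length_reverse, List.length_map] at ha hb
  obtain ⟨v₃, l₃, r₃, hrep, hlen, hc⟩ := phase_run (D := D) T (M.init x) v₂ [] (x.map M.inp)
    (rep_init x v₂ hv₂) h1
  obtain ⟨v₄, r₄, hv₄, hr₄, hd⟩ := step_halt (D := D) _ v₃ l₃ r₃ hrep h2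
  obtain ⟨v₅, hv₅, he⟩ := phase_cl (D := D) l₃ v₄ r₄
  have hf := phase_cr (D := D) r₄ v₅
  rw [hv₅, hv₄, h3] at hf
  have hall := (((((ha.trans hb).trans hc).trans (Rn.step hd)).trans he).trans hf)
  refine ⟨_, ?_, hall⟩
  simp only [List.length_nil, List.length_map] at hlen
  omega

/-- The language decided by a deterministic machine whose time is bounded by a polynomial is in
`P`. -/
theorem mem_P (L : List Bool → Bool) (D : M.Q → M.Γ → M.Q × M.Γ × Dir) (p : Polynomial ℕ)
    (h : ∀ x : List Bool, ∃ T ≤ p.eval x.length,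
      (∀ t < T, M.halting ((QTM.Config.next D)^[t] (M.init x)).state = false) ∧
      M.halting ((QTM.Config.next D)^[T] (M.init x)).state = true ∧
      M.accept ((QTM.Config.next D)^[T] (M.init x)).state
        (((QTM.Config.next D)^[T] (M.init x)).tape ((QTM.Config.next D)^[T] (M.init x)).pos) = L x) :
    L ∈ N68a2faeb.P := by
  classical
  have hencB : ∀ b : Bool, (N487b59b3.bitEncode b) = [b] := fun b => rfl
  have henc : ∀ x : List Bool,
      (N487b59b3.toEncoding (α := List Bool)).encode x = enc x := by
    intro x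
    change ((x.map N487b59b3.bitEncode).map N487b59b3.delimit).flatten = enc x
    unfold enc
    rw [List.map_map]
    congr 1
  have hlen : ∀ x : List Bool, (enc x).length = 3 * x.length := by
    intro x
    induction x with
    | nil => rfl
    | cons b x ih =>
      have : enc (b :: x) = true :: b :: false :: enc x := by simp [enc]
      rw [this]
      simp only [List.length_cons, ih]; ring
  have key : ∀ x : List Bool, ∃ n ≤ (3 * Polynomial.X + 3 * p + 10).eval (enc x).length,
      Rn M D n ⟨some Lbl.rd, v0 M, mkS M (enc x) [] [] []⟩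
        ⟨none, v0 M, mkS M [] [] [] [L x]⟩ := by
    intro x
    obtain ⟨T, hT, h1, h2, h3⟩ := h x
    obtain ⟨n, hn, hR⟩ := whole (D := D) x T (L x) h1 h2 h3
    refine ⟨n, hn.trans ?_, hR⟩
    have hmono : p.eval x.length ≤ p.eval (enc x).length := by
      rw [hlen]
      have : Monotone fun k : ℕ => p.eval k := by
        intro a b hab
        simp only [Polynomial.eval_eq_sum, Polynomial.sum]
        exact Finset.sum_le_sum fun i _ => Nat.mul_le_mul_left _ (Nat.pow_le_pow_left hab _)
      exact this (by omega)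
    simp only [Polynomial.eval_add, Polynomial.eval_mul, Polynomial.eval_X,
      Polynomial.eval_ofNat]
    have : x.length ≤ (enc x).length := by rw [hlen]; omega
    omega
  choose n hn hR using key
  refine ⟨{ tm := tm M D
            inputAlphabet := eIn M D
            outputAlphabet := eOut M D
            time := 3 * Polynomial.X + 3 * p + 10
            outputsFun := fun x => ?_ }⟩
  refine ⟨⟨n x, ?_⟩, ?_⟩
  · have e1 : List.map (eIn M D).invFun
        ((N487b59b3.toEncoding (α := List Bool)).encode x) = enc x := by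
      rw [henc]; exact List.map_id _
    have e2 : List.map (eOut M D).invFun
        ((N487b59b3.toEncoding (α := Bool)).encode (L x)) = [L x] := by
      rfl
    have e3 : initList (tm M D) (enc x) = ⟨some Lbl.rd, v0 M, mkS M (enc x) [] [] []⟩ := by
      unfold initList
      congr 1
      funext k
      cases k <;> rfl
    have e4 : haltList (tm M D) [L x] = ⟨none, v0 M, mkS M [] [] [] [L x]⟩ := by
      unfold haltList
      congr 1
      funext k
      cases k <;> rfl
    have e5 := (congrArg (initList (tm M D)) e1).trans e3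
    have e6 := (congrArg (haltList (tm M D)) e2).trans e4
    have e7 : (flip bind (TM2.step (prog M D)))^[n x]
        (some ⟨some Lbl.rd, v0 M, mkS M (enc x) [] [] []⟩) =
        some ⟨none, v0 M, mkS M [] [] [] [L x]⟩ := hR x
    exact (congrArg (fun c => (flip bind (tm M D).step)^[n x] (some c)) e5).trans
      (Eq.trans e7 (congrArg some e6).symm)
  · have := hn x
    rw [← henc x] at this
    exact this

end Sim

end Pool.Agent.H543R2
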