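import Mathlib
import Pool.Agent.H543R2.QTMDefs

/-! Quantum query algorithms with sparse odd rational gates, and decision trees. -/

namespace Pool.Agent.H543R2

open scoped BigOperators

/-- The computational basis: a query register `ι`, an answer bit, and a work register `W`. -/
abbrev QBasis (ι W : Type) := ι × Bool × W

/-- A gate: a unitary matrix whose entries are Gaussian rationals with odd denominator, and each
of whose columns has at most two nonzero entries, or else is real with at most four nonzero
entries. (Every classical reversible gate, and every one-qubit gate with Gaussian rational entries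
of odd denominator, tensored with the identity or controlled by other qubits, is of this kind.) -/
def IsSparseOddGate {B : Type} [Fintype B] [DecidableEq B] (U : Matrix B B ℂ) : Prop :=
  U ∈ Matrix.unitaryGroup B ℂ ∧ (∀ y x, GaussOdd (U y x)) ∧
    ∀ x, (Finset.univ.filter fun y => U y x ≠ 0).card ≤ 2 ∨
      ((∀ y, (U y x).im = 0) ∧ (Finset.univ.filter fun y => U y x ≠ 0).card ≤ 4)

/-- One step of a query algorithm: a gate or a query. -/
inductive QStep (ι W : Type)
  | gate (U : Matrix (QBasis ι W) (QBasis ι W) ℂ)
  | query

/-- The effect of a step on a state vector, for the input `x : ι → Bool`. A query sends the basis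
state `|i, b, w⟩` to `|i, b ⊕ x i, w⟩`. -/
noncomputable def QStep.apply {ι W : Type} [Fintype ι] [Fintype W] (x : ι → Bool) :
    QStep ι W → (QBasis ι W → ℂ) → (QBasis ι W → ℂ)
  | .gate U, ψ => U.mulVec ψ
  | .query, ψ => fun c => ψ (c.1, xor c.2.1 (x c.1), c.2.2)

/-- A quantum query algorithm: a list of steps, an initial basis state, and a set of accepting
basis states. -/
structure QAlg (ι W : Type) where
  steps : List (QStep ι W)
  start : QBasis ι W
  accept : QBasis ι W → Bool

/-- All gates of the algorithm are sparse odd gates. -/
def QAlg.SparseOdd {ι W : Type} [Fintype ι] [DecidableEq ι] [Fintype W] [DecidableEq W]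
    (A : QAlg ι W) : Prop :=
  ∀ U, QStep.gate U ∈ A.steps → IsSparseOddGate U

/-- The number of queries. -/
def QStep.cost {ι W : Type} : QStep ι W → ℕ
  | .gate _ => 0
  | .query => 1

/-- The number of queries made by the algorithm. -/
def QAlg.queries {ι W : Type} (A : QAlg ι W) : ℕ := (A.steps.map QStep.cost).sum

/-- The final state on input `x` (the first step of the list is applied first). -/
noncomputable def QAlg.final {ι W : Type} [Fintype ι] [DecidableEq ι] [Fintype W] [DecidableEq W]
    (A : QAlg ι W) (x : ι → Bool) : QBasis ι W → ℂ :=
  A.steps.foldl (fun ψ s => s.apply x ψ) (Pi.single A.start 1)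

/-- The acceptance probability on input `x`. -/
noncomputable def QAlg.acceptProb {ι W : Type} [Fintype ι] [DecidableEq ι] [Fintype W]
    [DecidableEq W] (A : QAlg ι W) (x : ι → Bool) : ℝ :=
  ∑ c : QBasis ι W with A.accept c = true, ‖A.final x c‖ ^ 2

/-- Deterministic decision trees querying the bits `x i`. -/
inductive DTree (ι : Type)
  | leaf (b : Bool)
  | node (i : ι) (t₀ t₁ : DTree ι)

/-- The value computed by a decision tree. -/
def DTree.eval {ι : Type} (x : ι → Bool) : DTree ι → Bool
  | .leaf b => b
  | .node i t₀ t₁ => if x i = true then t₁.eval x else t₀.eval x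

/-- The depth of a decision tree. -/
def DTree.depth {ι : Type} : DTree ι → ℕ
  | .leaf _ => 0
  | .node _ t₀ t₁ => 1 + max t₀.depth t₁.depth

end Pool.Agent.H543R2
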