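import Mathlib
import Pool.Agent.H543R2.QueryDefs
import Pool.Agent.H543R2.Cong

namespace Pool.Agent.H543R2

set_option linter.unusedSectionVars false

open scoped BigOperators

variable {ι W : Type} [Fintype ι] [DecidableEq ι] [Fintype W] [DecidableEq W]

theorem col_unit {B : Type} [Fintype B] [DecidableEq B] {U : Matrix B B ℂ}
    (hU : U ∈ Matrix.unitaryGroup B ℂ) (x : B) : ∑ y, ‖U y x‖ ^ 2 = 1 := by
  rw [Matrix.mem_unitaryGroup_iff'] at hU
  have h := congrFun (congrFun hU x) x
  rw [Matrix.star_eq_conjTranspose, Matrix.mul_apply, Matrix.one_apply_eq] at h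
  have h2 : ((∑ y, ‖U y x‖ ^ 2 : ℝ) : ℂ) = 1 := by
    rw [← h, Complex.ofReal_sum]
    refine Finset.sum_congr rfl fun y _ => ?_
    rw [Matrix.conjTranspose_apply]
    change _ = (starRingEnd ℂ) (U y x) * U y x
    rw [mul_comm, Complex.mul_conj, Complex.normSq_eq_norm_sq]
  exact_mod_cast h2

theorem gate_col {B : Type} [Fintype B] [DecidableEq B] {U : Matrix B B ℂ}
    (hU : IsSparseOddGate U) (x : B) :
    ∃ y₀, ∀ y, Cong (U y x) (if y = y₀ then 1 else 0) :=
  exists_unique_odd (fun y => U y x) (fun y => hU.2.1 y x) (col_unit hU.1 x) (hU.2.2 x)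

open Classical in
/-- the odd entry of a column -/
noncomputable def gateMap {B : Type} [Fintype B] [DecidableEq B] (U : Matrix B B ℂ) (x : B) : B :=
  if h : ∃ y₀, ∀ y, Cong (U y x) (if y = y₀ then 1 else 0) then h.choose else x

theorem gateMap_spec {B : Type} [Fintype B] [DecidableEq B] {U : Matrix B B ℂ}
    (hU : IsSparseOddGate U) (x y : B) : Cong (U y x) (if y = gateMap U x then 1 else 0) := by
  unfold gateMap
  rw [dif_pos (gate_col hU x)]
  exact (gate_col hU x).choose_spec y

/-- the decision tree following the odd branch -/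
noncomputable def mkTree (acc : QBasis ι W → Bool) : List (QStep ι W) → QBasis ι W → DTree ι
  | [], c => .leaf (acc c)
  | .gate U :: s, c => mkTree acc s (gateMap U c)
  | .query :: s, c => .node c.1 (mkTree acc s c) (mkTree acc s (c.1, !c.2.1, c.2.2))

theorem mkTree_depth (acc : QBasis ι W → Bool) (s : List (QStep ι W)) :
    ∀ c, (mkTree acc s c).depth ≤ (s.map QStep.cost).sum := by
  induction s with
  | nil => intro c; simp [mkTree, DTree.depth]
  | cons a s ih =>
    intro c
    cases a with
    | gate U => simpa [mkTree, QStep.cost] using ih (gateMap U c)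
    | query =>
      simp only [mkTree, DTree.depth, List.map_cons, List.sum_cons, QStep.cost]
      have h1 := ih c
      have h2 := ih (c.1, !c.2.1, c.2.2)
      omega

/-- congruence of state vectors to a basis state -/
def VCong (ψ : QBasis ι W → ℂ) (c : QBasis ι W) : Prop :=
  ∀ c', Cong (ψ c') (if c' = c then 1 else 0)

theorem VCong.gate {U : Matrix (QBasis ι W) (QBasis ι W) ℂ} (hU : IsSparseOddGate U)
    {ψ : QBasis ι W → ℂ} {c : QBasis ι W} (h : VCong ψ c) :
    VCong (U.mulVec ψ) (gateMap U c) := by
  intro c'
  have h1 : Cong (∑ d, U c' d * ψ d)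
      (∑ d, (if c' = gateMap U d then (1 : ZMod 2) else 0) * (if d = c then 1 else 0)) :=
    Cong.sum _ _ _ fun d _ => (gateMap_spec hU d c').mul (h d)
  have h2 : (∑ d, (if c' = gateMap U d then (1 : ZMod 2) else 0) * (if d = c then 1 else 0)) =
      if c' = gateMap U c then 1 else 0 := by
    rw [Finset.sum_eq_single c]
    · simp
    · intro d _ hd
      rw [if_neg hd, mul_zero]
    · intro hc; exact absurd (Finset.mem_univ c) hc
  rw [h2] at h1
  exact h1

theorem final_cong (acc : QBasis ι W → Bool) (x : ι → Bool) (s : List (QStep ι W)) :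
    (∀ U, QStep.gate U ∈ s → IsSparseOddGate U) →
    ∀ (ψ : QBasis ι W → ℂ) (c : QBasis ι W), VCong ψ c →
      ∃ c', VCong (s.foldl (fun ψ s => s.apply x ψ) ψ) c' ∧ (mkTree acc s c).eval x = acc c' := by
  induction s with
  | nil =>
    intro _ ψ c h
    exact ⟨c, h, rfl⟩
  | cons a s ih =>
    intro hs ψ c h
    have hs' : ∀ U, QStep.gate U ∈ s → IsSparseOddGate U :=
      fun U hU => hs U (List.mem_cons_of_mem _ hU)
    cases a with
    | gate U =>
      have h1 := h.gate (hs U List.mem_cons_self)
      obtain ⟨c', h2, h3⟩ := ih hs' _ _ h1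
      exact ⟨c', h2, h3⟩
    | query =>
      have h1 : VCong (QStep.apply x QStep.query ψ) (c.1, xor c.2.1 (x c.1), c.2.2) := by
        intro c'
        have h2 := h (c'.1, xor c'.2.1 (x c'.1), c'.2.2)
        have h3 : ((c'.1, xor c'.2.1 (x c'.1), c'.2.2) = c) ↔
            c' = (c.1, xor c.2.1 (x c.1), c.2.2) := by
          constructor
          · rintro rfl
            simp
          · rintro rfl
            simp
        simp only [h3] at h2
        exact h2
      obtain ⟨c', h2, h3⟩ := ih hs' _ _ h1
      refine ⟨c', h2, ?_⟩
      rw [← h3]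
      simp only [mkTree, DTree.eval]
      cases hx : x c.1
      · simp
      · simp

theorem exact_query (A : QAlg ι W) (hA : A.SparseOdd) :
    ∃ t : DTree ι, t.depth ≤ A.queries ∧ ∀ x : ι → Bool,
      (A.acceptProb x = 0 → t.eval x = false) ∧ (A.acceptProb x = 1 → t.eval x = true) := by
  refine ⟨mkTree A.accept A.steps A.start, mkTree_depth _ _ _, fun x => ?_⟩
  have h0 : VCong (Pi.single A.start 1 : QBasis ι W → ℂ) A.start := by
    intro c'
    by_cases h : c' = A.start
    · rw [h, if_pos rfl, Pi.single_eq_same]; exact cong_one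
    · rw [if_neg h, Pi.single_eq_of_ne h]; exact cong_zero
  obtain ⟨c', h1, h2⟩ := final_cong A.accept x A.steps hA _ _ h0
  have h3 : Cong ((A.acceptProb x : ℝ) : ℂ) (if A.accept c' = true then 1 else 0) := by
    unfold QAlg.acceptProb
    rw [Complex.ofReal_sum]
    have h4 := Cong.sum (Finset.univ.filter fun c => A.accept c = true)
      (fun c => ((‖A.final x c‖ ^ 2 : ℝ) : ℂ)) (fun c => if c = c' then 1 else 0)
      (fun c _ => (h1 c).normSq)
    convert h4 using 1
    by_cases ha : A.accept c' = true
    · rw [if_pos ha, Finset.sum_eq_single c']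
      · rw [if_pos rfl]
      · intro c _ hne
        rw [if_neg hne]
      · intro h
        exact absurd (by simp [ha]) h
    · rw [if_neg ha]
      symm
      apply Finset.sum_eq_zero
      intro c hc
      rw [if_neg]
      rintro rfl
      exact ha (Finset.mem_filter.mp hc).2
  have e01 : (0 : ZMod 2) ≠ 1 := by decide
  rw [h2]
  constructor
  · intro hp
    rw [hp] at h3
    cases ha : A.accept c'
    · rfl
    · rw [ha, if_pos rfl] at h3
      have : Cong ((0 : ℝ) : ℂ) 0 := by simpa using cong_zero
      exact absurd (this.unique h3) e01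
  · intro hp
    rw [hp] at h3
    cases ha : A.accept c'
    · rw [ha] at h3
      simp only [Bool.false_eq_true, if_false] at h3
      have : Cong ((1 : ℝ) : ℂ) 1 := by simpa using cong_one
      exact absurd (h3.unique this) e01
    · rfl

/-! ### simulation of decision trees -/

/-- permutation matrix of an involution -/
def permGate {B : Type} [DecidableEq B] (σ : B → B) : Matrix B B ℂ :=
  fun y x => if y = σ x then 1 else 0

theorem permGate_ok {B : Type} [Fintype B] [DecidableEq B] (σ : B → B)
    (hσ : ∀ x, σ (σ x) = x) : IsSparseOddGate (permGate σ) := by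
  have hinj : Function.Injective σ := fun a b h => by rw [← hσ a, h, hσ b]
  refine ⟨?_, ?_, ?_⟩
  · rw [Matrix.mem_unitaryGroup_iff']
    ext y x
    rw [Matrix.star_eq_conjTranspose, Matrix.mul_apply, Finset.sum_eq_single (σ x)]
    · rw [Matrix.conjTranspose_apply]
      simp only [permGate, if_true, mul_one, Matrix.one_apply]
      by_cases h : y = x
      · rw [h]; simp
      · rw [if_neg h, if_neg (fun e => h (hinj e).symm)]; simp
    · intro z _ hz
      simp only [permGate]
      rw [if_neg hz, mul_zero]
    · intro h; exact absurd (Finset.mem_univ _) h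
  · intro y x
    unfold permGate
    split_ifs
    · exact ⟨1, 0, 1, odd_one, by simp⟩
    · exact ⟨0, 0, 1, odd_one, by simp⟩
  · intro x
    left
    have : (Finset.univ.filter fun y => permGate σ y x ≠ 0) ⊆ {σ x} := by
      intro y hy
      rw [Finset.mem_filter] at hy
      rw [Finset.mem_singleton]
      by_contra h
      exact hy.2 (by unfold permGate; rw [if_neg h])
    exact (Finset.card_le_card this).trans (by simp)

theorem permGate_mulVec {B : Type} [Fintype B] [DecidableEq B] (σ : B → B) (c : B) :
    (permGate σ).mulVec (Pi.single c 1) = Pi.single (σ c) 1 := by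
  ext y
  rw [Matrix.mulVec_single_one]
  simp only [Matrix.col, permGate, Matrix.transpose_apply, Matrix.of_apply]
  by_cases h : y = σ c
  · rw [h]; simp
  · rw [if_neg h, Pi.single_eq_of_ne h]

/-- the subtree reached after reading the answers `w 0, ..., w (k - 1)` -/
def follow (t : DTree ι) (w : ℕ → Bool) : ℕ → DTree ι
  | 0 => t
  | k + 1 =>
    match follow t w k with
    | .leaf b => .leaf b
    | .node _ t₀ t₁ => if w k = true then t₁ else t₀

/-- the next query -/
def nextQ (i₀ : ι) : DTree ι → ι
  | .leaf _ => i₀
  | .node i _ _ => i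

theorem follow_congr (t : DTree ι) (w w' : ℕ → Bool) (k : ℕ) (h : ∀ j < k, w j = w' j) :
    follow t w k = follow t w' k := by
  induction k with
  | zero => rfl
  | succ k ih =>
    simp only [follow]
    rw [ih fun j hj => h j (by omega), h k (by omega)]

theorem follow_depth (t : DTree ι) (w : ℕ → Bool) (k : ℕ) :
    (follow t w k).depth ≤ t.depth - k := by
  induction k with
  | zero => simp [follow]
  | succ k ih =>
    simp only [follow]
    cases hf : follow t w k with
    | leaf b => simp [DTree.depth]
    | node i t₀ t₁ =>
      rw [hf] at ih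
      simp only [DTree.depth] at ih
      dsimp only
      split_ifs <;> omega

theorem follow_eval (t : DTree ι) (i₀ : ι) (x : ι → Bool) (w : ℕ → Bool) (k : ℕ)
    (h : ∀ j < k, w j = x (nextQ i₀ (follow t w j))) : (follow t w k).eval x = t.eval x := by
  induction k with
  | zero => rfl
  | succ k ih =>
    have ih' := ih fun j hj => h j (by omega)
    have hk := h k (by omega)
    simp only [follow]
    cases hf : follow t w k with
    | leaf b => rw [hf] at ih'; exact ih'
    | node i t₀ t₁ =>
      rw [hf] at ih' hk
      rw [← ih']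
      simp only [nextQ] at hk
      simp only [DTree.eval, hk]
      split_ifs <;> rfl

/-- extend a finite word by `false` -/
def ext {T : ℕ} (w : Fin T → Bool) (j : ℕ) : Bool := if h : j < T then w ⟨j, h⟩ else false

/-- load the query index -/
def alpha {T : ℕ} (t : DTree ι) (i₀ : ι) (k : ℕ) (c : QBasis ι (Fin T → Bool)) :
    QBasis ι (Fin T → Bool) :=
  (Equiv.swap i₀ (nextQ i₀ (follow t (ext c.2.2) k)) c.1, c.2.1, c.2.2)

theorem alpha_alpha {T : ℕ} (t : DTree ι) (i₀ : ι) (k : ℕ) (c : QBasis ι (Fin T → Bool)) :
    alpha t i₀ k (alpha t i₀ k c) = c := by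
  simp [alpha]

/-- exchange the answer bit with the `k`-th work bit -/
def beta {T : ℕ} (k : Fin T) (c : QBasis ι (Fin T → Bool)) : QBasis ι (Fin T → Bool) :=
  (c.1, c.2.2 k, Function.update c.2.2 k c.2.1)

theorem beta_beta {T : ℕ} (k : Fin T) (c : QBasis ι (Fin T → Bool)) :
    beta k (beta k c) = c := by
  simp [beta]

/-- one stage -/
noncomputable def stage {T : ℕ} (t : DTree ι) (i₀ : ι) (k : Fin T) :
    List (QStep ι (Fin T → Bool)) :=
  [.gate (permGate (alpha t i₀ k)), .query, .gate (permGate (beta k)),
    .gate (permGate (alpha t i₀ k))]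

theorem query_single (x : ι → Bool) (c : QBasis ι W) :
    QStep.apply x QStep.query (Pi.single c 1) =
      Pi.single (c.1, xor c.2.1 (x c.1), c.2.2) 1 := by
  ext d
  simp only [QStep.apply]
  by_cases h : d = (c.1, xor c.2.1 (x c.1), c.2.2)
  · subst h
    simp
  · rw [Pi.single_eq_of_ne h, Pi.single_eq_of_ne]
    rintro rfl
    apply h
    simp

theorem stage_run {T : ℕ} (t : DTree ι) (i₀ : ι) (k : Fin T) (x : ι → Bool)
    (w : Fin T → Bool) (hw : ∀ j : Fin T, k ≤ j → w j = false) :
    (stage t i₀ k).foldl (fun ψ s => s.apply x ψ) (Pi.single (i₀, false, w) 1) =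
      Pi.single (i₀, false, Function.update w k (x (nextQ i₀ (follow t (ext w) k)))) 1 := by
  have hfollow : follow t (ext (Function.update w k (x (nextQ i₀ (follow t (ext w) k))))) k =
      follow t (ext w) k := by
    apply follow_congr
    intro j hj
    unfold ext
    split_ifs with h
    · rw [Function.update_of_ne]
      intro e
      have := congrArg Fin.val e
      simp at this
      omega
    · rfl
  simp only [stage, List.foldl_cons, List.foldl_nil]
  have e1 : QStep.apply x (.gate (permGate (alpha t i₀ k))) (Pi.single (i₀, false, w) 1) =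
      Pi.single (nextQ i₀ (follow t (ext w) k), false, w) 1 := by
    simp only [QStep.apply, permGate_mulVec, alpha, Equiv.swap_apply_left]
  rw [e1, query_single]
  have e2 : QStep.apply x (.gate (permGate (beta k)))
      (Pi.single (nextQ i₀ (follow t (ext w) k),
        xor false (x (nextQ i₀ (follow t (ext w) k))), w) 1) =
      Pi.single (nextQ i₀ (follow t (ext w) k), false,
        Function.update w k (x (nextQ i₀ (follow t (ext w) k)))) 1 := by
    simp only [QStep.apply, permGate_mulVec, beta, hw k le_rfl, Bool.false_xor]
  dsimp only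
  rw [e2]
  simp only [QStep.apply, permGate_mulVec, alpha, hfollow, Equiv.swap_apply_right]

/-- the answers recorded -/
def wrun {T : ℕ} (t : DTree ι) (i₀ : ι) (x : ι → Bool) : ℕ → (Fin T → Bool)
  | 0 => fun _ => false
  | k + 1 => if h : k < T then
      Function.update (wrun t i₀ x k : Fin T → Bool) ⟨k, h⟩
        (x (nextQ i₀ (follow t (ext (wrun t i₀ x k : Fin T → Bool)) k)))
    else (wrun t i₀ x k : Fin T → Bool)

theorem wrun_false {T : ℕ} (t : DTree ι) (i₀ : ι) (x : ι → Bool) (k : ℕ) :
    ∀ j : Fin T, k ≤ j → wrun t i₀ x k j = false := by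
  induction k with
  | zero => intro j _; rfl
  | succ k ih =>
    intro j hj
    simp only [wrun]
    split_ifs with h
    · rw [Function.update_of_ne, ih j (by omega)]
      intro e
      have := congrArg Fin.val e
      simp at this
      omega
    · exact ih j (by omega)

theorem wrun_spec {T : ℕ} (t : DTree ι) (i₀ : ι) (x : ι → Bool) (k : ℕ) (hk : k ≤ T) :
    ∀ j < k, ext (wrun (T := T) t i₀ x k) j =
      x (nextQ i₀ (follow t (ext (wrun (T := T) t i₀ x k)) j)) := by
  induction k with
  | zero => intro j hj; omega
  | succ k ih =>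
    intro j hj
    have hkT : k < T := by omega
    have hagree : ∀ i < k, ext (wrun (T := T) t i₀ x (k + 1)) i =
        ext (wrun (T := T) t i₀ x k) i := by
      intro i hi
      simp only [wrun, dif_pos hkT]
      unfold ext
      split_ifs with h
      · rw [Function.update_of_ne]
        intro e
        have := congrArg Fin.val e
        simp at this
        omega
      · rfl
    rcases Nat.lt_succ_iff_lt_or_eq.mp hj with hj' | rfl
    · rw [hagree j hj', ih (by omega) j hj']
      congr 2
      apply follow_congr
      intro i hi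
      exact (hagree i (by omega)).symm
    · have h1 : ext (wrun (T := T) t i₀ x (j + 1)) j =
          x (nextQ i₀ (follow t (ext (wrun (T := T) t i₀ x j)) j)) := by
        simp only [wrun, dif_pos hkT]
        unfold ext
        rw [dif_pos hkT, Function.update_self]
      rw [h1]
      congr 2
      apply follow_congr
      intro i hi
      exact (hagree i hi).symm

theorem exists_alg (i₀ : ι) (t : DTree ι) (T : ℕ) (ht : t.depth ≤ T) :
    ∃ A : QAlg ι (Fin T → Bool), A.SparseOdd ∧ A.queries ≤ T ∧
      ∀ x, A.acceptProb x = if t.eval x = true then 1 else 0 := by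
  classical
  let stages : ℕ → List (QStep ι (Fin T → Bool)) := fun k =>
    (List.range k).flatMap fun j => if h : j < T then stage t i₀ ⟨j, h⟩ else []
  have hst : ∀ k, stages (k + 1) = stages k ++
      (if h : k < T then stage t i₀ ⟨k, h⟩ else []) := by
    intro k
    simp only [stages, List.range_succ, List.flatMap_append, List.flatMap_singleton]
  let A : QAlg ι (Fin T → Bool) :=
    { steps := stages T
      start := (i₀, false, fun _ => false)
      accept := fun c => match follow t (ext c.2.2) T with
        | .leaf b => b
        | .node _ _ _ => false }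
  refine ⟨A, ?_, ?_, ?_⟩
  · intro U hU
    have hU' : QStep.gate U ∈ stages T := hU
    simp only [stages, List.mem_flatMap, List.mem_range] at hU'
    obtain ⟨j, hj, hU'⟩ := hU'
    rw [dif_pos hj] at hU'
    simp only [stage, List.mem_cons, List.not_mem_nil, or_false, QStep.gate.injEq, reduceCtorEq,
      false_or] at hU'
    rcases hU' with rfl | rfl | rfl
    · exact permGate_ok _ (alpha_alpha t i₀ j)
    · exact permGate_ok _ (beta_beta _)
    · exact permGate_ok _ (alpha_alpha t i₀ j)
  · have hq : ∀ k, ((stages k).map QStep.cost).sum ≤ k := by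
      intro k
      induction k with
      | zero => simp [stages]
      | succ k ih =>
        rw [hst, List.map_append, List.sum_append]
        have : ((if h : k < T then stage t i₀ ⟨k, h⟩ else []).map QStep.cost).sum ≤ 1 := by
          split_ifs
          · simp [stage, QStep.cost]
          · simp
        omega
    exact hq T
  · intro x
    have hrun : ∀ k ≤ T, (stages k).foldl (fun ψ s => s.apply x ψ)
        (Pi.single (i₀, false, fun _ => false) 1) =
        Pi.single (i₀, false, wrun t i₀ x k) 1 := by
      intro k
      induction k with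
      | zero => intro _; simp [stages, wrun]
      | succ k ih =>
        intro hk
        rw [hst, List.foldl_append, ih (by omega), dif_pos (by omega)]
        rw [stage_run t i₀ ⟨k, by omega⟩ x _ (fun j hj => wrun_false t i₀ x k j hj)]
        congr 3
        simp only [wrun]
        rw [dif_pos (by omega)]
    have hfin : A.final x = Pi.single (i₀, false, wrun t i₀ x T) 1 := hrun T le_rfl
    unfold QAlg.acceptProb
    rw [hfin]
    have hacc : A.accept (i₀, false, wrun t i₀ x T) = t.eval x := by
      have h1 := follow_eval t i₀ x (ext (wrun (T := T) t i₀ x T)) T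
        (wrun_spec t i₀ x T le_rfl)
      have h2 := follow_depth t (ext (wrun (T := T) t i₀ x T)) T
      rw [← h1]
      change (match follow t (ext (wrun (T := T) t i₀ x T)) T with
        | .leaf b => b
        | .node _ _ _ => false) = _
      cases hf : follow t (ext (wrun (T := T) t i₀ x T)) T with
      | leaf b => rfl
      | node i t₀ t₁ =>
        rw [hf] at h2
        simp only [DTree.depth] at h2
        omega
    have hsum : ∑ c : QBasis ι (Fin T → Bool) with A.accept c = true,
        ‖(Pi.single (i₀, false, wrun t i₀ x T) 1 : QBasis ι (Fin T → Bool) → ℂ) c‖ ^ 2 =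
        if A.accept (i₀, false, wrun t i₀ x T) = true then 1 else 0 := by
      rw [Finset.sum_filter, Finset.sum_eq_single (i₀, false, wrun t i₀ x T)]
      · simp
      · intro c _ hc
        rw [Pi.single_eq_of_ne hc]
        simp
      · intro h; exact absurd (Finset.mem_univ _) h
    rw [hsum, hacc]

end Pool.Agent.H543R2
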